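import Mathlib

/-!
# Counting Boolean functions subject to order constraints on disjoint blocks
-/

namespace Pool.Agent.MP72200a

open Finset

/-- The order constraint `x ≤ y` (if `b`) or `y ≤ x` (otherwise). -/
def OrdOk (b x y : Bool) : Prop := (b = true → x = true → y = true) ∧
  (b = false → y = true → x = true)

instance (b x y : Bool) : Decidable (OrdOk b x y) := by unfold OrdOk; infer_instance

/-- A block of three vertices with two orientations. -/
abbrev T3 (V : Type) : Type := V × V × V × Bool × Bool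

/-- The constraint of a block of three vertices. -/
def Ok3 {V : Type} (u : V → Bool) (t : T3 V) : Prop :=
  OrdOk t.2.2.2.1 (u t.1) (u t.2.1) ∧ OrdOk t.2.2.2.2 (u t.2.1) (u t.2.2.1)

/-- The constraint of a block of two vertices. -/
def Ok2 {V : Type} (u : V → Bool) (m : V × V) : Prop := u m.2 = true → u m.1 = true

variable {V : Type} [Fintype V] [DecidableEq V]

/-- The vertices of a block. -/
def supp3 (t : T3 V) : Finset V := {t.1, t.2.1, t.2.2.1}

/-- The vertices of a block. -/
def supp2 (m : V × V) : Finset V := {m.1, m.2}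

/-- Change the values at three points. -/
def upd3 (u : V → Bool) (x y z : V) (a b c : Bool) : V → Bool := fun w =>
  if w = x then a else if w = y then b else if w = z then c else u w

/-- Change the values at two points. -/
def upd2 (u : V → Bool) (x y : V) (a b : Bool) : V → Bool := fun w =>
  if w = x then a else if w = y then b else u w

lemma block3 (U : Finset (V → Bool)) (x y z : V) (hxy : x ≠ y) (hyz : y ≠ z) (hxz : x ≠ z)
    (hU : ∀ u ∈ U, ∀ a b c, upd3 u x y z a b c ∈ U) (P : Bool → Bool → Bool → Prop)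
    [∀ a b c, Decidable (P a b c)]
    (hP : (univ.filter fun s : Bool × Bool × Bool => P s.1 s.2.1 s.2.2).card ≤ 5) :
    8 * (U.filter fun u => P (u x) (u y) (u z)).card ≤ 5 * U.card := by
  have h := Finset.card_le_card_of_injOn
    (s := (U.filter fun u => P (u x) (u y) (u z)) ×ˢ (univ : Finset (Bool × Bool × Bool)))
    (t := U ×ˢ (univ.filter fun s : Bool × Bool × Bool => P s.1 s.2.1 s.2.2))
    (fun q => (upd3 q.1 x y z q.2.1 q.2.2.1 q.2.2.2, (q.1 x, q.1 y, q.1 z))) ?_ ?_
  · rw [card_product, card_product] at h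
    have h8 : (univ : Finset (Bool × Bool × Bool)).card = 8 := rfl
    rw [h8] at h
    calc _ = _ := mul_comm _ _
      _ ≤ _ := h
      _ ≤ U.card * 5 := Nat.mul_le_mul_left _ hP
      _ = _ := mul_comm _ _
  · rintro ⟨u, a, b, c⟩ hq
    simp only [coe_product, Set.mem_prod, mem_coe, mem_filter, mem_univ, true_and, and_true,
      coe_univ, Set.mem_univ] at hq ⊢
    exact ⟨hU u hq.1 a b c, hq.2⟩
  · rintro ⟨u, a, b, c⟩ hq ⟨u', a', b', c'⟩ hq' heq
    simp only [Prod.mk.injEq] at heq
    obtain ⟨h1, h2, h3, h4⟩ := heq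
    have hx := congrFun h1 x
    have hy := congrFun h1 y
    have hz := congrFun h1 z
    simp only [upd3, if_true, hxy.symm, hyz.symm, hxz.symm, if_false, ite_true, ite_false] at hx hy hz
    have hu : u = u' := by
      funext w
      by_cases hwx : w = x
      · rw [hwx]; exact h2
      by_cases hwy : w = y
      · rw [hwy]; exact h3
      by_cases hwz : w = z
      · rw [hwz]; exact h4
      have := congrFun h1 w
      simpa only [upd3, hwx, hwy, hwz, if_false] using this
    simp only [Prod.mk.injEq]
    exact ⟨hu, hx, hy, hz⟩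

lemma block2 (U : Finset (V → Bool)) (x y : V) (hxy : x ≠ y)
    (hU : ∀ u ∈ U, ∀ a b, upd2 u x y a b ∈ U) (P : Bool → Bool → Prop)
    [∀ a b, Decidable (P a b)]
    (hP : (univ.filter fun s : Bool × Bool => P s.1 s.2).card ≤ 3) :
    4 * (U.filter fun u => P (u x) (u y)).card ≤ 3 * U.card := by
  have h := Finset.card_le_card_of_injOn
    (s := (U.filter fun u => P (u x) (u y)) ×ˢ (univ : Finset (Bool × Bool)))
    (t := U ×ˢ (univ.filter fun s : Bool × Bool => P s.1 s.2))
    (fun q => (upd2 q.1 x y q.2.1 q.2.2, (q.1 x, q.1 y))) ?_ ?_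
  · rw [card_product, card_product] at h
    have h8 : (univ : Finset (Bool × Bool)).card = 4 := rfl
    rw [h8] at h
    calc _ = _ := mul_comm _ _
      _ ≤ _ := h
      _ ≤ U.card * 3 := Nat.mul_le_mul_left _ hP
      _ = _ := mul_comm _ _
  · rintro ⟨u, a, b⟩ hq
    simp only [coe_product, Set.mem_prod, mem_coe, mem_filter, mem_univ, true_and, and_true,
      coe_univ, Set.mem_univ] at hq ⊢
    exact ⟨hU u hq.1 a b, hq.2⟩
  · rintro ⟨u, a, b⟩ hq ⟨u', a', b'⟩ hq' heq
    simp only [Prod.mk.injEq] at heq
    obtain ⟨h1, h2, h3⟩ := heq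
    have hx := congrFun h1 x
    have hy := congrFun h1 y
    simp only [upd2, if_true, hxy.symm, if_false, ite_true, ite_false] at hx hy
    have hu : u = u' := by
      funext w
      by_cases hwx : w = x
      · rw [hwx]; exact h2
      by_cases hwy : w = y
      · rw [hwy]; exact h3
      have := congrFun h1 w
      simpa only [upd2, hwx, hwy, if_false] using this
    simp only [Prod.mk.injEq]
    exact ⟨hu, hx, hy⟩

/-- A family of pairwise disjoint blocks. -/
structure IsBlocks (T : Finset (T3 V)) (M : Finset (V × V)) : Prop where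
  ne3 : ∀ t ∈ T, t.1 ≠ t.2.1 ∧ t.2.1 ≠ t.2.2.1 ∧ t.1 ≠ t.2.2.1
  ne2 : ∀ m ∈ M, m.1 ≠ m.2
  disj33 : ∀ t ∈ T, ∀ t' ∈ T, t ≠ t' → Disjoint (supp3 t) (supp3 t')
  disj32 : ∀ t ∈ T, ∀ m ∈ M, Disjoint (supp3 t) (supp2 m)
  disj22 : ∀ m ∈ M, ∀ m' ∈ M, m ≠ m' → Disjoint (supp2 m) (supp2 m')

open Classical in
/-- The Boolean functions satisfying all block constraints. -/
noncomputable def okFun (T : Finset (T3 V)) (M : Finset (V × V)) : Finset (V → Bool) :=
  univ.filter fun u => (∀ t ∈ T, Ok3 u t) ∧ ∀ m ∈ M, Ok2 u m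

lemma mem_okFun (T : Finset (T3 V)) (M : Finset (V × V)) (u : V → Bool) :
    u ∈ okFun T M ↔ (∀ t ∈ T, Ok3 u t) ∧ ∀ m ∈ M, Ok2 u m := by
  unfold okFun
  simp

lemma upd3_of_notMem {u : V → Bool} {x y z w : V} {a b c : Bool}
    (hw : w ∉ ({x, y, z} : Finset V)) : upd3 u x y z a b c w = u w := by
  simp only [mem_insert, mem_singleton, not_or] at hw
  simp [upd3, hw.1, hw.2.1, hw.2.2]

lemma upd2_of_notMem {u : V → Bool} {x y w : V} {a b : Bool}
    (hw : w ∉ ({x, y} : Finset V)) : upd2 u x y a b w = u w := by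
  simp only [mem_insert, mem_singleton, not_or] at hw
  simp [upd2, hw.1, hw.2]

lemma mem_supp3_1 (t : T3 V) : t.1 ∈ supp3 t := by simp [supp3]
lemma mem_supp3_2 (t : T3 V) : t.2.1 ∈ supp3 t := by simp [supp3]
lemma mem_supp3_3 (t : T3 V) : t.2.2.1 ∈ supp3 t := by simp [supp3]
lemma mem_supp2_1 (m : V × V) : m.1 ∈ supp2 m := by simp [supp2]
lemma mem_supp2_2 (m : V × V) : m.2 ∈ supp2 m := by simp [supp2]

lemma ok3_congr {u u' : V → Bool} {t : T3 V} (h : ∀ w ∈ supp3 t, u w = u' w) :
    Ok3 u t ↔ Ok3 u' t := by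
  unfold Ok3
  rw [h _ (mem_supp3_1 t), h _ (mem_supp3_2 t), h _ (mem_supp3_3 t)]

lemma ok2_congr {u u' : V → Bool} {m : V × V} (h : ∀ w ∈ supp2 m, u w = u' w) :
    Ok2 u m ↔ Ok2 u' m := by
  unfold Ok2
  rw [h _ (mem_supp2_1 m), h _ (mem_supp2_2 m)]

lemma ord_count (b c : Bool) : (univ.filter fun s : Bool × Bool × Bool =>
    OrdOk b s.1 s.2.1 ∧ OrdOk c s.2.1 s.2.2).card ≤ 5 := by
  revert b c
  decide

lemma card_okFun_le (T : Finset (T3 V)) (M : Finset (V × V)) (h : IsBlocks T M) :
    8 ^ T.card * 4 ^ M.card * (okFun T M).card ≤ 5 ^ T.card * 3 ^ M.card * 2 ^ Fintype.card V := by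
  classical
  induction T using Finset.induction_on with
  | empty =>
    induction M using Finset.induction_on with
    | empty =>
      simp only [card_empty, pow_zero, one_mul]
      refine (card_le_univ _).trans (le_of_eq ?_)
      simp
    | insert m M hm ih =>
      have h' : IsBlocks (∅ : Finset (T3 V)) M :=
        ⟨by simp, fun m' hm' => h.ne2 m' (mem_insert_of_mem hm'), by simp, by simp,
          fun a ha b hb => h.disj22 a (mem_insert_of_mem ha) b (mem_insert_of_mem hb)⟩
      have ih' := ih h'
      have hstep : 4 * (okFun (∅ : Finset (T3 V)) (insert m M)).card ≤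
          3 * (okFun (∅ : Finset (T3 V)) M).card := by
        have hb := block2 (okFun (∅ : Finset (T3 V)) M) m.1 m.2 (h.ne2 m (mem_insert_self _ _)) ?_
          (fun a b => b = true → a = true) (by decide)
        · refine le_trans (le_of_eq ?_) hb
          congr 2
          ext u
          simp only [mem_okFun, mem_filter, mem_insert, forall_eq_or_imp, notMem_empty,
            false_implies, implies_true, true_and]
          unfold Ok2
          tauto
        · intro u hu a b
          rw [mem_okFun] at hu ⊢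
          refine ⟨by simp, ?_⟩
          intro m' hm'
          have hne : m ≠ m' := by rintro rfl; exact hm hm'
          have hd := h.disj22 m (mem_insert_self _ _) m' (mem_insert_of_mem hm') hne
          rw [ok2_congr (u' := u)]
          · exact hu.2 m' hm'
          · intro w hw
            exact upd2_of_notMem (fun hw' => (Finset.disjoint_left.mp hd) hw' hw)
      rw [card_insert_of_notMem hm]
      calc 8 ^ (∅ : Finset (T3 V)).card * 4 ^ (M.card + 1) *
            (okFun (∅ : Finset (T3 V)) (insert m M)).card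
          = 8 ^ (∅ : Finset (T3 V)).card * 4 ^ M.card *
            (4 * (okFun (∅ : Finset (T3 V)) (insert m M)).card) := by ring
        _ ≤ 8 ^ (∅ : Finset (T3 V)).card * 4 ^ M.card *
            (3 * (okFun (∅ : Finset (T3 V)) M).card) := Nat.mul_le_mul_left _ hstep
        _ = 3 * (8 ^ (∅ : Finset (T3 V)).card * 4 ^ M.card *
            (okFun (∅ : Finset (T3 V)) M).card) := by ring
        _ ≤ 3 * (5 ^ (∅ : Finset (T3 V)).card * 3 ^ M.card * 2 ^ Fintype.card V) :=
            Nat.mul_le_mul_left _ ih'
        _ = _ := by ring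
  | insert t T ht ih =>
    have h' : IsBlocks T M :=
      ⟨fun t' ht' => h.ne3 t' (mem_insert_of_mem ht'), h.ne2,
        fun a ha b hb => h.disj33 a (mem_insert_of_mem ha) b (mem_insert_of_mem hb),
        fun a ha b hb => h.disj32 a (mem_insert_of_mem ha) b hb, h.disj22⟩
    have ih' := ih h'
    have hstep : 8 * (okFun (insert t T) M).card ≤ 5 * (okFun T M).card := by
      obtain ⟨n1, n2, n3⟩ := h.ne3 t (mem_insert_self _ _)
      have hb := block3 (okFun T M) t.1 t.2.1 t.2.2.1 n1 n2 n3 ?_
        (fun a b c => OrdOk t.2.2.2.1 a b ∧ OrdOk t.2.2.2.2 b c) (ord_count _ _)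
      · refine le_trans (le_of_eq ?_) hb
        congr 2
        ext u
        simp only [mem_okFun, mem_filter, mem_insert, forall_eq_or_imp]
        unfold Ok3
        tauto
      · intro u hu a b c
        rw [mem_okFun] at hu ⊢
        constructor
        · intro t' ht'
          have hne : t ≠ t' := by rintro rfl; exact ht ht'
          have hd := h.disj33 t (mem_insert_self _ _) t' (mem_insert_of_mem ht') hne
          rw [ok3_congr (u' := u)]
          · exact hu.1 t' ht'
          · intro w hw
            exact upd3_of_notMem (fun hw' => (Finset.disjoint_left.mp hd) hw' hw)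
        · intro m hm
          have hd := h.disj32 t (mem_insert_self _ _) m hm
          rw [ok2_congr (u' := u)]
          · exact hu.2 m hm
          · intro w hw
            exact upd3_of_notMem (fun hw' => (Finset.disjoint_left.mp hd) hw' hw)
    rw [card_insert_of_notMem ht]
    calc 8 ^ (T.card + 1) * 4 ^ M.card * (okFun (insert t T) M).card
        = 8 ^ T.card * 4 ^ M.card * (8 * (okFun (insert t T) M).card) := by ring
      _ ≤ 8 ^ T.card * 4 ^ M.card * (5 * (okFun T M).card) := Nat.mul_le_mul_left _ hstep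
      _ = 5 * (8 ^ T.card * 4 ^ M.card * (okFun T M).card) := by ring
      _ ≤ 5 * (5 ^ T.card * 3 ^ M.card * 2 ^ Fintype.card V) := Nat.mul_le_mul_left _ ih'
      _ = _ := by ring

open Classical in
/-- The families of Boolean functions satisfying all block constraints. -/
noncomputable def okFam (Z : Type) [Fintype Z] (T : Finset (T3 V)) (M : Finset (V × V)) :
    Finset (V → Z → Bool) :=
  univ.filter fun v => ∀ z, (fun x => v x z) ∈ okFun T M

lemma card_okFam (Z : Type) [Fintype Z] (T : Finset (T3 V)) (M : Finset (V × V)) :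
    (okFam Z T M).card = (okFun T M).card ^ Fintype.card Z := by
  classical
  have h1 : (Fintype.piFinset fun _ : Z => okFun T M).card = (okFun T M).card ^ Fintype.card Z := by
    rw [Fintype.card_piFinset, Finset.prod_const, Finset.card_univ]
  rw [← h1]
  apply Finset.card_bij (fun v _ => fun z x => v x z)
  · intro v hv
    unfold okFam at hv
    rw [mem_filter] at hv
    rw [Fintype.mem_piFinset]
    exact hv.2
  · intro v _ v' _ h
    funext x z
    exact congrFun (congrFun h z) x
  · intro w hw
    rw [Fintype.mem_piFinset] at hw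
    refine ⟨fun x z => w z x, ?_, rfl⟩
    unfold okFam
    rw [mem_filter]
    exact ⟨mem_univ _, hw⟩

lemma card_okFam_le (Z : Type) [Fintype Z] (T : Finset (T3 V)) (M : Finset (V × V))
    (h : IsBlocks T M) :
    ((okFam Z T M).card : ℝ) ≤
      (2 ^ Fintype.card V * (5 / 8 : ℝ) ^ T.card * (3 / 4 : ℝ) ^ M.card) ^ Fintype.card Z := by
  rw [card_okFam]
  push_cast
  apply pow_le_pow_left₀ (by positivity)
  have h1 : ((8 ^ T.card * 4 ^ M.card * (okFun T M).card : ℕ) : ℝ) ≤
      ((5 ^ T.card * 3 ^ M.card * 2 ^ Fintype.card V : ℕ) : ℝ) := by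
    exact_mod_cast card_okFun_le T M h
  push_cast at h1
  rw [div_pow, div_pow]
  have h8 : (0 : ℝ) < 8 ^ T.card := by positivity
  have h4 : (0 : ℝ) < 4 ^ M.card := by positivity
  have : 2 ^ Fintype.card V * (5 ^ T.card / 8 ^ T.card) * (3 ^ M.card / 4 ^ M.card) =
      (5 ^ T.card * 3 ^ M.card * 2 ^ Fintype.card V : ℝ) / (8 ^ T.card * 4 ^ M.card) := by
    field_simp
  rw [this, le_div_iff₀ (by positivity)]
  linarith

end Pool.Agent.MP72200a
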