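import Pool.Agent.MP72200a.Ratio

/-!
# The central value
-/

namespace Pool.Agent.MP72200a

open Finset Real Filter Topology

/-- The normalising constant. -/
noncomputable def cn (n : ℕ) : ℝ := √(π * n) * Real.exp ((n : ℝ) / 2) / 2 ^ (2 * n + 1)

/-- The normalised central value. -/
noncomputable def un (n : ℕ) : ℝ := cn n * Vk n (n / 2)

lemma un_even {m : ℕ} (hm : 1 ≤ m) :
    un (2 * m) = √π * Stirling.stirlingSeq (2 * m) ^ 2 / Stirling.stirlingSeq m ^ 3 := by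
  have hm0 : (0 : ℝ) < m := by exact_mod_cast hm
  have hE : (0 : ℝ) < Real.exp 1 := Real.exp_pos _
  set a : ℝ := (m.factorial : ℝ) with ha
  set b : ℝ := ((2 * m).factorial : ℝ) with hb
  have ha0 : 0 < a := by rw [ha]; positivity
  have hb0 : 0 < b := by rw [hb]; positivity
  set s : ℝ := √(2 * (m : ℝ)) with hs
  have hs0 : 0 < s := by rw [hs]; positivity
  have hs2 : s ^ 2 = 2 * m := Real.sq_sqrt (by positivity)
  set p : ℝ := ((m : ℝ) / Real.exp 1) ^ m with hp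
  have hp0 : 0 < p := by rw [hp]; positivity
  set q : ℝ := (2 : ℝ) ^ m with hq
  have hq0 : 0 < q := by rw [hq]; positivity
  have hC : ((2 * m).choose m : ℝ) = b / a ^ 2 := by
    rw [eq_div_iff (by positivity)]
    have h := Nat.choose_mul_factorial_mul_factorial (show m ≤ 2 * m by omega)
    rw [show 2 * m - m = m by omega] at h
    have h2 : (((2 * m).choose m : ℕ) : ℝ) * (m.factorial : ℝ) * (m.factorial : ℝ) =
        ((2 * m).factorial : ℝ) := by exact_mod_cast h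
    rw [← ha, ← hb] at h2
    rw [← h2]; ring
  have hexp : Real.exp (((2 * m : ℕ) : ℝ) / 2) * (2 / ((2 * m : ℕ) : ℝ)) ^ m = 1 / p := by
    have e1 : ((2 * m : ℕ) : ℝ) / 2 = m * 1 := by push_cast; ring
    rw [e1, Real.exp_nat_mul, ← mul_pow, hp, one_div, ← inv_pow]
    congr 1
    push_cast
    field_simp
  have hpow : (2 : ℝ) ^ (2 * (2 * m) + 1) = 2 * q ^ 4 := by
    rw [hq, ← pow_mul, pow_succ]
    rw [show 2 * (2 * m) = m * 4 by ring]
    ring
  have hsq : √(π * ((2 * m : ℕ) : ℝ)) = √π * s := by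
    rw [Real.sqrt_mul Real.pi_pos.le, hs]
    push_cast
    rfl
  have hst1 : Stirling.stirlingSeq m = a / (s * p) := rfl
  have hst2 : Stirling.stirlingSeq (2 * m) = b / (√2 * s * (q * p) ^ 2) := by
    unfold Stirling.stirlingSeq
    rw [← hb]
    congr 1
    have e1 : √(2 * ((2 * m : ℕ) : ℝ)) = √2 * s := by
      rw [Real.sqrt_mul (by norm_num), hs]
      push_cast
      rfl
    have e2 : (((2 * m : ℕ) : ℝ) / Real.exp 1) ^ (2 * m) = (q * p) ^ 2 := by
      rw [hq, hp, ← mul_pow, ← pow_mul, mul_comm m 2]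
      congr 1
      push_cast
      ring
    rw [e1, e2]
  have h22 : √(2 : ℝ) ^ 2 = 2 := Real.sq_sqrt (by norm_num)
  have hlhs : un (2 * m) = √π * s / (2 * q ^ 4) * (b / a ^ 2) ^ 2 * a * (1 / p) := by
    unfold un cn Vk
    rw [show 2 * m / 2 = m by omega, hC, hpow, hsq, ← hexp, ← ha]
    ring
  rw [hlhs, hst1, hst2]
  have : √π * (b / (√2 * s * (q * p) ^ 2)) ^ 2 / (a / (s * p)) ^ 3 =
      √π * b ^ 2 * s / (√2 ^ 2 * q ^ 4 * p * a ^ 3) := by
    field_simp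
  rw [this, h22]
  field_simp

lemma tendsto_un_even : Tendsto (fun m : ℕ => un (2 * m)) atTop (𝓝 1) := by
  have h := Stirling.tendsto_stirlingSeq_sqrt_pi
  have h2 : Tendsto (fun m : ℕ => Stirling.stirlingSeq (2 * m)) atTop (𝓝 (√π)) :=
    h.comp (tendsto_id.const_mul_atTop' (by norm_num))
  have hpi : (0 : ℝ) < √π := Real.sqrt_pos.mpr Real.pi_pos
  have h3 : Tendsto (fun m : ℕ => √π * Stirling.stirlingSeq (2 * m) ^ 2 /
      Stirling.stirlingSeq m ^ 3) atTop (𝓝 (√π * (√π) ^ 2 / (√π) ^ 3)) :=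
    ((h2.pow 2).const_mul _).div (h.pow 3) (by positivity)
  have e : √π * (√π) ^ 2 / (√π) ^ 3 = 1 := by
    rw [div_eq_one_iff_eq (by positivity)]; ring
  rw [e] at h3
  refine h3.congr' ?_
  filter_upwards [eventually_ge_atTop 1] with m hm
  exact (un_even hm).symm

lemma un_odd {m : ℕ} (hm : 1 ≤ m) :
    un (2 * m + 1) = un (2 * m) * (√(1 + 1 / (2 * (m : ℝ))) * (Real.exp (1 / 2) / 4) *
      ((2 - 1 / ((m : ℝ) + 1)) ^ 2) * ((1 + (1 / 2) / (m : ℝ)) ^ m)⁻¹) := by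
  have hm0 : (0 : ℝ) < m := by exact_mod_cast hm
  have hC : ((2 * m + 1).choose m : ℝ) = (2 - 1 / ((m : ℝ) + 1)) * ((2 * m).choose m : ℝ) := by
    have h1 := Nat.add_one_mul_choose_eq (2 * m) m
    rw [Nat.choose_symm_half] at h1
    have h2 : (2 * (m : ℝ) + 1) * ((2 * m).choose m : ℝ) =
        ((2 * m + 1).choose m : ℝ) * ((m : ℝ) + 1) := by exact_mod_cast h1
    have h3 : (0 : ℝ) < (m : ℝ) + 1 := by positivity
    field_simp
    linarith
  have hs : √(π * ((2 * m + 1 : ℕ) : ℝ)) =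
      √(π * ((2 * m : ℕ) : ℝ)) * √(1 + 1 / (2 * (m : ℝ))) := by
    rw [← Real.sqrt_mul (by positivity)]
    congr 1
    push_cast
    field_simp
  have he : Real.exp (((2 * m + 1 : ℕ) : ℝ) / 2) =
      Real.exp (((2 * m : ℕ) : ℝ) / 2) * Real.exp (1 / 2) := by
    rw [← Real.exp_add]
    congr 1
    push_cast
    ring
  have hp : (2 / ((2 * m + 1 : ℕ) : ℝ)) ^ m =
      (2 / ((2 * m : ℕ) : ℝ)) ^ m * ((1 + (1 / 2) / (m : ℝ)) ^ m)⁻¹ := by
    rw [← inv_pow, ← mul_pow]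
    congr 1
    push_cast
    field_simp
  unfold un cn Vk
  rw [show (2 * m + 1) / 2 = m by omega, show 2 * m / 2 = m by omega, hC, hs, he, hp,
    show 2 * (2 * m + 1) + 1 = (2 * (2 * m) + 1) + 2 by ring, pow_add (2 : ℝ) (2 * (2 * m) + 1) 2]
  have h2 : (2 : ℝ) ^ (2 * (2 * m) + 1) ≠ 0 := by positivity
  field_simp
  ring

lemma tendsto_un_odd : Tendsto (fun m : ℕ => un (2 * m + 1)) atTop (𝓝 1) := by
  have hinv : Tendsto (fun m : ℕ => (m : ℝ)⁻¹) atTop (𝓝 0) :=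
    tendsto_inv_atTop_zero.comp tendsto_natCast_atTop_atTop
  have h1 : Tendsto (fun m : ℕ => √(1 + 1 / (2 * (m : ℝ)))) atTop (𝓝 1) := by
    have : Tendsto (fun m : ℕ => 1 + 1 / (2 * (m : ℝ))) atTop (𝓝 1) := by
      have h := (hinv.const_mul (1 / 2)).const_add 1
      simp only [mul_zero, add_zero] at h
      refine h.congr fun m => ?_
      rw [one_div, one_div, mul_inv]
    have h2 := this.sqrt
    rwa [Real.sqrt_one] at h2
  have h2 : Tendsto (fun m : ℕ => (2 - 1 / ((m : ℝ) + 1)) ^ 2) atTop (𝓝 4) := by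
    have h := (tendsto_one_div_add_atTop_nhds_zero_nat (𝕜 := ℝ)).const_sub 2
    have h3 := h.pow 2
    norm_num at h3
    simpa using h3
  have h3 : Tendsto (fun m : ℕ => ((1 + (1 / 2) / (m : ℝ)) ^ m)⁻¹) atTop
      (𝓝 (Real.exp (1 / 2))⁻¹) := by
    have h := Real.tendsto_one_add_div_pow_exp (1 / 2)
    exact h.inv₀ (Real.exp_pos _).ne'
  have h4 := tendsto_un_even.mul (((h1.mul_const (Real.exp (1 / 2) / 4)).mul h2).mul h3)
  have e : (1 : ℝ) * (1 * (Real.exp (1 / 2) / 4) * 4 * (Real.exp (1 / 2))⁻¹) = 1 := by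
    have := (Real.exp_pos (1 / 2)).ne'
    field_simp
  rw [e] at h4
  refine h4.congr' ?_
  filter_upwards [eventually_ge_atTop 1] with m hm
  exact (un_odd hm).symm

lemma tendsto_of_even_odd {f : ℕ → ℝ} {l : ℝ} (h0 : Tendsto (fun m : ℕ => f (2 * m)) atTop (𝓝 l))
    (h1 : Tendsto (fun m : ℕ => f (2 * m + 1)) atTop (𝓝 l)) : Tendsto f atTop (𝓝 l) := by
  rw [Metric.tendsto_atTop] at *
  intro ε hε
  obtain ⟨N0, hN0⟩ := h0 ε hε
  obtain ⟨N1, hN1⟩ := h1 ε hε
  refine ⟨2 * N0 + 2 * N1 + 1, fun n hn => ?_⟩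
  rcases Nat.even_or_odd' n with ⟨m, hm | hm⟩
  · rw [hm]; exact hN0 m (by omega)
  · rw [hm]; exact hN1 m (by omega)

lemma tendsto_un : Tendsto un atTop (𝓝 1) := tendsto_of_even_odd tendsto_un_even tendsto_un_odd

end Pool.Agent.MP72200a
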