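import Pool.Agent.MP72200a.Packing

/-!
# The bound for the number of configurations
-/

namespace Pool.Agent.MP72200a

open Finset

/-- The bound for one key. -/
noncomputable def bnd0 (k s τ μ : ℕ) : ℝ :=
  (2 ^ k * (5 / 8 : ℝ) ^ τ * (3 / 4 : ℝ) ^ μ) ^ s *
    (((k : ℝ) * bigW k) ^ (3 * τ) * (11 : ℝ) ^ (((3 * τ : ℕ) : ℝ) ^ 2 / 10) *
      (2 ^ 11 * 2 ^ (k - 3 * τ)) ^ τ)

/-- The bound for the number of configurations. -/
noncomputable def bndB (k s : ℕ) : ℝ :=
  ∑ τ ∈ range (k / 3 + 1), ∑ μ ∈ range (k + 1),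
    (4 * (k : ℝ) ^ 3) ^ τ * (((k : ℝ) ^ 2) ^ μ * bnd0 k s τ μ)

lemma bigW_nonneg (k : ℕ) : 0 ≤ bigW k := by unfold bigW; positivity

lemma bnd0_nonneg (k s τ μ : ℕ) : 0 ≤ bnd0 k s τ μ := by
  have := bigW_nonneg k
  unfold bnd0
  positivity

lemma sum_choose_le (N K : ℕ) (f : ℕ → ℝ) (hf : ∀ m, 0 ≤ f m) (hK : ∀ m, K ≤ m → f m = 0) :
    ∑ m ∈ range (N + 1), (N.choose m : ℝ) * f m ≤ ∑ m ∈ range K, (N : ℝ) ^ m * f m := by
  have h1 : ∑ m ∈ range (N + 1), (N.choose m : ℝ) * f m =
      ∑ m ∈ (range (N + 1)).filter (fun m => m < K), (N.choose m : ℝ) * f m := by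
    symm
    apply Finset.sum_filter_of_ne
    intro m _ hne
    by_contra hcon
    push Not at hcon
    rw [hK m hcon, mul_zero] at hne
    exact hne rfl
  rw [h1]
  calc _ ≤ ∑ m ∈ range K, (N.choose m : ℝ) * f m := by
        apply Finset.sum_le_sum_of_subset_of_nonneg
        · intro m hm
          rw [mem_filter] at hm
          exact mem_range.mpr hm.2
        · intro m _ _
          exact mul_nonneg (by positivity) (hf m)
    _ ≤ _ := by
        apply Finset.sum_le_sum
        intro m _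
        apply mul_le_mul_of_nonneg_right _ (hf m)
        exact_mod_cast Nat.choose_le_pow _ _

variable {V Z : Type} [Fintype V] [Fintype Z]

lemma card_blocks2 [DecidableEq V] {T : Finset (T3 V)} {M : Finset (V × V)}
    (h : IsBlocks T M) : M.card ≤ Fintype.card V := by
  have h1 : (M.biUnion supp2).card = 2 * M.card := by
    rw [card_biUnion h.disj22]
    have : ∀ m ∈ M, (supp2 m).card = 2 := by
      intro m hm
      unfold supp2
      exact Finset.card_pair (h.ne2 m hm)
    rw [Finset.sum_congr rfl this, Finset.sum_const, smul_eq_mul, mul_comm]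
  have h2 := card_le_univ (M.biUnion supp2)
  omega

open Classical in
lemma isBlocks_of_cfg {R : V → V → Prop} {v : V → Z → Bool} (h : IsCfg (R, v)) :
    IsBlocks (maxPack v) (relM R (maxPack v)) := by
  have hp := maxPack_isPack v
  have hmem : ∀ {m : V × V}, m ∈ relM R (maxPack v) → m.1 ∉ VT (maxPack v) ∧
      m.2 ∉ VT (maxPack v) ∧ m.1 ≠ m.2 ∧ R m.1 m.2 := by
    intro m hm
    unfold relM at hm
    exact (mem_filter.mp hm).2
  have hcmp : ∀ {x y : V}, R x y → Vcmp v x y := fun hxy => Or.inr fun z hz => h.2 _ _ hxy z hz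
  refine ⟨hp.ne, fun m hm => (hmem hm).2.2.1, hp.disj, ?_, ?_⟩
  · intro t ht m hm
    obtain ⟨h1, h2, _, _⟩ := hmem hm
    rw [Finset.disjoint_left]
    intro a ha ha'
    simp only [supp2, mem_insert, mem_singleton] at ha'
    rcases ha' with rfl | rfl
    · exact h1 (mem_VT ht ha)
    · exact h2 (mem_VT ht ha)
  · rintro ⟨a, b⟩ hm ⟨c, d⟩ hm' hne
    obtain ⟨h1, h2, h3, h4⟩ := hmem hm
    obtain ⟨h1', h2', h3', h4'⟩ := hmem hm'
    simp only at h1 h2 h3 h4 h1' h2' h3' h4'
    rw [Finset.disjoint_left]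
    intro x hx hx'
    simp only [supp2, mem_insert, mem_singleton] at hx hx'
    rcases hx with rfl | rfl <;> rcases hx' with e | e
    · -- a = c
      subst e
      have hbd : b ≠ d := by rintro rfl; exact hne rfl
      exact no_path h2 h1 h2' h3.symm h3' hbd (hcmp h4).symm (hcmp h4')
    · -- a = d
      subst e
      by_cases hbc : b = c
      · subst hbc
        exact h3 (h.1.2.1 _ _ h4 h4')
      · exact no_path h2 h1 h1' h3.symm h3'.symm hbc (hcmp h4).symm (hcmp h4').symm
    · -- b = c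
      subst e
      by_cases had : a = d
      · subst had
        exact h3 (h.1.2.1 _ _ h4 h4')
      · exact no_path h1 h2 h2' h3 h3' had (hcmp h4) (hcmp h4')
    · -- b = d
      subst e
      have hac : a ≠ c := by rintro rfl; exact hne rfl
      exact no_path h1 h2 h1' h3 h3'.symm hac (hcmp h4) (hcmp h4').symm

open Classical in
/-- The fibre bound. -/
lemma card_fiber_le (T : Finset (T3 V)) (M : Finset (V × V)) :
    ((univ.filter fun c : (V → V → Prop) × (V → Z → Bool) => IsCfg c ∧ maxPack c.2 = T ∧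
      relM c.1 T = M).card : ℝ) ≤
      if 3 * T.card ≤ Fintype.card V ∧ M.card ≤ Fintype.card V then
        bnd0 (Fintype.card V) (Fintype.card Z) T.card M.card else 0 := by
  by_cases hne : (univ.filter fun c : (V → V → Prop) × (V → Z → Bool) => IsCfg c ∧
      maxPack c.2 = T ∧ relM c.1 T = M).Nonempty
  swap
  · rw [not_nonempty_iff_eq_empty] at hne
    rw [hne, card_empty]
    split_ifs
    · exact_mod_cast bnd0_nonneg _ _ _ _
    · simp
  obtain ⟨⟨R0, v0⟩, h0⟩ := hne
  rw [mem_filter] at h0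
  obtain ⟨_, hc0, hT0, hM0⟩ := h0
  simp only at hT0 hM0
  have hb : IsBlocks T M := by
    have := isBlocks_of_cfg hc0
    rw [hT0, hM0] at this
    exact this
  have hcT : 3 * T.card ≤ Fintype.card V := by
    rw [← card_VT hb.ne3 hb.disj33]
    exact card_le_univ _
  rw [if_pos ⟨hcT, card_blocks2 hb⟩]
  set F := univ.filter fun c : (V → V → Prop) × (V → Z → Bool) => IsCfg c ∧ maxPack c.2 = T ∧
      relM c.1 T = M with hF
  have hmaps : ∀ c ∈ F, c.2 ∈ okFam Z T M := by
    rintro ⟨R, v⟩ hc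
    rw [hF, mem_filter] at hc
    obtain ⟨_, hcfg, hT, hM⟩ := hc
    simp only at hT hM
    unfold okFam
    rw [mem_filter]
    refine ⟨mem_univ _, fun z => ?_⟩
    rw [mem_okFun]
    constructor
    · intro t ht
      rw [← hT] at ht
      exact (maxPack_isPack v).ok t ht z
    · intro m hm
      rw [← hM] at hm
      unfold relM at hm
      have := (mem_filter.mp hm).2.2.2.2
      exact fun hz => hcfg.2 _ _ this z hz
  have hcard : F.card = ∑ v ∈ okFam Z T M, (F.filter fun c => c.2 = v).card :=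
    Finset.card_eq_sum_card_fiberwise hmaps
  set C : ℝ := (((Fintype.card V : ℝ) * bigW (Fintype.card V)) ^ (3 * T.card) *
      (11 : ℝ) ^ (((3 * T.card : ℕ) : ℝ) ^ 2 / 10) *
      (2 ^ 11 * 2 ^ (Fintype.card V - 3 * T.card)) ^ T.card) with hC
  have hC0 : 0 ≤ C := by
    have := bigW_nonneg (Fintype.card V)
    rw [hC]; positivity
  have hfib : ∀ v ∈ okFam Z T M, ((F.filter fun c => c.2 = v).card : ℝ) ≤ C := by
    intro v _
    by_cases hT : maxPack v = T
    · have h1 := card_rel_le v M
      rw [hT] at h1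
      refine le_trans ?_ h1
      have h2 : (F.filter fun c => c.2 = v).card ≤
          (univ.filter fun R : V → V → Prop => IsCfg (R, v) ∧ relM R T = M).card := by
        apply Finset.card_le_card_of_injOn Prod.fst
        · rintro ⟨R, w⟩ hc
          simp only [coe_filter, Set.mem_setOf_eq] at hc
          obtain ⟨hc1, rfl⟩ := hc
          rw [hF, mem_filter] at hc1
          simp only [coe_filter, mem_univ, true_and, Set.mem_setOf_eq]
          exact ⟨hc1.2.1, hc1.2.2.2⟩
        · rintro ⟨R, w⟩ hc ⟨R', w'⟩ hc' h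
          simp only [coe_filter, Set.mem_setOf_eq] at hc hc'
          exact Prod.ext h (hc.2.trans hc'.2.symm)
      exact_mod_cast h2
    · have : (F.filter fun c => c.2 = v) = ∅ := by
        rw [filter_eq_empty_iff]
        rintro ⟨R, w⟩ hc rfl
        rw [hF, mem_filter] at hc
        exact hT hc.2.2.1
      rw [this, card_empty]
      exact_mod_cast hC0
  calc (F.card : ℝ) = ∑ v ∈ okFam Z T M, ((F.filter fun c => c.2 = v).card : ℝ) := by
        exact_mod_cast hcard
    _ ≤ ∑ v ∈ okFam Z T M, C := Finset.sum_le_sum hfib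
    _ = ((okFam Z T M).card : ℝ) * C := by rw [Finset.sum_const, nsmul_eq_mul]
    _ ≤ _ := by
        unfold bnd0
        exact mul_le_mul_of_nonneg_right (card_okFam_le Z T M hb) hC0

theorem card_cfg_le (V Z : Type) [Fintype V] [Fintype Z] :
    (Nat.card (Cfg V Z) : ℝ) ≤ bndB (Fintype.card V) (Fintype.card Z) := by
  classical
  set k := Fintype.card V with hk
  set s := Fintype.card Z with hs
  have h0 : Nat.card (Cfg V Z) =
      (univ.filter fun c : (V → V → Prop) × (V → Z → Bool) => IsCfg c).card := by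
    rw [Nat.card_eq_fintype_card, Fintype.card_subtype]
  rw [h0]
  set F := univ.filter fun c : (V → V → Prop) × (V → Z → Bool) => IsCfg c with hF
  have h1 : F.card = ∑ p : Finset (T3 V) × Finset (V × V),
      (F.filter fun c => (maxPack c.2, relM c.1 (maxPack c.2)) = p).card :=
    Finset.card_eq_sum_card_fiberwise (fun _ _ => mem_univ _)
  have h2 : ∀ p : Finset (T3 V) × Finset (V × V),
      ((F.filter fun c => (maxPack c.2, relM c.1 (maxPack c.2)) = p).card : ℝ) ≤
      if 3 * p.1.card ≤ k ∧ p.2.card ≤ k then bnd0 k s p.1.card p.2.card else 0 := by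
    rintro ⟨T, M⟩
    refine le_trans (le_of_eq ?_) (card_fiber_le T M)
    congr 2
    ext c
    simp only [hF, mem_filter, mem_univ, true_and, Prod.mk.injEq]
    constructor
    · rintro ⟨h1, h2, h3⟩
      exact ⟨h1, h2, by rw [← h2]; exact h3⟩
    · rintro ⟨h1, h2, h3⟩
      exact ⟨h1, h2, by rw [h2]; exact h3⟩
  have h3 : (F.card : ℝ) ≤ ∑ T : Finset (T3 V), ∑ M : Finset (V × V),
      (if 3 * T.card ≤ k ∧ M.card ≤ k then bnd0 k s T.card M.card else 0) := by
    have : (F.card : ℝ) = ∑ p : Finset (T3 V) × Finset (V × V),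
      ((F.filter fun c => (maxPack c.2, relM c.1 (maxPack c.2)) = p).card : ℝ) := by
      exact_mod_cast h1
    rw [this]
    refine (Finset.sum_le_sum fun p _ => h2 p).trans (le_of_eq ?_)
    rw [Fintype.sum_prod_type]
  refine h3.trans ?_
  -- inner sums
  have hN2 : Fintype.card (V × V) = k ^ 2 := by rw [Fintype.card_prod, pow_two]
  have hN3 : Fintype.card (T3 V) = 4 * k ^ 3 := by
    simp only [Fintype.card_prod, Fintype.card_bool]
    ring
  have hinner : ∀ τ : ℕ, ∑ M : Finset (V × V),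
      (if 3 * τ ≤ k ∧ M.card ≤ k then bnd0 k s τ M.card else 0) ≤
      if 3 * τ ≤ k then ∑ μ ∈ range (k + 1), ((k : ℝ) ^ 2) ^ μ * bnd0 k s τ μ else 0 := by
    intro τ
    by_cases hτ : 3 * τ ≤ k
    · rw [if_pos hτ]
      have e := Finset.sum_powerset_apply_card
        (f := fun μ => if 3 * τ ≤ k ∧ μ ≤ k then bnd0 k s τ μ else 0)
        (x := (univ : Finset (V × V)))
      rw [Finset.powerset_univ, Finset.card_univ, hN2] at e
      rw [e]
      have e2 := sum_choose_le (k ^ 2) (k + 1)
        (fun μ => if 3 * τ ≤ k ∧ μ ≤ k then bnd0 k s τ μ else 0)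
        (fun μ => by
          show 0 ≤ (if 3 * τ ≤ k ∧ μ ≤ k then bnd0 k s τ μ else 0)
          split_ifs
          · exact bnd0_nonneg _ _ _ _
          · exact le_rfl)
        (fun μ hμ => by
          show (if 3 * τ ≤ k ∧ μ ≤ k then bnd0 k s τ μ else 0) = 0
          rw [if_neg]
          omega)
      simp only [nsmul_eq_mul]
      refine e2.trans (le_of_eq ?_)
      refine Finset.sum_congr rfl fun μ hμ => ?_
      rw [mem_range] at hμ
      rw [if_pos ⟨hτ, by omega⟩]
      push_cast
      rfl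
    · rw [if_neg hτ]
      apply le_of_eq
      apply Finset.sum_eq_zero
      intro M _
      rw [if_neg]
      exact fun h => hτ h.1
  calc _ ≤ ∑ T : Finset (T3 V), (fun τ : ℕ => if 3 * τ ≤ k then
        ∑ μ ∈ range (k + 1), ((k : ℝ) ^ 2) ^ μ * bnd0 k s τ μ else 0) T.card :=
        Finset.sum_le_sum fun T _ => hinner T.card
    _ = ∑ τ ∈ range (4 * k ^ 3 + 1), ((4 * k ^ 3).choose τ : ℝ) * (fun τ : ℕ => if 3 * τ ≤ k then
        ∑ μ ∈ range (k + 1), ((k : ℝ) ^ 2) ^ μ * bnd0 k s τ μ else 0) τ := by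
        have e := Finset.sum_powerset_apply_card
          (f := fun τ : ℕ => if 3 * τ ≤ k then
            ∑ μ ∈ range (k + 1), ((k : ℝ) ^ 2) ^ μ * bnd0 k s τ μ else 0)
          (x := (univ : Finset (T3 V)))
        rw [Finset.powerset_univ, Finset.card_univ, hN3] at e
        rw [e]
        simp only [nsmul_eq_mul]
    _ ≤ ∑ τ ∈ range (k / 3 + 1), ((4 * k ^ 3 : ℕ) : ℝ) ^ τ * (fun τ : ℕ => if 3 * τ ≤ k then
        ∑ μ ∈ range (k + 1), ((k : ℝ) ^ 2) ^ μ * bnd0 k s τ μ else 0) τ := by
        apply sum_choose_le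
        · intro τ
          show 0 ≤ (if 3 * τ ≤ k then
            ∑ μ ∈ range (k + 1), ((k : ℝ) ^ 2) ^ μ * bnd0 k s τ μ else 0)
          split_ifs
          · exact Finset.sum_nonneg fun μ _ => mul_nonneg (by positivity) (bnd0_nonneg _ _ _ _)
          · exact le_rfl
        · intro τ hτ
          show (if 3 * τ ≤ k then
            ∑ μ ∈ range (k + 1), ((k : ℝ) ^ 2) ^ μ * bnd0 k s τ μ else 0) = 0
          rw [if_neg]
          omega
    _ = _ := by
        unfold bndB
        refine Finset.sum_congr rfl fun τ hτ => ?_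
        rw [mem_range] at hτ
        show ((4 * k ^ 3 : ℕ) : ℝ) ^ τ * (if 3 * τ ≤ k then
            ∑ μ ∈ range (k + 1), ((k : ℝ) ^ 2) ^ μ * bnd0 k s τ μ else 0) = _
        rw [if_pos (by omega), Finset.mul_sum]
        refine Finset.sum_congr rfl fun μ _ => ?_
        push_cast
        ring

end Pool.Agent.MP72200a
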