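import Mathlib

/-!
# Regular Boolean matrices: definitions

`regCount n` is the number of regular elements of the monoid of `n × n` Boolean matrices.
-/

namespace Pool.Agent.MP72200a

/-- An `n × n` matrix over the two-element Boolean algebra `{0, 1} = {false, true}`. -/
abbrev BMat (n : ℕ) : Type := Matrix (Fin n) (Fin n) Bool

/-- The Boolean matrix product `(A B)_{ij} = max_k min (a_{ik}, b_{kj})`. -/
noncomputable def bmul {n : ℕ} (A B : BMat n) : BMat n :=
  fun i j => Finset.univ.sup fun k => min (A i k) (B k j)

/-- `A` is regular in the monoid of Boolean matrices: `A X A = A` for some `X`. -/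
def IsRegular {n : ℕ} (A : BMat n) : Prop := ∃ X : BMat n, bmul (bmul A X) A = A

/-- `r_n`, the number of regular `n × n` Boolean matrices. -/
noncomputable def regCount (n : ℕ) : ℕ := Nat.card {A : BMat n // IsRegular A}

/-- The asymptotic form `f(n) = ∑_k C(n,k)^2 k! 4^{k(n-k)}`. -/
def asymp (n : ℕ) : ℕ :=
  ∑ k ∈ Finset.range (n + 1), n.choose k ^ 2 * k.factorial * 4 ^ (k * (n - k))

end Pool.Agent.MP72200a
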