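import Pool.Agent.MP72200a.Structure

/-!
# Encoding a regular Boolean matrix by a poset and families of down-sets
-/

namespace Pool.Agent.MP72200a

open Finset

/-- `R` is a partial order. -/
def IsPO {V : Type} (R : V → V → Prop) : Prop :=
  (∀ x, R x x) ∧ (∀ x y, R x y → R y x → x = y) ∧ (∀ x y z, R x y → R y z → R x z)

/-- A configuration: a partial order on `V` and a family (indexed by `Z`) of down-sets. -/
def IsCfg {V Z : Type} (c : (V → V → Prop) × (V → Z → Bool)) : Prop :=
  IsPO c.1 ∧ ∀ x y, c.1 x y → ∀ z, c.2 y z = true → c.2 x z = true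

/-- The type of configurations. -/
abbrev Cfg (V Z : Type) : Type := {c : (V → V → Prop) × (V → Z → Bool) // IsCfg c}

variable {n : ℕ}

open Classical in
/-- The minimal indices of the prime rows. -/
noncomputable def primeIdx (A : BMat n) : Finset (Fin n) :=
  univ.filter fun q => (∃ p, Prm A q p) ∧ ∀ q', (∀ j, A q' j = A q j) → q ≤ q'

open Classical in
/-- A column witnessing that row `q` is prime. -/
noncomputable def primeCol (A : BMat n) (q : Fin n) : Fin n :=
  if h : ∃ p, Prm A q p then h.choose else q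

lemma primeCol_spec {A : BMat n} {q : Fin n} (hq : q ∈ primeIdx A) : Prm A q (primeCol A q) := by
  classical
  unfold primeIdx at hq
  rw [mem_filter] at hq
  unfold primeCol
  rw [dif_pos hq.2.1]
  exact hq.2.1.choose_spec

lemma primeCol_iff {A : BMat n} {q : Fin n} (hq : q ∈ primeIdx A) (i : Fin n) :
    A i (primeCol A q) = true ↔ ∀ j, A q j = true → A i j = true :=
  ⟨(primeCol_spec hq).2 i, fun h => h _ (primeCol_spec hq).1⟩

lemma primeIdx_eq {A : BMat n} {q q' : Fin n} (hq : q ∈ primeIdx A) (hq' : q' ∈ primeIdx A)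
    (h1 : ∀ j, A q j = true → A q' j = true) (h2 : ∀ j, A q' j = true → A q j = true) :
    q = q' := by
  classical
  unfold primeIdx at hq hq'
  rw [mem_filter] at hq hq'
  have h : ∀ j, A q j = A q' j := fun j => by
    rw [Bool.eq_iff_iff]; exact ⟨h1 j, h2 j⟩
  exact le_antisymm (hq.2.2 q' (fun j => (h j).symm)) (hq'.2.2 q h)

lemma exists_primeIdx {A : BMat n} {q p : Fin n} (hq : Prm A q p) :
    ∃ q' ∈ primeIdx A, ∀ j, A q' j = A q j := by
  classical
  have hne : (univ.filter fun q' => ∀ j, A q' j = A q j).Nonempty := ⟨q, by simp⟩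
  set q' := (univ.filter fun q' => ∀ j, A q' j = A q j).min' hne with hq'
  have hmem := Finset.min'_mem _ hne
  rw [← hq', mem_filter] at hmem
  refine ⟨q', ?_, hmem.2⟩
  unfold primeIdx
  rw [mem_filter]
  refine ⟨mem_univ _, ⟨p, ?_, ?_⟩, ?_⟩
  · rw [hmem.2]; exact hq.1
  · intro i hi j hj
    rw [hmem.2] at hj
    exact hq.2 i hi j hj
  · intro q'' h
    refine Finset.min'_le _ _ ?_
    rw [mem_filter]
    exact ⟨mem_univ _, fun j => (h j).trans (hmem.2 j)⟩

lemma apply_iff_of_isRegular {A : BMat n} (hA : IsRegular A) (i j : Fin n) :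
    A i j = true ↔ ∃ q ∈ primeIdx A, A i (primeCol A q) = true ∧ A q j = true := by
  constructor
  · intro h
    obtain ⟨q, p, hqp, hip, hqj⟩ := cover_of_isRegular hA i j h
    obtain ⟨q', hq', heq⟩ := exists_primeIdx hqp
    refine ⟨q', hq', ?_, by rw [heq]; exact hqj⟩
    rw [primeCol_iff hq']
    intro j' hj'
    rw [heq] at hj'
    exact hqp.2 i hip j' hj'
  · rintro ⟨q, hq, h1, h2⟩
    exact (primeCol_iff hq i).mp h1 j h2

/-- The type of codes. -/
abbrev Code (n : ℕ) : Type :=
  Σ Q : Finset (Fin n), Σ p : (Q ↪ Fin n), Cfg Q ({i : Fin n // i ∉ Q} ⊕ {j // j ∉ Set.range p})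

open Classical in
/-- Decoding. -/
noncomputable def decode (c : Code n) : BMat n := fun i j =>
  decide (∃ q : c.1, (if h : i ∈ c.1 then c.2.2.1.1 q ⟨i, h⟩ else
      c.2.2.1.2 q (Sum.inl ⟨i, h⟩) = true) ∧
    ((∃ q', c.2.1 q' = j ∧ c.2.2.1.1 q' q) ∨
      ∃ h : j ∉ Set.range c.2.1, c.2.2.1.2 q (Sum.inr ⟨j, h⟩) = false))

/-- The injection `q ↦ primeCol A q` on prime indices. -/
noncomputable def primeEmb (A : BMat n) : (primeIdx A) ↪ Fin n where
  toFun q := primeCol A q
  inj' := by
    intro q q' h
    have h' : primeCol A q = primeCol A q' := h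
    apply Subtype.ext
    refine primeIdx_eq q.2 q'.2 ?_ ?_
    · rw [← primeCol_iff q.2, h']; exact (primeCol_spec q'.2).1
    · rw [← primeCol_iff q'.2, ← h']; exact (primeCol_spec q.2).1

/-- Encoding. -/
noncomputable def encode (A : BMat n) : Code n :=
  ⟨primeIdx A, primeEmb A,
    ⟨(fun q' q => A q (primeCol A q') = true,
      fun q z => Sum.elim (fun i => A i.1 (primeCol A q)) (fun j => !(A q j.1)) z), by
      refine ⟨⟨?_, ?_, ?_⟩, ?_⟩
      · intro q; exact (primeCol_spec q.2).1
      · intro q q' h1 h2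
        exact Subtype.ext (primeIdx_eq q.2 q'.2 ((primeCol_iff q.2 _).mp h1)
          ((primeCol_iff q'.2 _).mp h2))
      · intro x y z h1 h2
        exact (primeCol_iff y.2 _).mp h2 _ h1
      · intro x y hxy z hz
        have hxy' := (primeCol_iff x.2 _).mp hxy
        rcases z with i | j
        · simp only [Sum.elim_inl] at hz ⊢
          have := (primeCol_iff y.2 _).mp hz
          rw [primeCol_iff x.2]
          exact fun j hj => this j (hxy' j hj)
        · simp only [Sum.elim_inr, Bool.not_eq_true'] at hz ⊢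
          by_contra hcon
          rw [Bool.not_eq_false] at hcon
          rw [hxy' _ hcon] at hz
          exact absurd hz (by decide)⟩⟩

lemma decode_encode {A : BMat n} (hA : IsRegular A) : decode (encode A) = A := by
  classical
  funext i j
  rw [Bool.eq_iff_iff, apply_iff_of_isRegular hA]
  unfold decode
  rw [decide_eq_true_iff]
  have e1 : (encode A).1 = primeIdx A := rfl
  constructor
  · rintro ⟨q, h1, h2⟩
    refine ⟨q, q.2, ?_, ?_⟩
    · split_ifs at h1 with h
      · exact h1
      · exact h1
    · rcases h2 with ⟨q', hq', h3⟩ | ⟨h, h3⟩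
      · have : primeCol A q' = j := hq'
        rw [← this]; exact h3
      · have h4 : (!(A q j)) = false := h3
        simpa using h4
  · rintro ⟨q, hq, h1, h2⟩
    refine ⟨⟨q, hq⟩, ?_, ?_⟩
    · split_ifs with h
      · exact h1
      · exact h1
    · by_cases hj : j ∈ Set.range (encode A).2.1
      · obtain ⟨q', hq'⟩ := hj
        left
        refine ⟨q', hq', ?_⟩
        have : primeCol A q' = j := hq'
        show A q (primeCol A q') = true
        rw [this]; exact h2
      · right
        refine ⟨hj, ?_⟩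
        show (!(A q j)) = false
        rw [h2]; rfl

lemma regCount_le_code (n : ℕ) : regCount n ≤ Nat.card (Code n) := by
  unfold regCount
  refine Nat.card_le_card_of_injective (fun A => encode A.1) ?_
  intro A A' h
  apply Subtype.ext
  have : decode (encode A.1) = decode (encode A'.1) := by
    rw [show encode A.1 = encode A'.1 from h]
  rwa [decode_encode A.2, decode_encode A'.2] at this

theorem regCount_le (B : ℕ → ℕ → ℝ)
    (hB : ∀ (V Z : Type) [Fintype V] [Fintype Z],
      (Nat.card (Cfg V Z) : ℝ) ≤ B (Fintype.card V) (Fintype.card Z)) (n : ℕ) :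
    (regCount n : ℝ) ≤ ∑ k ∈ range (n + 1),
      (n.choose k : ℝ) ^ 2 * k.factorial * B k (2 * (n - k)) := by
  classical
  have h1 : (regCount n : ℝ) ≤ (Nat.card (Code n) : ℝ) := by exact_mod_cast regCount_le_code n
  refine h1.trans ?_
  rw [Nat.card_sigma]
  push_cast
  have h2 : ∀ Q : Finset (Fin n), (Nat.card (Σ p : (Q ↪ Fin n),
      Cfg Q ({i : Fin n // i ∉ Q} ⊕ {j // j ∉ Set.range p})) : ℝ) ≤
      (n.choose Q.card : ℝ) * (Q.card).factorial * B Q.card (2 * (n - Q.card)) := by
    intro Q
    rw [Nat.card_sigma]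
    push_cast
    have h3 : ∀ p : (Q ↪ Fin n), (Nat.card (Cfg Q ({i : Fin n // i ∉ Q} ⊕
        {j // j ∉ Set.range p})) : ℝ) ≤ B Q.card (2 * (n - Q.card)) := by
      intro p
      refine (hB Q ({i : Fin n // i ∉ Q} ⊕ {j // j ∉ Set.range p})).trans (le_of_eq ?_)
      rw [Fintype.card_sum]
      have c1 : Fintype.card {i : Fin n // i ∉ Q} = n - Q.card := by
        rw [Fintype.card_subtype_compl]; simp
      have c2 : Fintype.card {j // j ∉ Set.range p} = n - Q.card := by
        rw [Fintype.card_subtype_compl]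
        simp only [Fintype.card_fin]
        congr 1
        have : Fintype.card {x // x ∈ Set.range p} = Fintype.card Q :=
          Fintype.card_congr (Equiv.ofInjective p p.injective).symm
        rw [this]; simp
      rw [c1, c2]
      simp [two_mul]
    calc _ ≤ ∑ p : (Q ↪ Fin n), B Q.card (2 * (n - Q.card)) := Finset.sum_le_sum fun p _ => h3 p
      _ = _ := by
        rw [Finset.sum_const, Finset.card_univ, Fintype.card_embedding_eq]
        simp only [Fintype.card_fin, Fintype.card_coe, nsmul_eq_mul]
        rw [Nat.descFactorial_eq_factorial_mul_choose]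
        push_cast
        ring
  refine (Finset.sum_le_sum fun Q _ => h2 Q).trans (le_of_eq ?_)
  have h4 := Finset.sum_powerset_apply_card
    (f := fun k => (n.choose k : ℝ) * k.factorial * B k (2 * (n - k)))
    (x := (Finset.univ : Finset (Fin n)))
  rw [Finset.powerset_univ] at h4
  rw [h4]
  simp only [Finset.card_univ, Fintype.card_fin, nsmul_eq_mul]
  refine Finset.sum_congr rfl fun k _ => ?_
  ring

end Pool.Agent.MP72200a
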