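import Pool.Agent.MP72200a.Count

/-!
# Estimates for the bound
-/

namespace Pool.Agent.MP72200a

open Finset Real

lemma bigW_mono {k n : ℕ} (h : k ≤ n) : bigW k ≤ bigW n := by
  unfold bigW
  have h1 : (k : ℝ) ≤ n := by exact_mod_cast h
  have h2 : (k : ℝ) ^ 2 + 1 ≤ (n : ℝ) ^ 2 + 1 := by
    have : (k : ℝ) ^ 2 ≤ (n : ℝ) ^ 2 := pow_le_pow_left₀ (by positivity) h1 2
    linarith
  have h3 : 2 * (Nat.sqrt k + 1) ≤ 2 * (Nat.sqrt n + 1) := by
    have := Nat.sqrt_le_sqrt h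
    omega
  have h4 : (k : ℝ) ^ 5 ≤ (n : ℝ) ^ 5 := pow_le_pow_left₀ (by positivity) h1 5
  calc 404 * (k : ℝ) ^ 5 * ((k : ℝ) ^ 2 + 1) ^ (2 * (Nat.sqrt k + 1))
      ≤ 404 * (n : ℝ) ^ 5 * ((n : ℝ) ^ 2 + 1) ^ (2 * (Nat.sqrt k + 1)) := by
        apply mul_le_mul _ _ (by positivity) (by positivity)
        · linarith
        · exact pow_le_pow_left₀ (by positivity) h2 _
    _ ≤ _ := by
        apply mul_le_mul_of_nonneg_left _ (by positivity)
        exact pow_le_pow_right₀ (by nlinarith [sq_nonneg (n : ℝ)]) h3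

/-- The subexponential error factor. -/
noncomputable def En (n : ℕ) : ℝ := 2 ^ 13 * (n : ℝ) ^ 6 * bigW n ^ 3

/-- The term of the bound indexed by `τ`. -/
noncomputable def Xt (k s τ : ℕ) : ℝ :=
  4 * (k : ℝ) ^ 3 * ((k : ℝ) * bigW k) ^ 3 * 2 ^ 11 * (5 / 8) ^ s * 2 ^ (k - 3 * τ) *
    (11 : ℝ) ^ ((9 / 10 : ℝ) * τ)

lemma Xt_nonneg (k s τ : ℕ) : 0 ≤ Xt k s τ := by
  have := bigW_nonneg k
  unfold Xt
  positivity

lemma term_eq (k s τ μ : ℕ) :
    (4 * (k : ℝ) ^ 3) ^ τ * (((k : ℝ) ^ 2) ^ μ * bnd0 k s τ μ) =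
      2 ^ (k * s) * Xt k s τ ^ τ * ((k : ℝ) ^ 2 * (3 / 4) ^ s) ^ μ := by
  unfold bnd0 Xt
  have h11 : (11 : ℝ) ^ (((3 * τ : ℕ) : ℝ) ^ 2 / 10) = ((11 : ℝ) ^ ((9 / 10 : ℝ) * τ)) ^ τ := by
    rw [← Real.rpow_natCast ((11 : ℝ) ^ ((9 / 10 : ℝ) * τ)) τ, ← Real.rpow_mul (by norm_num)]
    congr 1
    push_cast
    ring
  rw [h11]
  simp only [mul_pow, ← pow_mul]
  ring

lemma bndB_eq (k s : ℕ) : bndB k s = 2 ^ (k * s) * (∑ τ ∈ range (k / 3 + 1), Xt k s τ ^ τ) *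
    ∑ μ ∈ range (k + 1), ((k : ℝ) ^ 2 * (3 / 4) ^ s) ^ μ := by
  unfold bndB
  rw [mul_assoc, Finset.sum_mul_sum, Finset.mul_sum]
  refine Finset.sum_congr rfl fun τ _ => ?_
  rw [Finset.mul_sum]
  refine Finset.sum_congr rfl fun μ _ => ?_
  rw [term_eq k s τ μ]
  ring

lemma log11_le : Real.log 11 ≤ 128 / 37 * Real.log 2 := by
  have h : (37 : ℝ) * Real.log 11 ≤ 128 * Real.log 2 := by
    have e1 : (37 : ℝ) * Real.log 11 = Real.log (11 ^ 37) := by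
      rw [Real.log_pow]; norm_num
    have e2 : (128 : ℝ) * Real.log 2 = Real.log (2 ^ 128) := by
      rw [Real.log_pow]; norm_num
    rw [e1, e2]
    apply Real.log_le_log (by norm_num) (by norm_num)
  linarith

lemma log5_le : Real.log 5 ≤ 137 / 59 * Real.log 2 := by
  have h : (59 : ℝ) * Real.log 5 ≤ 137 * Real.log 2 := by
    have e1 : (59 : ℝ) * Real.log 5 = Real.log (5 ^ 59) := by
      rw [Real.log_pow]; norm_num
    have e2 : (137 : ℝ) * Real.log 2 = Real.log (2 ^ 137) := by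
      rw [Real.log_pow]; norm_num
    rw [e1, e2]
    apply Real.log_le_log (by norm_num) (by norm_num)
  linarith

lemma En_pos {n : ℕ} (hn : 1 ≤ n) : 1 ≤ En n := by
  have h1 : (1 : ℝ) ≤ n := by exact_mod_cast hn
  have hW : 1 ≤ bigW n := by
    unfold bigW
    have a1 : (1 : ℝ) ≤ (n : ℝ) ^ 5 := one_le_pow₀ h1
    have a2 : (1 : ℝ) ≤ ((n : ℝ) ^ 2 + 1) ^ (2 * (Nat.sqrt n + 1)) :=
      one_le_pow₀ (by nlinarith)
    nlinarith
  have a1 : (1 : ℝ) ≤ (n : ℝ) ^ 6 := one_le_pow₀ h1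
  have a2 : (1 : ℝ) ≤ bigW n ^ 3 := one_le_pow₀ hW
  unfold En
  nlinarith

lemma Xt_le {n k τ : ℕ} (hn : 1 ≤ n) (hk : k ≤ n) (hτ : 3 * τ ≤ k) (s : ℕ) :
    Xt k s τ ≤ Real.exp (Real.log (En n) +
      Real.log 2 * ((k : ℝ) + 21 / 185 * τ - 40 / 59 * s)) := by
  have hE := En_pos hn
  have hEpos : 0 < En n := by linarith
  have h1 : 4 * (k : ℝ) ^ 3 * ((k : ℝ) * bigW k) ^ 3 * 2 ^ 11 ≤ En n := by
    have hk' : (k : ℝ) ≤ n := by exact_mod_cast hk
    have a1 : (k : ℝ) ^ 6 ≤ (n : ℝ) ^ 6 := pow_le_pow_left₀ (by positivity) hk' 6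
    have a2 : bigW k ^ 3 ≤ bigW n ^ 3 := pow_le_pow_left₀ (bigW_nonneg k) (bigW_mono hk) 3
    have a3 : 0 ≤ bigW k ^ 3 := pow_nonneg (bigW_nonneg k) 3
    unfold En
    calc 4 * (k : ℝ) ^ 3 * ((k : ℝ) * bigW k) ^ 3 * 2 ^ 11
        = 2 ^ 13 * ((k : ℝ) ^ 6 * bigW k ^ 3) := by ring
      _ ≤ 2 ^ 13 * ((n : ℝ) ^ 6 * bigW n ^ 3) := by
          apply mul_le_mul_of_nonneg_left _ (by norm_num)
          exact mul_le_mul a1 a2 a3 (by positivity)
      _ = _ := by ring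
  have h2 : ((5 : ℝ) / 8) ^ s ≤ Real.exp (-(Real.log 2 * (40 / 59 * s))) := by
    rw [← Real.rpow_natCast, Real.rpow_def_of_pos (by norm_num)]
    apply Real.exp_le_exp.mpr
    have : Real.log (5 / 8) ≤ -(40 / 59 * Real.log 2) := by
      rw [Real.log_div (by norm_num) (by norm_num)]
      have h8 : Real.log 8 = 3 * Real.log 2 := by
        rw [show (8 : ℝ) = 2 ^ 3 by norm_num, Real.log_pow]; norm_num
      rw [h8]
      have := log5_le
      linarith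
    have hs : (0 : ℝ) ≤ s := by positivity
    nlinarith
  have h3 : (2 : ℝ) ^ (k - 3 * τ) * (11 : ℝ) ^ ((9 / 10 : ℝ) * τ) ≤
      Real.exp (Real.log 2 * ((k : ℝ) + 21 / 185 * τ)) := by
    rw [← Real.rpow_natCast, Real.rpow_def_of_pos (by norm_num : (0 : ℝ) < 2),
      Real.rpow_def_of_pos (by norm_num : (0 : ℝ) < 11), ← Real.exp_add]
    apply Real.exp_le_exp.mpr
    rw [Nat.cast_sub hτ]
    push_cast
    have := log11_le
    have hτ0 : (0 : ℝ) ≤ τ := by positivity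
    nlinarith
  unfold Xt
  calc 4 * (k : ℝ) ^ 3 * ((k : ℝ) * bigW k) ^ 3 * 2 ^ 11 * (5 / 8) ^ s * 2 ^ (k - 3 * τ) *
      (11 : ℝ) ^ ((9 / 10 : ℝ) * τ)
      = (4 * (k : ℝ) ^ 3 * ((k : ℝ) * bigW k) ^ 3 * 2 ^ 11) * (5 / 8) ^ s *
        (2 ^ (k - 3 * τ) * (11 : ℝ) ^ ((9 / 10 : ℝ) * τ)) := by ring
    _ ≤ En n * Real.exp (-(Real.log 2 * (40 / 59 * s))) *
        Real.exp (Real.log 2 * ((k : ℝ) + 21 / 185 * τ)) := by
        have hb := bigW_nonneg k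
        apply mul_le_mul _ h3 (by positivity) (by positivity)
        exact mul_le_mul h1 h2 (by positivity) (by positivity)
    _ = _ := by
        nth_rw 1 [← Real.exp_log hEpos]
        rw [← Real.exp_add, ← Real.exp_add]
        congr 1
        ring

/-- Near the peak. -/
lemma Xt_near {n k τ : ℕ} (hn : 1 ≤ n) (hk : 9 * k ≤ 5 * n) (hτ : 3 * τ ≤ k) :
    Xt k (2 * (n - k)) τ ≤ Real.exp (Real.log (En n) - 13 / 500 * Real.log 2 * n) := by
  have hkn : k ≤ n := by omega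
  refine (Xt_le hn hkn hτ _).trans (Real.exp_le_exp.mpr ?_)
  have hs : ((2 * (n - k) : ℕ) : ℝ) = 2 * ((n : ℝ) - k) := by
    rw [Nat.cast_mul, Nat.cast_sub hkn]; norm_num
  rw [hs]
  have h1 : (9 : ℝ) * k ≤ 5 * n := by exact_mod_cast hk
  have h2 : (3 : ℝ) * τ ≤ k := by exact_mod_cast hτ
  have h3 : (0 : ℝ) < Real.log 2 := Real.log_pos (by norm_num)
  have h4 : (k : ℝ) + 21 / 185 * τ - 40 / 59 * (2 * ((n : ℝ) - k)) ≤ -(13 / 500 * n) := by
    linarith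
  nlinarith

lemma geom_bound {x q : ℝ} (m : ℕ) (f : ℕ → ℝ) (hf0 : ∀ i ∈ range m, 0 ≤ f i)
    (hf : ∀ i ∈ range m, f i ≤ q) (hq : q ≤ 1 / 2) (hq0 : 0 ≤ q) (hx : x = q) :
    ∑ i ∈ range m, f i ^ i ≤ 1 + 2 * x := by
  subst hx
  have h1 : ∑ i ∈ range m, f i ^ i ≤ ∑ i ∈ range m, x ^ i :=
    Finset.sum_le_sum fun i hi => pow_le_pow_left₀ (hf0 i hi) (hf i hi) i
  have h2 : ∑ i ∈ range m, x ^ i ≤ 1 / (1 - x) := by
    have hx1 : x ≠ 1 := by intro h; rw [h] at hq; norm_num at hq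
    rw [geom_sum_eq hx1]
    rw [← neg_div_neg_eq, neg_sub, neg_sub]
    apply div_le_div_of_nonneg_right _ (by linarith)
    have := pow_nonneg hq0 m
    linarith
  refine h1.trans (h2.trans ?_)
  rw [div_le_iff₀ (by linarith)]
  nlinarith

lemma bndB_near {n k : ℕ} (hn : 1 ≤ n) (hk : 9 * k ≤ 5 * n)
    (hq : Real.exp (Real.log (En n) - 13 / 500 * Real.log 2 * n) ≤ 1 / 2)
    (hy : (n : ℝ) ^ 2 * Real.exp (-(n / 5)) ≤ 1 / 2) :
    bndB k (2 * (n - k)) ≤ 4 ^ (k * (n - k)) *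
      ((1 + 2 * Real.exp (Real.log (En n) - 13 / 500 * Real.log 2 * n)) *
       (1 + 2 * ((n : ℝ) ^ 2 * Real.exp (-(n / 5))))) := by
  have hkn : k ≤ n := by omega
  rw [bndB_eq]
  have e4 : (2 : ℝ) ^ (k * (2 * (n - k))) = 4 ^ (k * (n - k)) := by
    rw [show k * (2 * (n - k)) = 2 * (k * (n - k)) by ring, pow_mul]; norm_num
  rw [e4, mul_assoc]
  apply mul_le_mul_of_nonneg_left _ (by positivity)
  have hyk : (k : ℝ) ^ 2 * (3 / 4) ^ (2 * (n - k)) ≤ (n : ℝ) ^ 2 * Real.exp (-(n / 5)) := by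
    have a1 : (k : ℝ) ^ 2 ≤ (n : ℝ) ^ 2 :=
      pow_le_pow_left₀ (by positivity) (by exact_mod_cast hkn) 2
    have a2 : (3 / 4 : ℝ) ^ (2 * (n - k)) ≤ Real.exp (-(n / 5)) := by
      have b1 : (3 / 4 : ℝ) ≤ Real.exp (-(1 / 4)) := by
        have := Real.add_one_le_exp (-(1 / 4) : ℝ)
        linarith
      calc (3 / 4 : ℝ) ^ (2 * (n - k)) ≤ (Real.exp (-(1 / 4))) ^ (2 * (n - k)) :=
            pow_le_pow_left₀ (by norm_num) b1 _
        _ = Real.exp (((2 * (n - k) : ℕ) : ℝ) * (-(1 / 4))) := by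
            rw [← Real.exp_nat_mul]
        _ ≤ Real.exp (-(n / 5)) := by
            apply Real.exp_le_exp.mpr
            rw [Nat.cast_mul, Nat.cast_sub hkn]
            have h1 : (9 : ℝ) * k ≤ 5 * n := by exact_mod_cast hk
            push_cast
            linarith
    exact mul_le_mul a1 a2 (by positivity) (by positivity)
  apply mul_le_mul
  · apply geom_bound (q := Real.exp (Real.log (En n) - 13 / 500 * Real.log 2 * n))
    · intro i _; exact Xt_nonneg _ _ _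
    · intro i hi
      rw [mem_range] at hi
      exact Xt_near hn hk (by omega)
    · exact hq
    · positivity
    · rfl
  · apply geom_bound (q := (n : ℝ) ^ 2 * Real.exp (-(n / 5)))
    · intro i _; positivity
    · intro i _; exact hyk
    · exact hy
    · positivity
    · rfl
  · apply Finset.sum_nonneg
    intro i _
    positivity
  · positivity

lemma quad_bound {n k τ L : ℝ} (hn : 0 ≤ n) (hk : 5 * n ≤ 9 * k) (hkn : k ≤ n)
    (hτ0 : 0 ≤ τ) (hτ : 3 * τ ≤ k) (hL : 0 ≤ L) :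
    Real.log 2 * (k * (2 * (n - k))) +
      τ * (L + Real.log 2 * (k + 21 / 185 * τ - 40 / 59 * (2 * (n - k)))) ≤
      n * L + Real.log 2 * (997 / 2000 * n ^ 2) := by
  have ha : (0 : ℝ) < Real.log 2 := Real.log_pos (by norm_num)
  have h1 : τ * L ≤ n * L := by
    apply mul_le_mul_of_nonneg_right _ hL
    linarith
  have h2 : k * (2 * (n - k)) + τ * (k + 21 / 185 * τ - 40 / 59 * (2 * (n - k))) ≤
      997 / 2000 * n ^ 2 := by
    have h3 : τ * (k + 21 / 185 * τ - 40 / 59 * (2 * (n - k))) ≤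
        τ * (k + 7 / 185 * k - 80 / 59 * (n - k)) := by
      apply mul_le_mul_of_nonneg_left _ hτ0
      linarith
    rcases le_or_gt (k + 7 / 185 * k - 80 / 59 * (n - k)) 0 with h | h
    · have h4 : τ * (k + 7 / 185 * k - 80 / 59 * (n - k)) ≤ 0 :=
        mul_nonpos_of_nonneg_of_nonpos hτ0 h
      have h5 : k * (2 * (n - k)) ≤ 40 / 81 * n ^ 2 := by nlinarith
      nlinarith [sq_nonneg n]
    · have h4 : τ * (k + 7 / 185 * k - 80 / 59 * (n - k)) ≤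
          k / 3 * (k + 7 / 185 * k - 80 / 59 * (n - k)) := by
        apply mul_le_mul_of_nonneg_right _ h.le
        linarith
      have h5 : k * (2 * (n - k)) + k / 3 * (k + 7 / 185 * k - 80 / 59 * (n - k)) ≤
          997 / 2000 * n ^ 2 := by
        nlinarith [sq_nonneg (k - 6439 / 10000 * n), sq_nonneg n, sq_nonneg k]
      linarith
  nlinarith

end Pool.Agent.MP72200a
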