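import Pool.Agent.MP72200a.Estimates

/-!
# The error factor is subexponential
-/

namespace Pool.Agent.MP72200a

open Finset Real Filter Topology

lemma log_En_le {n : ℕ} (hn : 1 ≤ n) : Real.log (En n) ≤ 600 * (n : ℝ) ^ (5 / 8 : ℝ) := by
  have h1 : (1 : ℝ) ≤ n := by exact_mod_cast hn
  have hpos : (0 : ℝ) < n := by linarith
  have hx : (1 : ℝ) ≤ (n : ℝ) ^ (5 / 8 : ℝ) := Real.one_le_rpow h1 (by norm_num)
  set X := (n : ℝ) ^ (5 / 8 : ℝ) with hX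
  have hW : 0 < bigW n := by
    unfold bigW; positivity
  have e1 : Real.log (En n) = 13 * Real.log 2 + 6 * Real.log n + 3 * Real.log (bigW n) := by
    unfold En
    rw [Real.log_mul (by positivity) (by positivity), Real.log_mul (by positivity) (by positivity),
      Real.log_pow, Real.log_pow, Real.log_pow]
    push_cast
    ring
  have e2 : Real.log (bigW n) = Real.log 404 + 5 * Real.log n +
      2 * (Nat.sqrt n + 1) * Real.log ((n : ℝ) ^ 2 + 1) := by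
    unfold bigW
    rw [Real.log_mul (by positivity) (by positivity), Real.log_mul (by positivity) (by positivity),
      Real.log_pow, Real.log_pow]
    push_cast
    ring
  have hl2 : Real.log 2 ≤ 1 := by
    have := Real.log_two_lt_d9
    linarith
  have hl404 : Real.log 404 ≤ 9 := by
    have : Real.log 404 ≤ Real.log (2 ^ 9) := Real.log_le_log (by norm_num) (by norm_num)
    rw [Real.log_pow] at this
    push_cast at this
    linarith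
  have hlogn : Real.log n ≤ 8 * X := by
    have h := Real.log_le_rpow_div (x := (n : ℝ)) hpos.le (ε := 1 / 8) (by norm_num)
    have h2 : (n : ℝ) ^ (1 / 8 : ℝ) ≤ X := Real.rpow_le_rpow_of_exponent_le h1 (by norm_num)
    calc Real.log n ≤ (n : ℝ) ^ (1 / 8 : ℝ) / (1 / 8) := h
      _ = 8 * (n : ℝ) ^ (1 / 8 : ℝ) := by ring
      _ ≤ 8 * X := by linarith
  have hlog1 : Real.log ((n : ℝ) ^ 2 + 1) ≤ 32 * (n : ℝ) ^ (1 / 8 : ℝ) := by
    have h2 : (n : ℝ) ^ 2 + 1 ≤ (2 * n) ^ 2 := by nlinarith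
    have h3 : Real.log ((n : ℝ) ^ 2 + 1) ≤ 2 * Real.log (2 * n) := by
      have := Real.log_le_log (by positivity) h2
      rw [Real.log_pow] at this
      exact_mod_cast this
    have h4 := Real.log_le_rpow_div (x := 2 * (n : ℝ)) (by positivity) (ε := 1 / 8) (by norm_num)
    have h5 : (2 * (n : ℝ)) ^ (1 / 8 : ℝ) ≤ 2 * (n : ℝ) ^ (1 / 8 : ℝ) := by
      rw [Real.mul_rpow (by norm_num) hpos.le]
      apply mul_le_mul_of_nonneg_right _ (by positivity)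
      calc (2 : ℝ) ^ (1 / 8 : ℝ) ≤ (2 : ℝ) ^ (1 : ℝ) :=
            Real.rpow_le_rpow_of_exponent_le (by norm_num) (by norm_num)
        _ = 2 := by norm_num
    calc Real.log ((n : ℝ) ^ 2 + 1) ≤ 2 * Real.log (2 * n) := h3
      _ ≤ 2 * ((2 * (n : ℝ)) ^ (1 / 8 : ℝ) / (1 / 8)) := by linarith
      _ = 16 * (2 * (n : ℝ)) ^ (1 / 8 : ℝ) := by ring
      _ ≤ 16 * (2 * (n : ℝ) ^ (1 / 8 : ℝ)) := by linarith
      _ = _ := by ring
  have hsq : ((Nat.sqrt n : ℕ) : ℝ) + 1 ≤ 2 * (n : ℝ) ^ (1 / 2 : ℝ) := by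
    have h2 : ((Nat.sqrt n : ℕ) : ℝ) ≤ (n : ℝ) ^ (1 / 2 : ℝ) := by
      rw [← Real.sqrt_eq_rpow]
      apply Real.le_sqrt_of_sq_le
      exact_mod_cast Nat.sqrt_le' n
    have h3 : (1 : ℝ) ≤ (n : ℝ) ^ (1 / 2 : ℝ) := Real.one_le_rpow h1 (by norm_num)
    linarith
  have hprod : ((Nat.sqrt n : ℕ) + 1 : ℝ) * Real.log ((n : ℝ) ^ 2 + 1) ≤ 64 * X := by
    have h0 : 0 ≤ Real.log ((n : ℝ) ^ 2 + 1) := Real.log_nonneg (by nlinarith)
    calc ((Nat.sqrt n : ℕ) + 1 : ℝ) * Real.log ((n : ℝ) ^ 2 + 1)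
        ≤ (2 * (n : ℝ) ^ (1 / 2 : ℝ)) * (32 * (n : ℝ) ^ (1 / 8 : ℝ)) :=
          mul_le_mul hsq hlog1 h0 (by positivity)
      _ = 64 * ((n : ℝ) ^ (1 / 2 : ℝ) * (n : ℝ) ^ (1 / 8 : ℝ)) := by ring
      _ = 64 * X := by
          rw [← Real.rpow_add hpos, hX]
          norm_num
  rw [e1, e2]
  nlinarith

lemma eventually_log_En (ε : ℝ) (hε : 0 < ε) : ∀ᶠ n : ℕ in atTop, Real.log (En n) ≤ ε * n := by
  have h : Tendsto (fun n : ℕ => (n : ℝ) ^ (3 / 8 : ℝ)) atTop atTop :=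
    (tendsto_rpow_atTop (by norm_num)).comp tendsto_natCast_atTop_atTop
  filter_upwards [h.eventually_ge_atTop (600 / ε), eventually_ge_atTop 1] with n hn hn1
  have h1 : (1 : ℝ) ≤ n := by exact_mod_cast hn1
  have hpos : (0 : ℝ) < n := by linarith
  refine (log_En_le hn1).trans ?_
  have h2 : (n : ℝ) = (n : ℝ) ^ (3 / 8 : ℝ) * (n : ℝ) ^ (5 / 8 : ℝ) := by
    rw [← Real.rpow_add hpos]; norm_num
  have h3 : 600 ≤ ε * (n : ℝ) ^ (3 / 8 : ℝ) := by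
    rw [div_le_iff₀ hε] at hn
    linarith
  have h4 : 0 ≤ (n : ℝ) ^ (5 / 8 : ℝ) := by positivity
  calc 600 * (n : ℝ) ^ (5 / 8 : ℝ) ≤ (ε * (n : ℝ) ^ (3 / 8 : ℝ)) * (n : ℝ) ^ (5 / 8 : ℝ) :=
        mul_le_mul_of_nonneg_right h3 h4
    _ = ε * ((n : ℝ) ^ (3 / 8 : ℝ) * (n : ℝ) ^ (5 / 8 : ℝ)) := by ring
    _ = ε * n := by rw [← h2]

lemma eventually_log_succ (ε : ℝ) (hε : 0 < ε) :
    ∀ᶠ n : ℕ in atTop, Real.log ((n : ℝ) + 1) ≤ ε * n := by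
  have h : Tendsto (fun n : ℕ => (n : ℝ) ^ (1 / 2 : ℝ)) atTop atTop :=
    (tendsto_rpow_atTop (by norm_num)).comp tendsto_natCast_atTop_atTop
  filter_upwards [h.eventually_ge_atTop (4 / ε), eventually_ge_atTop 1] with n hn hn1
  have h1 : (1 : ℝ) ≤ n := by exact_mod_cast hn1
  have hpos : (0 : ℝ) < n := by linarith
  have h4 := Real.log_le_rpow_div (x := (n : ℝ) + 1) (by positivity) (ε := 1 / 2) (by norm_num)
  have h5 : ((n : ℝ) + 1) ^ (1 / 2 : ℝ) ≤ 2 * (n : ℝ) ^ (1 / 2 : ℝ) := by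
    calc ((n : ℝ) + 1) ^ (1 / 2 : ℝ) ≤ (4 * (n : ℝ)) ^ (1 / 2 : ℝ) :=
          Real.rpow_le_rpow (by positivity) (by linarith) (by norm_num)
      _ = 2 * (n : ℝ) ^ (1 / 2 : ℝ) := by
          rw [Real.mul_rpow (by norm_num) hpos.le]
          congr 1
          rw [← Real.sqrt_eq_rpow, show (4 : ℝ) = 2 ^ 2 by norm_num,
            Real.sqrt_sq (by norm_num)]
  have h2 : (n : ℝ) = (n : ℝ) ^ (1 / 2 : ℝ) * (n : ℝ) ^ (1 / 2 : ℝ) := by
    rw [← Real.rpow_add hpos]; norm_num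
  have h3 : 4 ≤ ε * (n : ℝ) ^ (1 / 2 : ℝ) := by
    rw [div_le_iff₀ hε] at hn
    linarith
  have h6 : 0 ≤ (n : ℝ) ^ (1 / 2 : ℝ) := by positivity
  calc Real.log ((n : ℝ) + 1) ≤ ((n : ℝ) + 1) ^ (1 / 2 : ℝ) / (1 / 2) := h4
    _ ≤ 4 * (n : ℝ) ^ (1 / 2 : ℝ) := by linarith
    _ ≤ (ε * (n : ℝ) ^ (1 / 2 : ℝ)) * (n : ℝ) ^ (1 / 2 : ℝ) := mul_le_mul_of_nonneg_right h3 h6
    _ = ε * ((n : ℝ) ^ (1 / 2 : ℝ) * (n : ℝ) ^ (1 / 2 : ℝ)) := by ring
    _ = ε * n := by rw [← h2]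

lemma tendsto_exp_neg_mul (c : ℝ) (hc : 0 < c) :
    Tendsto (fun n : ℕ => Real.exp (-(c * n))) atTop (𝓝 0) := by
  apply Real.tendsto_exp_neg_atTop_nhds_zero.comp
  exact Tendsto.const_mul_atTop hc tendsto_natCast_atTop_atTop

end Pool.Agent.MP72200a
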