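import Pool.Agent.MP72200a.Encode

/-!
# Lower bound: many regular matrices whose poset is an antichain
-/

namespace Pool.Agent.MP72200a

open Finset

variable {n : ℕ}

/-- Finite sets which are not singletons. -/
abbrev NS (V : Type) : Type := {s : Finset V // s.card ≠ 1}

/-- The type of antichain codes. -/
abbrev ACode (n : ℕ) : Type :=
  Σ Q : Finset (Fin n), Σ p : (Q ↪ Fin n),
    ({i : Fin n // i ∉ Q} → NS Q) × ({j // j ∉ Set.range p} → NS Q)

open Classical in
/-- The set of representatives below row `i`. -/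
noncomputable def rowSet (c : ACode n) (i : Fin n) : Finset c.1 :=
  if h : i ∈ c.1 then {⟨i, h⟩} else (c.2.2.1 ⟨i, h⟩).1

open Classical in
/-- The set of representatives above column `j`. -/
noncomputable def colSet (c : ACode n) (j : Fin n) : Finset c.1 :=
  if h : j ∈ Set.range c.2.1 then {h.choose} else (c.2.2.2 ⟨j, h⟩).1

open Classical in
/-- The matrix of an antichain code. -/
noncomputable def mat (c : ACode n) : BMat n := fun i j =>
  decide (∃ q : c.1, q ∈ rowSet c i ∧ q ∈ colSet c j)

lemma mat_iff (c : ACode n) (i j : Fin n) :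
    mat c i j = true ↔ ∃ q : c.1, q ∈ rowSet c i ∧ q ∈ colSet c j := by
  unfold mat
  rw [decide_eq_true_iff]

lemma rowSet_rep (c : ACode n) (q : c.1) : rowSet c q = {q} := by
  unfold rowSet
  rw [dif_pos q.2]

lemma colSet_rep (c : ACode n) (q : c.1) : colSet c (c.2.1 q) = {q} := by
  unfold colSet
  have h : c.2.1 q ∈ Set.range c.2.1 := ⟨q, rfl⟩
  rw [dif_pos h]
  congr 1
  exact c.2.1.injective h.choose_spec

lemma rowSet_eq_singleton (c : ACode n) (i : Fin n) (q : c.1) :
    rowSet c i = {q} ↔ i = q := by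
  constructor
  · intro h
    by_cases hi : i ∈ c.1
    · have := rowSet_rep c ⟨i, hi⟩
      rw [show ((⟨i, hi⟩ : c.1) : Fin n) = i from rfl, h] at this
      have := Finset.singleton_injective this
      rw [this]
    · exfalso
      unfold rowSet at h
      rw [dif_neg hi] at h
      have := (c.2.2.1 ⟨i, hi⟩).2
      rw [h] at this
      simp at this
  · rintro rfl
    exact rowSet_rep c q

lemma colSet_eq_singleton (c : ACode n) (j : Fin n) (q : c.1) :
    colSet c j = {q} ↔ c.2.1 q = j := by
  constructor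
  · intro h
    by_cases hj : j ∈ Set.range c.2.1
    · obtain ⟨q', rfl⟩ := hj
      rw [colSet_rep] at h
      rw [Finset.singleton_injective h]
    · exfalso
      unfold colSet at h
      rw [dif_neg hj] at h
      have := (c.2.2.2 ⟨j, hj⟩).2
      rw [h] at this
      simp at this
  · rintro rfl
    exact colSet_rep c q

lemma mat_col_rep (c : ACode n) (i : Fin n) (q : c.1) :
    mat c i (c.2.1 q) = true ↔ q ∈ rowSet c i := by
  rw [mat_iff, colSet_rep]
  constructor
  · rintro ⟨q', h1, h2⟩
    rw [mem_singleton] at h2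
    rwa [← h2]
  · intro h
    exact ⟨q, h, mem_singleton_self q⟩

lemma mat_row_rep (c : ACode n) (q : c.1) (j : Fin n) :
    mat c q j = true ↔ q ∈ colSet c j := by
  rw [mat_iff, rowSet_rep]
  constructor
  · rintro ⟨q', h1, h2⟩
    rw [mem_singleton] at h1
    rwa [← h1]
  · intro h
    exact ⟨q, mem_singleton_self q, h⟩

lemma prm_mat_iff (c : ACode n) (i j : Fin n) :
    Prm (mat c) i j ↔ ∃ q : c.1, i = q ∧ c.2.1 q = j := by
  constructor
  · rintro ⟨h1, h2⟩
    obtain ⟨q, hq1, hq2⟩ := (mat_iff c i j).mp h1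
    refine ⟨q, ?_, ?_⟩
    · rw [← rowSet_eq_singleton]
      rw [Finset.eq_singleton_iff_unique_mem]
      refine ⟨hq1, ?_⟩
      intro q' hq'
      have h3 := h2 q ((mat_row_rep c q j).mpr hq2) (c.2.1 q') ((mat_col_rep c i q').mpr hq')
      rw [mat_col_rep, rowSet_rep, mem_singleton] at h3
      exact h3
    · rw [← colSet_eq_singleton]
      rw [Finset.eq_singleton_iff_unique_mem]
      refine ⟨hq2, ?_⟩
      intro q' hq'
      have h3 := h2 q' ((mat_row_rep c q' j).mpr hq') (c.2.1 q) ((mat_col_rep c i q).mpr hq1)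
      rw [mat_col_rep, rowSet_rep, mem_singleton] at h3
      exact h3.symm
  · rintro ⟨q, rfl, rfl⟩
    refine ⟨?_, ?_⟩
    · rw [mat_col_rep, rowSet_rep]; exact mem_singleton_self q
    · intro i hi j hj
      rw [mat_col_rep] at hi
      rw [mat_row_rep] at hj
      exact (mat_iff c i j).mpr ⟨q, hi, hj⟩

lemma isRegular_mat (c : ACode n) : IsRegular (mat c) := by
  apply isRegular_of_cover
  intro i j h
  obtain ⟨q, hq1, hq2⟩ := (mat_iff c i j).mp h
  exact ⟨q, c.2.1 q, (prm_mat_iff c _ _).mpr ⟨q, rfl, rfl⟩, (mat_col_rep c i q).mpr hq1,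
    (mat_row_rep c q j).mpr hq2⟩

lemma mat_injective : Function.Injective (mat : ACode n → BMat n) := by
  intro c c' h
  have hQ : c.1 = c'.1 := by
    ext i
    have e1 : (∃ j, Prm (mat c) i j) ↔ i ∈ c.1 := by
      constructor
      · rintro ⟨j, hj⟩
        obtain ⟨q, rfl, _⟩ := (prm_mat_iff c i j).mp hj
        exact q.2
      · intro hi
        exact ⟨c.2.1 ⟨i, hi⟩, (prm_mat_iff c _ _).mpr ⟨⟨i, hi⟩, rfl, rfl⟩⟩
    have e2 : (∃ j, Prm (mat c') i j) ↔ i ∈ c'.1 := by
      constructor
      · rintro ⟨j, hj⟩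
        obtain ⟨q, rfl, _⟩ := (prm_mat_iff c' i j).mp hj
        exact q.2
      · intro hi
        exact ⟨c'.2.1 ⟨i, hi⟩, (prm_mat_iff c' _ _).mpr ⟨⟨i, hi⟩, rfl, rfl⟩⟩
    rw [← e1, ← e2, h]
  obtain ⟨Q, p, I, F⟩ := c
  obtain ⟨Q', p', I', F'⟩ := c'
  obtain rfl : Q = Q' := hQ
  have hp : p = p' := by
    ext q
    have h1 : Prm (mat ⟨Q, p, I, F⟩) q (p q) := (prm_mat_iff _ _ _).mpr ⟨q, rfl, rfl⟩
    rw [h] at h1
    obtain ⟨q', hq', hpq'⟩ := (prm_mat_iff _ _ _).mp h1
    have : q = q' := Subtype.ext hq'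
    rw [← this] at hpq'
    exact congrArg _ hpq'.symm
  obtain rfl := hp
  have hI : I = I' := by
    funext i
    apply Subtype.ext
    ext q
    have e1 := mat_col_rep ⟨Q, p, I, F⟩ i.1 q
    have e2 := mat_col_rep ⟨Q, p, I', F'⟩ i.1 q
    rw [← h] at e2
    have e3 := e1.symm.trans e2
    have r1 : rowSet (⟨Q, p, I, F⟩ : ACode n) i.1 = (I i).1 := by
      unfold rowSet; rw [dif_neg i.2]
    have r2 : rowSet (⟨Q, p, I', F'⟩ : ACode n) i.1 = (I' i).1 := by
      unfold rowSet; rw [dif_neg i.2]
    rw [r1, r2] at e3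
    exact e3
  have hF : F = F' := by
    funext j
    apply Subtype.ext
    ext q
    have e1 := mat_row_rep ⟨Q, p, I, F⟩ q j.1
    have e2 := mat_row_rep ⟨Q, p, I', F'⟩ q j.1
    rw [← h] at e2
    have e3 := e1.symm.trans e2
    have r1 : colSet (⟨Q, p, I, F⟩ : ACode n) j.1 = (F j).1 := by
      unfold colSet; rw [dif_neg j.2]
    have r2 : colSet (⟨Q, p, I', F'⟩ : ACode n) j.1 = (F' j).1 := by
      unfold colSet; rw [dif_neg j.2]
    rw [r1, r2] at e3
    exact e3
  rw [hI, hF]

lemma card_NS (V : Type) [Fintype V] : Nat.card (NS V) = 2 ^ Fintype.card V - Fintype.card V := by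
  classical
  rw [Nat.card_eq_fintype_card]
  rw [Fintype.card_subtype_compl (fun s : Finset V => s.card = 1)]
  rw [Fintype.card_finset_len, Fintype.card_finset, Nat.choose_one_right]

theorem le_regCount (n : ℕ) :
    ∑ k ∈ range (n + 1), n.choose k ^ 2 * k.factorial * (2 ^ k - k) ^ (2 * (n - k)) ≤
      regCount n := by
  classical
  have h1 : Nat.card (ACode n) ≤ regCount n := by
    unfold regCount
    refine Nat.card_le_card_of_injective (fun c => ⟨mat c, isRegular_mat c⟩) ?_
    intro c c' h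
    exact mat_injective (congrArg Subtype.val h)
  refine le_trans (le_of_eq ?_) h1
  rw [Nat.card_sigma]
  have h2 : ∀ Q : Finset (Fin n), Nat.card (Σ p : (Q ↪ Fin n),
      ({i : Fin n // i ∉ Q} → NS Q) × ({j // j ∉ Set.range p} → NS Q)) =
      n.choose Q.card * (Q.card).factorial * (2 ^ Q.card - Q.card) ^ (2 * (n - Q.card)) := by
    intro Q
    rw [Nat.card_sigma]
    have h3 : ∀ p : (Q ↪ Fin n), Nat.card (({i : Fin n // i ∉ Q} → NS Q) ×
        ({j // j ∉ Set.range p} → NS Q)) = (2 ^ Q.card - Q.card) ^ (2 * (n - Q.card)) := by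
      intro p
      have c1 : Nat.card {i : Fin n // i ∉ Q} = n - Q.card := by
        rw [Nat.card_eq_fintype_card, Fintype.card_subtype_compl]; simp
      have c2 : Nat.card {j // j ∉ Set.range p} = n - Q.card := by
        rw [Nat.card_eq_fintype_card, Fintype.card_subtype_compl]
        simp only [Fintype.card_fin]
        congr 1
        have : Fintype.card {x // x ∈ Set.range p} = Fintype.card Q :=
          Fintype.card_congr (Equiv.ofInjective p p.injective).symm
        rw [this]; simp
      rw [Nat.card_prod, Nat.card_fun, Nat.card_fun, c1, c2, card_NS, Fintype.card_coe, two_mul,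
        pow_add]
    rw [Finset.sum_congr rfl fun p _ => h3 p]
    rw [Finset.sum_const, Finset.card_univ, Fintype.card_embedding_eq]
    simp only [Fintype.card_fin, Fintype.card_coe, smul_eq_mul]
    rw [Nat.descFactorial_eq_factorial_mul_choose]
    ring
  rw [Finset.sum_congr rfl fun Q _ => h2 Q]
  have h4 := Finset.sum_powerset_apply_card
    (f := fun k => n.choose k * k.factorial * (2 ^ k - k) ^ (2 * (n - k)))
    (x := (Finset.univ : Finset (Fin n)))
  rw [Finset.powerset_univ] at h4
  rw [h4]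
  simp only [Finset.card_univ, Fintype.card_fin, smul_eq_mul]
  refine Finset.sum_congr rfl fun k _ => ?_
  ring

end Pool.Agent.MP72200a
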