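import Pool.Agent.MP72200a.Encode
import Pool.Agent.MP72200a.Lower
import Pool.Agent.MP72200a.Logs

/-!
# The asymptotic number of regular Boolean matrices
-/

namespace Pool.Agent.MP72200a

open Finset Real Filter Topology

/-- The `k`-th term of the asymptotic form. -/
noncomputable def Tk (n k : ℕ) : ℝ := (n.choose k : ℝ) ^ 2 * k.factorial * 4 ^ (k * (n - k))

lemma Tk_nonneg (n k : ℕ) : 0 ≤ Tk n k := by unfold Tk; positivity

lemma asymp_eq (n : ℕ) : (asymp n : ℝ) = ∑ k ∈ range (n + 1), Tk n k := by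
  unfold asymp Tk
  push_cast
  rfl

lemma asymp_lower (n : ℕ) : Real.exp (Real.log 2 * (((n : ℝ) ^ 2 - 1) / 2)) ≤ (asymp n : ℝ) := by
  have ha : (0 : ℝ) < Real.log 2 := Real.log_pos (by norm_num)
  have h1 : Tk n (n / 2) ≤ (asymp n : ℝ) := by
    rw [asymp_eq]
    exact Finset.single_le_sum (f := Tk n) (fun k _ => Tk_nonneg n k)
      (by rw [mem_range]; omega)
  refine le_trans ?_ h1
  unfold Tk
  have hc : (1 : ℝ) ≤ (n.choose (n / 2) : ℝ) := by
    exact_mod_cast Nat.choose_pos (Nat.div_le_self n 2)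
  have hf : (1 : ℝ) ≤ ((n / 2).factorial : ℝ) := by
    exact_mod_cast Nat.factorial_pos _
  have h2 : (1 : ℝ) ≤ (n.choose (n / 2) : ℝ) ^ 2 * (n / 2).factorial := by
    have := one_le_pow₀ hc (n := 2)
    nlinarith
  have h3 : Real.exp (Real.log 2 * (((n : ℝ) ^ 2 - 1) / 2)) ≤ 4 ^ (n / 2 * (n - n / 2)) := by
    have e : (4 : ℝ) ^ (n / 2 * (n - n / 2)) =
        Real.exp (Real.log 2 * (2 * ((n / 2 * (n - n / 2) : ℕ) : ℝ))) := by
      rw [show (4 : ℝ) = 2 ^ 2 by norm_num, ← pow_mul, ← Real.rpow_natCast,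
        Real.rpow_def_of_pos (by norm_num)]
      push_cast
      ring_nf
    rw [e]
    apply Real.exp_le_exp.mpr
    apply mul_le_mul_of_nonneg_left _ ha.le
    have h4 : n ^ 2 ≤ 4 * (n / 2 * (n - n / 2)) + 1 := by
      rcases Nat.even_or_odd' n with ⟨m, rfl | rfl⟩
      · rw [show 2 * m / 2 = m by omega, show 2 * m - m = m by omega]
        nlinarith
      · rw [show (2 * m + 1) / 2 = m by omega, show 2 * m + 1 - m = m + 1 by omega]
        nlinarith
    have h5 : ((n : ℝ)) ^ 2 ≤ 4 * ((n / 2 * (n - n / 2) : ℕ) : ℝ) + 1 := by exact_mod_cast h4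
    linarith
  calc Real.exp (Real.log 2 * (((n : ℝ) ^ 2 - 1) / 2)) ≤ 4 ^ (n / 2 * (n - n / 2)) := h3
    _ = 1 * 4 ^ (n / 2 * (n - n / 2)) := (one_mul _).symm
    _ ≤ _ := mul_le_mul_of_nonneg_right h2 (by positivity)

lemma asymp_pos (n : ℕ) : 0 < (asymp n : ℝ) := lt_of_lt_of_le (Real.exp_pos _) (asymp_lower n)

/-- The crude bound for the combinatorial prefactor. -/
lemma pref_le {n k : ℕ} (hk : k ≤ n) :
    (n.choose k : ℝ) ^ 2 * k.factorial ≤
      Real.exp (2 * n * Real.log 2 + n * Real.log ((n : ℝ) + 1)) := by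
  have hn1 : (0 : ℝ) < (n : ℝ) + 1 := by positivity
  have h1 : (n.choose k : ℝ) ≤ 2 ^ n := by
    have : n.choose k ≤ 2 ^ n := by
      rw [← Nat.sum_range_choose n]
      exact Finset.single_le_sum (f := fun m => n.choose m) (fun _ _ => Nat.zero_le _)
        (by rw [mem_range]; omega)
    exact_mod_cast this
  have h2 : (k.factorial : ℝ) ≤ ((n : ℝ) + 1) ^ n := by
    have h3 : k.factorial ≤ (n + 1) ^ n := by
      calc k.factorial ≤ n.factorial := Nat.factorial_le hk
        _ ≤ n ^ n := Nat.factorial_le_pow n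
        _ ≤ (n + 1) ^ n := Nat.pow_le_pow_left (by omega) n
    exact_mod_cast h3
  have e1 : Real.exp (2 * n * Real.log 2 + n * Real.log ((n : ℝ) + 1)) =
      (2 ^ n) ^ 2 * ((n : ℝ) + 1) ^ n := by
    rw [Real.exp_add]
    congr 1
    · rw [← pow_mul, ← Real.rpow_natCast, Real.rpow_def_of_pos (by norm_num)]
      push_cast
      ring_nf
    · rw [← Real.rpow_natCast, Real.rpow_def_of_pos hn1]
      ring_nf
  rw [e1]
  apply mul_le_mul _ h2 (by positivity) (by positivity)
  exact pow_le_pow_left₀ (by positivity) h1 2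

/-- The terms with `9k ≥ 5n` of the upper bound. -/
lemma bndB_far {n k : ℕ} (hn : 1 ≤ n) (hk : 5 * n ≤ 9 * k) (hkn : k ≤ n) :
    bndB k (2 * (n - k)) ≤ Real.exp (2 * Real.log ((n : ℝ) + 1) +
      2 * n * Real.log ((n : ℝ) + 1) + (n * Real.log (En n) +
        Real.log 2 * (997 / 2000 * (n : ℝ) ^ 2))) := by
  have hn1 : (0 : ℝ) < (n : ℝ) + 1 := by positivity
  have hL : 0 ≤ Real.log (En n) := Real.log_nonneg (En_pos hn)
  rw [bndB_eq]
  set S := Real.exp (n * Real.log (En n) + Real.log 2 * (997 / 2000 * (n : ℝ) ^ 2)) with hS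
  have hs : ((2 * (n - k) : ℕ) : ℝ) = 2 * ((n : ℝ) - k) := by
    rw [Nat.cast_mul, Nat.cast_sub hkn]; norm_num
  have h1 : ∀ τ ∈ range (k / 3 + 1),
      (2 : ℝ) ^ (k * (2 * (n - k))) * Xt k (2 * (n - k)) τ ^ τ ≤ S := by
    intro τ hτ
    rw [mem_range] at hτ
    have hτ3 : 3 * τ ≤ k := by omega
    have h2 : Xt k (2 * (n - k)) τ ^ τ ≤ Real.exp (τ * (Real.log (En n) +
      Real.log 2 * ((k : ℝ) + 21 / 185 * τ - 40 / 59 * (2 * ((n : ℝ) - k))))) := by
      rw [Real.exp_nat_mul]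
      apply pow_le_pow_left₀ (Xt_nonneg _ _ _)
      have := Xt_le hn hkn hτ3 (2 * (n - k))
      rwa [hs] at this
    have h3 : (2 : ℝ) ^ (k * (2 * (n - k))) =
        Real.exp (Real.log 2 * ((k : ℝ) * (2 * ((n : ℝ) - k)))) := by
      rw [← Real.rpow_natCast, Real.rpow_def_of_pos (by norm_num), Nat.cast_mul, hs]
    rw [h3]
    calc Real.exp (Real.log 2 * ((k : ℝ) * (2 * ((n : ℝ) - k)))) * Xt k (2 * (n - k)) τ ^ τ
        ≤ Real.exp (Real.log 2 * ((k : ℝ) * (2 * ((n : ℝ) - k)))) *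
          Real.exp (τ * (Real.log (En n) +
      Real.log 2 * ((k : ℝ) + 21 / 185 * τ - 40 / 59 * (2 * ((n : ℝ) - k))))) :=
          mul_le_mul_of_nonneg_left h2 (Real.exp_pos _).le
      _ = Real.exp (Real.log 2 * ((k : ℝ) * (2 * ((n : ℝ) - k))) + τ * (Real.log (En n) +
      Real.log 2 * ((k : ℝ) + 21 / 185 * τ - 40 / 59 * (2 * ((n : ℝ) - k))))) := by
          rw [Real.exp_add]
      _ ≤ S := by
          rw [hS]
          apply Real.exp_le_exp.mpr
          exact quad_bound (by positivity) (by exact_mod_cast hk) (by exact_mod_cast hkn)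
            (by positivity) (by exact_mod_cast hτ3) hL
  have h2 : (2 : ℝ) ^ (k * (2 * (n - k))) * ∑ τ ∈ range (k / 3 + 1), Xt k (2 * (n - k)) τ ^ τ ≤
      ((n : ℝ) + 1) * S := by
    rw [Finset.mul_sum]
    refine (Finset.sum_le_card_nsmul _ _ S h1).trans ?_
    rw [card_range, nsmul_eq_mul]
    apply mul_le_mul_of_nonneg_right _ (Real.exp_pos _).le
    have : k / 3 + 1 ≤ n + 1 := by omega
    exact_mod_cast this
  have h3 : ∀ μ ∈ range (k + 1), ((k : ℝ) ^ 2 * (3 / 4) ^ (2 * (n - k))) ^ μ ≤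
      ((n : ℝ) + 1) ^ (2 * n) := by
    intro μ hμ
    rw [mem_range] at hμ
    have hkr : (k : ℝ) ≤ (n : ℝ) + 1 := by
      have : (k : ℝ) ≤ n := by exact_mod_cast hkn
      linarith
    have a1 : (k : ℝ) ^ 2 * (3 / 4) ^ (2 * (n - k)) ≤ ((n : ℝ) + 1) ^ 2 := by
      have b1 : (3 / 4 : ℝ) ^ (2 * (n - k)) ≤ 1 := pow_le_one₀ (by norm_num) (by norm_num)
      have b2 : (k : ℝ) ^ 2 ≤ ((n : ℝ) + 1) ^ 2 := pow_le_pow_left₀ (by positivity) hkr 2
      calc (k : ℝ) ^ 2 * (3 / 4) ^ (2 * (n - k)) ≤ (k : ℝ) ^ 2 * 1 :=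
            mul_le_mul_of_nonneg_left b1 (by positivity)
        _ ≤ _ := by linarith
    calc ((k : ℝ) ^ 2 * (3 / 4) ^ (2 * (n - k))) ^ μ ≤ (((n : ℝ) + 1) ^ 2) ^ μ :=
          pow_le_pow_left₀ (by positivity) a1 μ
      _ ≤ (((n : ℝ) + 1) ^ 2) ^ n := by
          apply pow_le_pow_right₀ _ (by omega)
          have : (0 : ℝ) ≤ n := by positivity
          nlinarith
      _ = _ := by rw [← pow_mul]
  have h4 : ∑ μ ∈ range (k + 1), ((k : ℝ) ^ 2 * (3 / 4) ^ (2 * (n - k))) ^ μ ≤
      ((n : ℝ) + 1) * ((n : ℝ) + 1) ^ (2 * n) := by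
    refine (Finset.sum_le_card_nsmul _ _ _ h3).trans ?_
    rw [card_range, nsmul_eq_mul]
    apply mul_le_mul_of_nonneg_right _ (by positivity)
    have : k + 1 ≤ n + 1 := by omega
    exact_mod_cast this
  have e2 : Real.exp (2 * Real.log ((n : ℝ) + 1) +
      2 * n * Real.log ((n : ℝ) + 1) + (n * Real.log (En n) +
        Real.log 2 * (997 / 2000 * (n : ℝ) ^ 2))) =
      (((n : ℝ) + 1) * S) * (((n : ℝ) + 1) * ((n : ℝ) + 1) ^ (2 * n)) := by
    rw [Real.exp_add, Real.exp_add, ← hS]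
    have c1 : Real.exp (2 * Real.log ((n : ℝ) + 1)) = ((n : ℝ) + 1) * ((n : ℝ) + 1) := by
      rw [two_mul, Real.exp_add, Real.exp_log hn1]
    have c2 : Real.exp (2 * n * Real.log ((n : ℝ) + 1)) = ((n : ℝ) + 1) ^ (2 * n) := by
      rw [← Real.rpow_natCast, Real.rpow_def_of_pos hn1]
      push_cast
      ring_nf
    rw [c1, c2]
    ring
  rw [e2]
  apply mul_le_mul h2 h4
  · apply Finset.sum_nonneg
    intro i _
    positivity
  · positivity

/-- The final form of the upper bound. -/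
lemma upper_bound {n : ℕ} (hn : 1 ≤ n)
    (hq : Real.exp (Real.log (En n) - 13 / 500 * Real.log 2 * n) ≤ 1 / 2)
    (hy : (n : ℝ) ^ 2 * Real.exp (-(n / 5)) ≤ 1 / 2) :
    (regCount n : ℝ) ≤ (asymp n : ℝ) *
      ((1 + 2 * Real.exp (Real.log (En n) - 13 / 500 * Real.log 2 * n)) *
       (1 + 2 * ((n : ℝ) ^ 2 * Real.exp (-(n / 5))))) +
      Real.exp (3 * Real.log ((n : ℝ) + 1) + 2 * n * Real.log 2 +
        3 * n * Real.log ((n : ℝ) + 1) + n * Real.log (En n) +
        Real.log 2 * (997 / 2000 * (n : ℝ) ^ 2)) := by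
  have hn1 : (0 : ℝ) < (n : ℝ) + 1 := by positivity
  have h0 := regCount_le bndB (fun V Z => card_cfg_le V Z) n
  refine h0.trans ?_
  set F := (1 + 2 * Real.exp (Real.log (En n) - 13 / 500 * Real.log 2 * n)) *
       (1 + 2 * ((n : ℝ) ^ 2 * Real.exp (-(n / 5)))) with hF
  set G := Real.exp (2 * Real.log ((n : ℝ) + 1) + 2 * n * Real.log 2 +
        3 * n * Real.log ((n : ℝ) + 1) + n * Real.log (En n) +
        Real.log 2 * (997 / 2000 * (n : ℝ) ^ 2)) with hG
  have hF0 : 0 ≤ F := by rw [hF]; positivity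
  have key : ∀ k ∈ range (n + 1),
      (n.choose k : ℝ) ^ 2 * k.factorial * bndB k (2 * (n - k)) ≤ Tk n k * F + G := by
    intro k hk
    rw [mem_range] at hk
    have hkn : k ≤ n := by omega
    rcases le_total (9 * k) (5 * n) with h | h
    · have h1 := bndB_near hn h hq hy
      have h2 : (n.choose k : ℝ) ^ 2 * k.factorial * bndB k (2 * (n - k)) ≤ Tk n k * F := by
        unfold Tk
        rw [mul_assoc ((n.choose k : ℝ) ^ 2 * k.factorial)]
        exact mul_le_mul_of_nonneg_left h1 (by positivity)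
      have := Real.exp_pos (2 * Real.log ((n : ℝ) + 1) + 2 * n * Real.log 2 +
        3 * n * Real.log ((n : ℝ) + 1) + n * Real.log (En n) +
        Real.log 2 * (997 / 2000 * (n : ℝ) ^ 2))
      rw [← hG] at this
      linarith
    · have h1 := bndB_far hn h hkn
      have h2 := pref_le hkn
      have h3 : (n.choose k : ℝ) ^ 2 * k.factorial * bndB k (2 * (n - k)) ≤ G := by
        calc (n.choose k : ℝ) ^ 2 * k.factorial * bndB k (2 * (n - k))
            ≤ (n.choose k : ℝ) ^ 2 * k.factorial * Real.exp (2 * Real.log ((n : ℝ) + 1) +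
      2 * n * Real.log ((n : ℝ) + 1) + (n * Real.log (En n) +
        Real.log 2 * (997 / 2000 * (n : ℝ) ^ 2))) :=
              mul_le_mul_of_nonneg_left h1 (by positivity)
          _ ≤ Real.exp (2 * n * Real.log 2 + n * Real.log ((n : ℝ) + 1)) *
            Real.exp (2 * Real.log ((n : ℝ) + 1) +
      2 * n * Real.log ((n : ℝ) + 1) + (n * Real.log (En n) +
        Real.log 2 * (997 / 2000 * (n : ℝ) ^ 2))) :=
              mul_le_mul_of_nonneg_right h2 (Real.exp_pos _).le
          _ = G := by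
              rw [← Real.exp_add, hG]
              congr 1
              ring
      have := mul_nonneg (Tk_nonneg n k) hF0
      linarith
  refine (Finset.sum_le_sum key).trans ?_
  rw [Finset.sum_add_distrib, ← Finset.sum_mul, ← asymp_eq, Finset.sum_const, card_range,
    nsmul_eq_mul]
  have e : ((n + 1 : ℕ) : ℝ) * G = Real.exp (3 * Real.log ((n : ℝ) + 1) + 2 * n * Real.log 2 +
        3 * n * Real.log ((n : ℝ) + 1) + n * Real.log (En n) +
        Real.log 2 * (997 / 2000 * (n : ℝ) ^ 2)) := by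
    push_cast
    nth_rw 1 [← Real.exp_log hn1]
    rw [hG, ← Real.exp_add]
    congr 1
    ring
  rw [e]

/-- The final form of the lower bound. -/
lemma lower_bound {n : ℕ} (hn : 1 ≤ n) :
    (asymp n : ℝ) * (1 - 2 * (n : ℝ) ^ 2 * Real.exp (-(Real.log 2 * (n / 4)))) -
      Real.exp (Real.log ((n : ℝ) + 1) + 2 * n * Real.log 2 +
        n * Real.log ((n : ℝ) + 1) + Real.log 2 * (3 / 8 * (n : ℝ) ^ 2)) ≤ (regCount n : ℝ) := by
  have hn1 : (0 : ℝ) < (n : ℝ) + 1 := by positivity
  have hnpos : (1 : ℝ) ≤ n := by exact_mod_cast hn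
  have ha : (0 : ℝ) < Real.log 2 := Real.log_pos (by norm_num)
  have h0 : ((∑ k ∈ range (n + 1),
      n.choose k ^ 2 * k.factorial * (2 ^ k - k) ^ (2 * (n - k)) : ℕ) : ℝ) ≤ regCount n := by
    exact_mod_cast le_regCount n
  refine le_trans ?_ h0
  set δ := 2 * (n : ℝ) ^ 2 * Real.exp (-(Real.log 2 * (n / 4))) with hδ
  have hδ0 : 0 ≤ δ := by rw [hδ]; positivity
  set H := Real.exp (2 * n * Real.log 2 +
        n * Real.log ((n : ℝ) + 1) + Real.log 2 * (3 / 8 * (n : ℝ) ^ 2)) with hH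
  have key : ∀ k ∈ range (n + 1), Tk n k * (1 - δ) - H ≤
      ((n.choose k ^ 2 * k.factorial * (2 ^ k - k) ^ (2 * (n - k)) : ℕ) : ℝ) := by
    intro k hk
    rw [mem_range] at hk
    have hkn : k ≤ n := by omega
    rcases le_total n (4 * k) with h | h
    · have hH0 : 0 < H := Real.exp_pos _
      have hlt : k ≤ 2 ^ k := Nat.lt_two_pow_self.le
      have h2k : (0 : ℝ) < 2 ^ k := by positivity
      have e1 : (((2 ^ k - k) ^ (2 * (n - k)) : ℕ) : ℝ) =
          4 ^ (k * (n - k)) * (1 + -(k / 2 ^ k)) ^ (2 * (n - k)) := by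
        rw [Nat.cast_pow, Nat.cast_sub hlt]
        push_cast
        have e4 : (4 : ℝ) ^ (k * (n - k)) = (2 ^ k) ^ (2 * (n - k)) := by
          rw [← pow_mul, show k * (2 * (n - k)) = 2 * (k * (n - k)) by ring,
            pow_mul (2 : ℝ) 2 (k * (n - k))]
          norm_num
        rw [e4, ← mul_pow]
        congr 1
        field_simp
        ring
      have h3 : (k : ℝ) / 2 ^ k ≤ 1 := by
        rw [div_le_one h2k]
        exact_mod_cast hlt
      have h4 : 1 + ((2 * (n - k) : ℕ) : ℝ) * (-(k / 2 ^ k)) ≤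
          (1 + -((k : ℝ) / 2 ^ k)) ^ (2 * (n - k)) :=
        one_add_mul_le_pow (by linarith) _
      have h5 : ((2 * (n - k) : ℕ) : ℝ) * (k / 2 ^ k) ≤ δ := by
        have b1 : ((2 * (n - k) : ℕ) : ℝ) ≤ 2 * n := by
          have : 2 * (n - k) ≤ 2 * n := by omega
          exact_mod_cast this
        have b2 : (k : ℝ) / 2 ^ k ≤ n * Real.exp (-(Real.log 2 * (n / 4))) := by
          have c1 : ((2 : ℝ) ^ k)⁻¹ ≤ Real.exp (-(Real.log 2 * (n / 4))) := by
            rw [← Real.rpow_natCast, ← Real.rpow_neg (by norm_num),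
              Real.rpow_def_of_pos (by norm_num)]
            apply Real.exp_le_exp.mpr
            have : (n : ℝ) ≤ 4 * k := by exact_mod_cast h
            nlinarith
          rw [div_eq_mul_inv]
          apply mul_le_mul _ c1 (by positivity) (by positivity)
          exact_mod_cast hkn
        calc ((2 * (n - k) : ℕ) : ℝ) * (k / 2 ^ k)
            ≤ (2 * n) * (n * Real.exp (-(Real.log 2 * (n / 4)))) :=
              mul_le_mul b1 b2 (by positivity) (by positivity)
          _ = δ := by rw [hδ]; ring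
      have h6 : 1 - δ ≤ (1 + -((k : ℝ) / 2 ^ k)) ^ (2 * (n - k)) := by linarith
      have h7 : Tk n k * (1 - δ) ≤
          ((n.choose k ^ 2 * k.factorial * (2 ^ k - k) ^ (2 * (n - k)) : ℕ) : ℝ) := by
        rw [Nat.cast_mul, e1, Nat.cast_mul, Nat.cast_pow]
        unfold Tk
        rw [← mul_assoc]
        exact mul_le_mul_of_nonneg_left h6 (by positivity)
      linarith
    · have h1 : Tk n k ≤ H := by
        unfold Tk
        have h2 := pref_le hkn
        have h3 : (4 : ℝ) ^ (k * (n - k)) ≤ Real.exp (Real.log 2 * (3 / 8 * (n : ℝ) ^ 2)) := by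
          rw [show (4 : ℝ) = 2 ^ 2 by norm_num, ← pow_mul, ← Real.rpow_natCast,
            Real.rpow_def_of_pos (by norm_num)]
          apply Real.exp_le_exp.mpr
          apply mul_le_mul_of_nonneg_left _ ha.le
          rw [Nat.cast_mul, Nat.cast_mul, Nat.cast_sub hkn]
          have h4 : (4 : ℝ) * k ≤ n := by exact_mod_cast h
          have hk0 : (0 : ℝ) ≤ k := by positivity
          push_cast
          nlinarith [mul_nonneg (sub_nonneg.mpr h4) (by linarith : (0 : ℝ) ≤ 3 * n - 4 * k)]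
        calc (n.choose k : ℝ) ^ 2 * k.factorial * 4 ^ (k * (n - k))
            ≤ Real.exp (2 * n * Real.log 2 + n * Real.log ((n : ℝ) + 1)) *
              Real.exp (Real.log 2 * (3 / 8 * (n : ℝ) ^ 2)) :=
              mul_le_mul h2 h3 (by positivity) (Real.exp_pos _).le
          _ = H := by rw [← Real.exp_add]
      have h2 : Tk n k * (1 - δ) ≤ Tk n k := by
        have := Tk_nonneg n k
        nlinarith
      have h3 : (0 : ℝ) ≤
          ((n.choose k ^ 2 * k.factorial * (2 ^ k - k) ^ (2 * (n - k)) : ℕ) : ℝ) := by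
        positivity
      linarith
  rw [Nat.cast_sum]
  refine le_trans ?_ (Finset.sum_le_sum key)
  rw [Finset.sum_sub_distrib, ← Finset.sum_mul, ← asymp_eq, Finset.sum_const, card_range,
    nsmul_eq_mul]
  have e : ((n + 1 : ℕ) : ℝ) * H = Real.exp (Real.log ((n : ℝ) + 1) + 2 * n * Real.log 2 +
        n * Real.log ((n : ℝ) + 1) + Real.log 2 * (3 / 8 * (n : ℝ) ^ 2)) := by
    push_cast
    nth_rw 1 [← Real.exp_log hn1]
    rw [hH, ← Real.exp_add]
    congr 1
    ring
  rw [e]

/-- The main theorem. -/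
theorem tendsto_ratio :
    Tendsto (fun n : ℕ => (regCount n : ℝ) / (asymp n : ℝ)) atTop (𝓝 1) := by
  have ha1 := Real.log_two_lt_d9
  have ha2 := Real.log_two_gt_d9
  -- the upper and lower comparison functions
  have hU : Tendsto (fun n : ℕ => (1 + 2 * Real.exp (-(1 / 100 * n))) *
      (1 + 2 * Real.exp (-(1 / 10 * n))) + Real.exp (-(1 * (n : ℝ)))) atTop (𝓝 1) := by
    have t1 := tendsto_exp_neg_mul (1 / 100) (by norm_num)
    have t2 := tendsto_exp_neg_mul (1 / 10) (by norm_num)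
    have t3 := tendsto_exp_neg_mul 1 (by norm_num)
    have := ((t1.const_mul 2).const_add 1).mul ((t2.const_mul 2).const_add 1) |>.add t3
    simpa using this
  have hLo : Tendsto (fun n : ℕ => 1 - Real.exp (-(1 / 10 * n)) - Real.exp (-(1 * (n : ℝ))))
      atTop (𝓝 1) := by
    have t2 := tendsto_exp_neg_mul (1 / 10) (by norm_num)
    have t3 := tendsto_exp_neg_mul 1 (by norm_num)
    have := (t2.const_sub 1).sub t3
    simpa using this
  have hev := (eventually_log_En (1 / 10000) (by norm_num)).and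
    ((eventually_log_succ (1 / 10000) (by norm_num)).and (eventually_ge_atTop 10000))
  apply tendsto_of_tendsto_of_tendsto_of_le_of_le' hLo hU
  · filter_upwards [hev] with n ⟨hE, hl, hn⟩
    have hnR : (10000 : ℝ) ≤ n := by exact_mod_cast hn
    have hn1 : 1 ≤ n := by omega
    have hA := asymp_pos n
    rw [le_div_iff₀ hA]
    have hlb := lower_bound hn1
    have d1 : 2 * (n : ℝ) ^ 2 * Real.exp (-(Real.log 2 * (n / 4))) ≤
        Real.exp (-(1 / 10 * n)) := by
      have hpos : (0 : ℝ) < n := by linarith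
      have c1 : 2 * (n : ℝ) ^ 2 ≤ Real.exp (Real.log 2 + 2 * Real.log ((n : ℝ) + 1)) := by
        rw [Real.exp_add, Real.exp_log (by norm_num), two_mul (Real.log _), Real.exp_add,
          Real.exp_log (by positivity)]
        nlinarith
      calc 2 * (n : ℝ) ^ 2 * Real.exp (-(Real.log 2 * (n / 4)))
          ≤ Real.exp (Real.log 2 + 2 * Real.log ((n : ℝ) + 1)) *
            Real.exp (-(Real.log 2 * (n / 4))) :=
            mul_le_mul_of_nonneg_right c1 (Real.exp_pos _).le
        _ = Real.exp (Real.log 2 + 2 * Real.log ((n : ℝ) + 1) + -(Real.log 2 * (n / 4))) := by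
            rw [← Real.exp_add]
        _ ≤ _ := by
            apply Real.exp_le_exp.mpr
            nlinarith
    have d2 : Real.exp (Real.log ((n : ℝ) + 1) + 2 * n * Real.log 2 +
        n * Real.log ((n : ℝ) + 1) + Real.log 2 * (3 / 8 * (n : ℝ) ^ 2)) ≤
        (asymp n : ℝ) * Real.exp (-(1 * (n : ℝ))) := by
      have c2 := asymp_lower n
      calc Real.exp (Real.log ((n : ℝ) + 1) + 2 * n * Real.log 2 +
        n * Real.log ((n : ℝ) + 1) + Real.log 2 * (3 / 8 * (n : ℝ) ^ 2))
          ≤ Real.exp (Real.log 2 * (((n : ℝ) ^ 2 - 1) / 2) + -(1 * (n : ℝ))) := by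
            apply Real.exp_le_exp.mpr
            have g1 : n * Real.log ((n : ℝ) + 1) ≤ 1 / 10000 * (n : ℝ) ^ 2 := by
              nlinarith
            have g2 : 2 * n * Real.log 2 ≤ 2 * (n : ℝ) := by nlinarith
            have g3 : (1 / 8 : ℝ) * (n : ℝ) ^ 2 * Real.log 2 ≥ 1 / 8 * (n : ℝ) ^ 2 * (69 / 100) := by
              have : (0 : ℝ) ≤ 1 / 8 * (n : ℝ) ^ 2 := by positivity
              nlinarith
            nlinarith
        _ = Real.exp (Real.log 2 * (((n : ℝ) ^ 2 - 1) / 2)) * Real.exp (-(1 * (n : ℝ))) := by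
            rw [Real.exp_add]
        _ ≤ _ := mul_le_mul_of_nonneg_right c2 (Real.exp_pos _).le
    have d3 : (asymp n : ℝ) * (2 * (n : ℝ) ^ 2 * Real.exp (-(Real.log 2 * (n / 4)))) ≤
        (asymp n : ℝ) * Real.exp (-(1 / 10 * n)) := mul_le_mul_of_nonneg_left d1 hA.le
    nlinarith
  · filter_upwards [hev] with n ⟨hE, hl, hn⟩
    have hnR : (10000 : ℝ) ≤ n := by exact_mod_cast hn
    have hn1 : 1 ≤ n := by omega
    have hA := asymp_pos n
    rw [div_le_iff₀ hA]
    have hq : Real.exp (Real.log (En n) - 13 / 500 * Real.log 2 * n) ≤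
        Real.exp (-(1 / 100 * n)) := by
      apply Real.exp_le_exp.mpr
      nlinarith
    have hy : (n : ℝ) ^ 2 * Real.exp (-(n / 5)) ≤ Real.exp (-(1 / 10 * n)) := by
      have hpos : (0 : ℝ) < n := by linarith
      have c1 : (n : ℝ) ^ 2 ≤ Real.exp (2 * Real.log ((n : ℝ) + 1)) := by
        rw [two_mul, Real.exp_add, Real.exp_log (by positivity)]
        nlinarith
      calc (n : ℝ) ^ 2 * Real.exp (-(n / 5))
          ≤ Real.exp (2 * Real.log ((n : ℝ) + 1)) * Real.exp (-(n / 5)) :=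
            mul_le_mul_of_nonneg_right c1 (Real.exp_pos _).le
        _ = Real.exp (2 * Real.log ((n : ℝ) + 1) + -(n / 5)) := by
            rw [← Real.exp_add]
        _ ≤ _ := by
            apply Real.exp_le_exp.mpr
            nlinarith
    have hhalf : ∀ x : ℝ, 1 ≤ x → Real.exp (-x) ≤ 1 / 2 := by
      intro x hx
      rw [Real.exp_neg]
      rw [inv_le_comm₀ (Real.exp_pos _) (by norm_num)]
      have := Real.add_one_le_exp x
      norm_num
      linarith
    have hq2 : Real.exp (-(1 / 100 * (n : ℝ))) ≤ 1 / 2 := hhalf _ (by linarith)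
    have hy2 : Real.exp (-(1 / 10 * (n : ℝ))) ≤ 1 / 2 := hhalf _ (by linarith)
    have hub := upper_bound hn1 (hq.trans hq2) (hy.trans hy2)
    refine hub.trans ?_
    rw [add_mul _ (Real.exp (-(1 * (n : ℝ)))) _]
    apply add_le_add
    · rw [mul_comm]
      apply mul_le_mul_of_nonneg_right _ hA.le
      apply mul_le_mul
      · linarith
      · linarith
      · positivity
      · positivity
    · have c2 := asymp_lower n
      calc Real.exp (3 * Real.log ((n : ℝ) + 1) + 2 * n * Real.log 2 +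
        3 * n * Real.log ((n : ℝ) + 1) + n * Real.log (En n) +
        Real.log 2 * (997 / 2000 * (n : ℝ) ^ 2))
          ≤ Real.exp (-(1 * (n : ℝ)) + Real.log 2 * (((n : ℝ) ^ 2 - 1) / 2)) := by
            apply Real.exp_le_exp.mpr
            have g0 : n * Real.log (En n) ≤ 1 / 10000 * (n : ℝ) ^ 2 := by
              nlinarith
            have g1 : 3 * n * Real.log ((n : ℝ) + 1) ≤ 3 / 10000 * (n : ℝ) ^ 2 := by
              nlinarith
            have g2 : 2 * n * Real.log 2 ≤ 2 * (n : ℝ) := by nlinarith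
            have g3 : (3 / 2000 : ℝ) * (n : ℝ) ^ 2 * Real.log 2 ≥
                3 / 2000 * (n : ℝ) ^ 2 * (69 / 100) := by
              have : (0 : ℝ) ≤ 3 / 2000 * (n : ℝ) ^ 2 := by positivity
              nlinarith
            nlinarith
        _ = Real.exp (-(1 * (n : ℝ))) * Real.exp (Real.log 2 * (((n : ℝ) ^ 2 - 1) / 2)) := by
            rw [Real.exp_add]
        _ ≤ _ := mul_le_mul_of_nonneg_left c2 (Real.exp_pos _).le

end Pool.Agent.MP72200a
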