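import Pool.Agent.MP72200a.TriFree
import Pool.Agent.MP72200a.Encode

/-!
# Counting partial orders

The number of partial orders on `j ≤ k` points is at most `(k W)^j * 11^(j^2/10)`.
-/

namespace Pool.Agent.MP72200a

open Finset

open Classical in
/-- The partial orders on `V`. -/
noncomputable def PO (V : Type) [Fintype V] : Finset (V → V → Prop) := univ.filter IsPO

lemma mem_PO {V : Type} [Fintype V] {R : V → V → Prop} : R ∈ PO V ↔ IsPO R := by
  classical
  unfold PO
  simp

/-- The covering relation. -/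
def Cov {V : Type} (R : V → V → Prop) (x y : V) : Prop :=
  R x y ∧ x ≠ y ∧ ∀ z, R x z → R z y → z = x ∨ z = y

open Classical in
/-- The number of elements strictly below. -/
noncomputable def ht {V : Type} [Fintype V] (R : V → V → Prop) (x : V) : ℕ :=
  (univ.filter fun y => R y x ∧ y ≠ x).card

variable {V : Type} [Fintype V]

lemma ht_lt {R : V → V → Prop} (hR : IsPO R) {x y : V} (h : R x y) (hne : x ≠ y) :
    ht R x < ht R y := by
  classical
  unfold ht
  apply Finset.card_lt_card
  rw [Finset.ssubset_iff_of_subset]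
  · refine ⟨x, ?_, ?_⟩
    · simp [h, hne]
    · simp
  · intro z hz
    simp only [mem_filter, mem_univ, true_and] at hz ⊢
    refine ⟨hR.2.2 _ _ _ hz.1 h, ?_⟩
    rintro rfl
    exact hz.2 (hR.2.1 _ _ hz.1 h)

lemma ht_lt_card (R : V → V → Prop) (x : V) : ht R x < Fintype.card V := by
  classical
  unfold ht
  apply Finset.card_lt_univ_of_notMem (x := x)
  simp

lemma exists_cov {R : V → V → Prop} (hR : IsPO R) {x y : V} (h : R x y) (hne : x ≠ y) :
    ∃ z, R x z ∧ Cov R z y := by
  classical
  have hS : (univ.filter fun z => R x z ∧ R z y ∧ z ≠ y).Nonempty :=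
    ⟨x, by simp [hR.1 x, h, hne]⟩
  obtain ⟨z, hz, hmax⟩ := Finset.exists_max_image _ (ht R) hS
  simp only [mem_filter, mem_univ, true_and] at hz hmax
  refine ⟨z, hz.1, hz.2.1, hz.2.2, ?_⟩
  intro w h1 h2
  by_contra hcon
  push Not at hcon
  have := hmax w ⟨hR.2.2 _ _ _ hz.1 h1, h2, hcon.2⟩
  have h3 := ht_lt hR h1 hcon.1.symm
  omega

lemma rel_iff {R : V → V → Prop} (hR : IsPO R) (x y : V) :
    R x y ↔ Relation.ReflTransGen (Cov R) x y := by
  constructor
  · suffices H : ∀ m : ℕ, ∀ y, ht R y = m → R x y → Relation.ReflTransGen (Cov R) x y from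
      H _ y rfl
    intro m
    induction m using Nat.strong_induction_on with
    | _ m ih =>
      intro y hy hxy
      by_cases hne : x = y
      · rw [hne]
      · obtain ⟨z, hxz, hzy⟩ := exists_cov hR hxy hne
        have h1 := ht_lt hR hzy.1 hzy.2.1
        exact Relation.ReflTransGen.tail (ih _ (by omega) z rfl hxz) hzy
  · intro h
    induction h with
    | refl => exact hR.1 x
    | tail _ h2 ih => exact hR.2.2 _ _ _ ih h2.1

lemma no_trans {R : V → V → Prop} {a b c : V} (h1 : Cov R a b) (h2 : Cov R b c)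
    (h3 : Cov R a c) : False := by
  rcases h3.2.2 b h1.1 h2.1 with h | h
  · exact h1.2.1 h.symm
  · exact h2.2.1 h

lemma no_cyc {R : V → V → Prop} (hR : IsPO R) {a b c : V} (h1 : Cov R a b) (h2 : Cov R b c)
    (h3 : Cov R c a) : False :=
  h3.2.1 (hR.2.1 _ _ h3.1 (hR.2.2 _ _ _ h1.1 h2.1))

lemma isTF_cov {R : V → V → Prop} (hR : IsPO R) : IsTF fun x y => Cov R x y ∨ Cov R y x := by
  refine ⟨fun x y h => h.symm, fun x h => ?_, fun x y z h1 h2 h3 => ?_⟩
  · rcases h with h | h <;> exact h.2.1 rfl
  · rcases h1 with h1 | h1 <;> rcases h2 with h2 | h2 <;> rcases h3 with h3 | h3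
    · exact no_trans h1 h2 h3
    · exact no_cyc hR h1 h2 h3
    · exact no_trans h3 h2 h1
    · exact no_trans h3 h1 h2
    · exact no_trans h1 h3 h2
    · exact no_trans h2 h3 h1
    · exact no_cyc hR h1 h3 h2
    · exact no_trans h2 h1 h3

lemma card_PO_le : (PO V).card ≤ Fintype.card V ^ Fintype.card V * (TF V).card := by
  classical
  have h1 : (univ : Finset (V → Fin (Fintype.card V))).card =
      Fintype.card V ^ Fintype.card V := by
    rw [Finset.card_univ, Fintype.card_fun, Fintype.card_fin]
  rw [← h1, ← card_product]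
  apply Finset.card_le_card_of_injOn
    (fun R => ((fun x => (⟨ht R x, ht_lt_card R x⟩ : Fin (Fintype.card V))),
      fun x y => Cov R x y ∨ Cov R y x))
  · intro R hR
    rw [mem_coe, mem_PO] at hR
    simp only [coe_product, Set.mem_prod, mem_coe, mem_univ, true_and]
    exact mem_TF.mpr (isTF_cov hR)
  · intro R hR R' hR' h
    rw [mem_coe, mem_PO] at hR hR'
    simp only [Prod.mk.injEq] at h
    obtain ⟨he, hc⟩ := h
    have he' : ∀ x, ht R x = ht R' x := fun x => by
      have := congrFun he x
      simpa using this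
    have hcov : ∀ {S : V → V → Prop}, IsPO S → ∀ x y, Cov S x y ↔
        ((Cov S x y ∨ Cov S y x) ∧ ht S x < ht S y) := by
      intro S hS x y
      constructor
      · intro h
        exact ⟨Or.inl h, ht_lt hS h.1 h.2.1⟩
      · rintro ⟨h | h, hlt⟩
        · exact h
        · have := ht_lt hS h.1 h.2.1
          omega
    have hcc : Cov R = Cov R' := by
      funext x y
      apply propext
      rw [hcov hR, hcov hR', he', he']
      have := congrFun (congrFun hc x) y
      simp only [eq_iff_iff] at this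
      rw [this]
    funext x y
    apply propext
    rw [rel_iff hR, rel_iff hR', hcc]

theorem card_PO_bound (k : ℕ) (hk : 1 ≤ k) (V : Type) [Fintype V] (hV : Fintype.card V ≤ k) :
    ((PO V).card : ℝ) ≤ (k * bigW k) ^ Fintype.card V *
      (11 : ℝ) ^ ((Fintype.card V : ℝ) ^ 2 / 10) := by
  have h1 : ((PO V).card : ℝ) ≤ (Fintype.card V : ℝ) ^ Fintype.card V * ((TF V).card : ℝ) := by
    exact_mod_cast card_PO_le (V := V)
  have h2 := card_TF_le k hk (Fintype.card V) hV V rfl
  have hV' : (Fintype.card V : ℝ) ≤ k := by exact_mod_cast hV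
  calc ((PO V).card : ℝ) ≤ (Fintype.card V : ℝ) ^ Fintype.card V * ((TF V).card : ℝ) := h1
    _ ≤ (k : ℝ) ^ Fintype.card V *
        (bigW k ^ Fintype.card V * (11 : ℝ) ^ ((Fintype.card V : ℝ) ^ 2 / 10)) := by
        apply mul_le_mul _ h2 (by positivity) (by positivity)
        exact pow_le_pow_left₀ (by positivity) hV' _
    _ = _ := by rw [mul_pow]; ring

end Pool.Agent.MP72200a
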