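import Pool.Agent.MP72200a.Blocks
import Pool.Agent.MP72200a.PosetCount

/-!
# Counting pairs (partial order, family of down-sets)
-/

namespace Pool.Agent.MP72200a

open Finset

variable {V Z : Type} [Fintype V] [Fintype Z] [DecidableEq V]

/-- `v x ≤ v y` coordinatewise. -/
def Vle (v : V → Z → Bool) (x y : V) : Prop := ∀ z, v x z = true → v y z = true

/-- `v x` and `v y` are comparable. -/
def Vcmp (v : V → Z → Bool) (x y : V) : Prop := Vle v x y ∨ Vle v y x

omit [Fintype V] [Fintype Z] [DecidableEq V] in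
lemma Vcmp.symm {v : V → Z → Bool} {x y : V} (h : Vcmp v x y) : Vcmp v y x := Or.symm h

omit [Fintype V] [Fintype Z] [DecidableEq V] in
lemma vcmp_of_eq {v : V → Z → Bool} {x y : V} (h : v x = v y) : Vcmp v x y :=
  Or.inl fun z hz => by rw [← h]; exact hz

omit [Fintype V] [Fintype Z] [DecidableEq V] in
lemma eq_of_vle {v : V → Z → Bool} {x y : V} (h1 : Vle v x y) (h2 : Vle v y x) : v x = v y := by
  funext z
  rw [Bool.eq_iff_iff]
  exact ⟨h1 z, h2 z⟩

/-- A family of disjoint paths with three vertices in the comparability graph of `v`. -/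
structure IsPack (v : V → Z → Bool) (T : Finset (T3 V)) : Prop where
  ne : ∀ t ∈ T, t.1 ≠ t.2.1 ∧ t.2.1 ≠ t.2.2.1 ∧ t.1 ≠ t.2.2.1
  ok : ∀ t ∈ T, ∀ z, Ok3 (fun x => v x z) t
  disj : ∀ t ∈ T, ∀ t' ∈ T, t ≠ t' → Disjoint (supp3 t) (supp3 t')

omit [Fintype V] [Fintype Z] [DecidableEq V] in
lemma exists_bits {v : V → Z → Bool} {x y w : V} (h1 : Vcmp v x y) (h2 : Vcmp v y w) :
    ∃ b c : Bool, ∀ z, Ok3 (fun x => v x z) ((x, y, w, b, c) : T3 V) := by
  have key : ∀ {a b : V}, Vcmp v a b → ∃ c : Bool, ∀ z, OrdOk c (v a z) (v b z) := by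
    intro a b h
    rcases h with h | h
    · exact ⟨true, fun z => ⟨fun _ => h z, fun h => absurd h (by decide)⟩⟩
    · exact ⟨false, fun z => ⟨fun h => absurd h (by decide), fun _ => h z⟩⟩
  obtain ⟨b, hb⟩ := key h1
  obtain ⟨c, hc⟩ := key h2
  exact ⟨b, c, fun z => ⟨hb z, hc z⟩⟩

omit [Fintype Z] in
lemma exists_maxPack (v : V → Z → Bool) :
    ∃ T : Finset (T3 V), IsPack v T ∧ ∀ T', IsPack v T' → T'.card ≤ T.card := by
  classical
  have hne : (univ.filter fun T : Finset (T3 V) => IsPack v T).Nonempty :=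
    ⟨∅, by
      rw [mem_filter]
      exact ⟨mem_univ _, ⟨by simp, by simp, by simp⟩⟩⟩
  obtain ⟨T, hT, hmax⟩ := Finset.exists_max_image _ Finset.card hne
  rw [mem_filter] at hT
  exact ⟨T, hT.2, fun T' hT' => hmax T' (by rw [mem_filter]; exact ⟨mem_univ _, hT'⟩)⟩

/-- A maximum packing. -/
noncomputable def maxPack (v : V → Z → Bool) : Finset (T3 V) := (exists_maxPack v).choose

omit [Fintype Z] in
lemma maxPack_isPack (v : V → Z → Bool) : IsPack v (maxPack v) := (exists_maxPack v).choose_spec.1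

omit [Fintype Z] in
lemma maxPack_max (v : V → Z → Bool) {T : Finset (T3 V)} (hT : IsPack v T) :
    T.card ≤ (maxPack v).card := (exists_maxPack v).choose_spec.2 T hT

/-- The vertices covered by a packing. -/
def VT (T : Finset (T3 V)) : Finset V := T.biUnion supp3

omit [Fintype V] in
lemma mem_VT {T : Finset (T3 V)} {t : T3 V} (ht : t ∈ T) {x : V} (hx : x ∈ supp3 t) :
    x ∈ VT T := mem_biUnion.mpr ⟨t, ht, hx⟩

omit [Fintype V] in
lemma card_supp3 {t : T3 V} (h : t.1 ≠ t.2.1 ∧ t.2.1 ≠ t.2.2.1 ∧ t.1 ≠ t.2.2.1) :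
    (supp3 t).card = 3 := by
  unfold supp3
  rw [card_insert_of_notMem, card_insert_of_notMem, card_singleton]
  · simpa using h.2.1
  · simp only [mem_insert, mem_singleton, not_or]
    exact ⟨h.1, h.2.2⟩

omit [Fintype V] in
lemma card_VT {T : Finset (T3 V)} (h1 : ∀ t ∈ T, t.1 ≠ t.2.1 ∧ t.2.1 ≠ t.2.2.1 ∧ t.1 ≠ t.2.2.1)
    (h2 : ∀ t ∈ T, ∀ t' ∈ T, t ≠ t' → Disjoint (supp3 t) (supp3 t')) :
    (VT T).card = 3 * T.card := by
  unfold VT
  rw [card_biUnion h2, Finset.sum_congr rfl fun t ht => card_supp3 (h1 t ht), Finset.sum_const,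
    smul_eq_mul, mul_comm]

omit [Fintype Z] in
/-- No path with three vertices outside a maximum packing. -/
lemma no_path {v : V → Z → Bool} {x y w : V} (hx : x ∉ VT (maxPack v)) (hy : y ∉ VT (maxPack v))
    (hw : w ∉ VT (maxPack v)) (hxy : x ≠ y) (hyw : y ≠ w) (hxw : x ≠ w)
    (h1 : Vcmp v x y) (h2 : Vcmp v y w) : False := by
  obtain ⟨b, c, hbc⟩ := exists_bits h1 h2
  set t : T3 V := (x, y, w, b, c) with ht
  have hsupp : ∀ a ∈ supp3 t, a ∉ VT (maxPack v) := by
    intro a ha
    simp only [supp3, ht, mem_insert, mem_singleton] at ha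
    rcases ha with rfl | rfl | rfl <;> assumption
  have hnot : t ∉ maxPack v := fun h => hx (mem_VT h (mem_supp3_1 t))
  have hp := maxPack_isPack v
  have hpack : IsPack v (insert t (maxPack v)) := by
    have hd : ∀ t' ∈ maxPack v, Disjoint (supp3 t) (supp3 t') := by
      intro t' ht'
      rw [Finset.disjoint_left]
      intro a ha ha'
      exact hsupp a ha (mem_VT ht' ha')
    refine ⟨?_, ?_, ?_⟩
    · intro t' ht'
      rcases mem_insert.mp ht' with rfl | h
      · exact ⟨hxy, hyw, hxw⟩
      · exact hp.ne t' h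
    · intro t' ht'
      rcases mem_insert.mp ht' with rfl | h
      · exact hbc
      · exact hp.ok t' h
    · intro t1 h1 t2 h2 hne
      rcases mem_insert.mp h1 with e1 | h1 <;> rcases mem_insert.mp h2 with e2 | h2
      · exact absurd (e1.trans e2.symm) hne
      · rw [e1]; exact hd t2 h2
      · rw [e2]; exact (hd t1 h1).symm
      · exact hp.disj t1 h1 t2 h2 hne
  have := maxPack_max v hpack
  rw [card_insert_of_notMem hnot] at this
  omega

omit [Fintype Z] in
/-- Exchange argument. -/
lemma no_exchange {v : V → Z → Bool} {t : T3 V} (ht : t ∈ maxPack v) {u u' r1 r2 r3 r4 : V}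
    (hu : u ∈ supp3 t) (hu' : u' ∈ supp3 t) (huu : u ≠ u')
    (h1 : r1 ∉ VT (maxPack v)) (h2 : r2 ∉ VT (maxPack v)) (h3 : r3 ∉ VT (maxPack v))
    (h4 : r4 ∉ VT (maxPack v)) (h12 : r1 ≠ r2) (h34 : r3 ≠ r4) (h13 : r1 ≠ r3) (h14 : r1 ≠ r4)
    (h23 : r2 ≠ r3) (h24 : r2 ≠ r4) (c1 : Vcmp v u r1) (c2 : Vcmp v u r2) (c3 : Vcmp v u' r3)
    (c4 : Vcmp v u' r4) : False := by
  obtain ⟨b, c, hbc⟩ := exists_bits c1.symm c2
  obtain ⟨b', c', hbc'⟩ := exists_bits c3.symm c4
  set t1 : T3 V := (r1, u, r2, b, c) with ht1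
  set t2 : T3 V := (r3, u', r4, b', c') with ht2
  have hp := maxPack_isPack v
  have huV : u ∈ VT (maxPack v) := mem_VT ht hu
  have huV' : u' ∈ VT (maxPack v) := mem_VT ht hu'
  have n1 : r1 ≠ u := by rintro rfl; exact h1 huV
  have n2 : r2 ≠ u := by rintro rfl; exact h2 huV
  have n3 : r3 ≠ u := by rintro rfl; exact h3 huV
  have n4 : r4 ≠ u := by rintro rfl; exact h4 huV
  have n1' : r1 ≠ u' := by rintro rfl; exact h1 huV'
  have n2' : r2 ≠ u' := by rintro rfl; exact h2 huV'
  have n3' : r3 ≠ u' := by rintro rfl; exact h3 huV'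
  have n4' : r4 ≠ u' := by rintro rfl; exact h4 huV'
  have hdis : Disjoint (supp3 t1) (supp3 t2) := by
    rw [Finset.disjoint_left]
    intro a ha ha'
    simp only [supp3, ht1, ht2, mem_insert, mem_singleton] at ha ha'
    rcases ha with rfl | rfl | rfl <;> rcases ha' with h | h | h
    · exact h13 h
    · exact n1' h
    · exact h14 h
    · exact n3 h.symm
    · exact huu h
    · exact n4 h.symm
    · exact h23 h
    · exact n2' h
    · exact h24 h
  have hd1 : ∀ t' ∈ (maxPack v).erase t, Disjoint (supp3 t1) (supp3 t') := by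
    intro t' ht'
    rw [mem_erase] at ht'
    rw [Finset.disjoint_left]
    intro a ha ha'
    simp only [supp3, ht1, mem_insert, mem_singleton] at ha
    have haV := mem_VT ht'.2 ha'
    rcases ha with rfl | rfl | rfl
    · exact h1 haV
    · exact Finset.disjoint_left.mp (hp.disj t ht t' ht'.2 (Ne.symm ht'.1)) hu ha'
    · exact h2 haV
  have hd2 : ∀ t' ∈ (maxPack v).erase t, Disjoint (supp3 t2) (supp3 t') := by
    intro t' ht'
    rw [mem_erase] at ht'
    rw [Finset.disjoint_left]
    intro a ha ha'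
    simp only [supp3, ht2, mem_insert, mem_singleton] at ha
    have haV := mem_VT ht'.2 ha'
    rcases ha with rfl | rfl | rfl
    · exact h3 haV
    · exact Finset.disjoint_left.mp (hp.disj t ht t' ht'.2 (Ne.symm ht'.1)) hu' ha'
    · exact h4 haV
  have hne12 : t1 ≠ t2 := by
    intro h
    exact huu (congrArg (fun t : T3 V => t.2.1) h)
  have hnot1 : t1 ∉ (maxPack v).erase t := fun h =>
    h1 (mem_VT (mem_of_mem_erase h) (mem_supp3_1 t1))
  have hnot2 : t2 ∉ (maxPack v).erase t := fun h =>
    h3 (mem_VT (mem_of_mem_erase h) (mem_supp3_1 t2))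
  have hpack : IsPack v (insert t1 (insert t2 ((maxPack v).erase t))) := by
    refine ⟨?_, ?_, ?_⟩
    · intro t' ht'
      rcases mem_insert.mp ht' with rfl | h
      · exact ⟨n1, n2.symm, h12⟩
      rcases mem_insert.mp h with rfl | h
      · exact ⟨n3', n4'.symm, h34⟩
      · exact hp.ne t' (mem_of_mem_erase h)
    · intro t' ht'
      rcases mem_insert.mp ht' with rfl | h
      · exact hbc
      rcases mem_insert.mp h with rfl | h
      · exact hbc'
      · exact hp.ok t' (mem_of_mem_erase h)
    · intro s1 hs1 s2 hs2 hne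
      rcases mem_insert.mp hs1 with e1 | hs1
      · rcases mem_insert.mp hs2 with e2 | hs2
        · exact absurd (e1.trans e2.symm) hne
        rcases mem_insert.mp hs2 with e2 | hs2
        · rw [e1, e2]; exact hdis
        · rw [e1]; exact hd1 s2 hs2
      rcases mem_insert.mp hs1 with e1 | hs1
      · rcases mem_insert.mp hs2 with e2 | hs2
        · rw [e1, e2]; exact hdis.symm
        rcases mem_insert.mp hs2 with e2 | hs2
        · exact absurd (e1.trans e2.symm) hne
        · rw [e1]; exact hd2 s2 hs2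
      · rcases mem_insert.mp hs2 with e2 | hs2
        · rw [e2]; exact (hd1 s1 hs1).symm
        rcases mem_insert.mp hs2 with e2 | hs2
        · rw [e2]; exact (hd2 s1 hs1).symm
        · exact hp.disj s1 (mem_of_mem_erase hs1) s2 (mem_of_mem_erase hs2) hne
  have := maxPack_max v hpack
  rw [card_insert_of_notMem (by rw [mem_insert, not_or]; exact ⟨hne12, hnot1⟩),
    card_insert_of_notMem hnot2, card_erase_of_mem ht] at this
  have hpos : 0 < (maxPack v).card := card_pos.mpr ⟨t, ht⟩
  omega

open Classical in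
/-- Neighbours outside the packing. -/
noncomputable def nbL (v : V → Z → Bool) (u : V) : Finset V :=
  (VT (maxPack v))ᶜ.filter fun r => Vcmp v u r

omit [Fintype Z] in
lemma one_high {v : V → Z → Bool} {t : T3 V} (ht : t ∈ maxPack v) {u u' : V}
    (hu : u ∈ supp3 t) (hu' : u' ∈ supp3 t) (huu : u ≠ u') (h : 4 ≤ (nbL v u).card)
    (h' : 4 ≤ (nbL v u').card) : False := by
  classical
  obtain ⟨r1, hr1, r2, hr2, h12⟩ := Finset.one_lt_card.mp (by omega : 1 < (nbL v u).card)
  have hc : 2 ≤ (nbL v u' \ {r1, r2}).card := by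
    have h1 := Finset.le_card_sdiff {r1, r2} (nbL v u')
    have h2 : ({r1, r2} : Finset V).card ≤ 2 := Finset.card_le_two
    omega
  obtain ⟨r3, hr3, r4, hr4, h34⟩ := Finset.one_lt_card.mp (by omega : 1 < (nbL v u' \ {r1, r2}).card)
  simp only [nbL, mem_sdiff, mem_filter, mem_compl, mem_insert, mem_singleton, not_or] at *
  exact no_exchange ht hu hu' huu hr1.1 hr2.1 hr3.1.1 hr4.1.1 h12 h34 (Ne.symm hr3.2.1)
    (Ne.symm hr4.2.1) (Ne.symm hr3.2.2) (Ne.symm hr4.2.2) hr1.2 hr2.2 hr3.1.2 hr4.1.2

open Classical in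
lemma card_eq_le (v : V → Z → Bool) (u : V) :
    ((VT (maxPack v))ᶜ.filter fun r => v r = v u).card ≤ 2 := by
  by_contra hcon
  push Not at hcon
  obtain ⟨x, y, w, hx, hy, hw, hxy, hxw, hyw⟩ := Finset.two_lt_card_iff.mp hcon
  simp only [mem_filter, mem_compl] at hx hy hw
  exact no_path hx.1 hy.1 hw.1 hxy hyw hxw (vcmp_of_eq (hx.2.trans hy.2.symm))
    (vcmp_of_eq (hy.2.trans hw.2.symm))

open Classical in
/-- Allowed relations between `u` and `r`: `(R u r, R r u)`. -/
noncomputable def allowed (v : V → Z → Bool) (u r : V) : Finset (Bool × Bool) :=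
  univ.filter fun p => (p.1 = true → Vle v r u) ∧ (p.2 = true → Vle v u r) ∧
    ¬ (p.1 = true ∧ p.2 = true)

lemma card_allowed_le3 (v : V → Z → Bool) (u r : V) : (allowed v u r).card ≤ 3 := by
  classical
  have : allowed v u r ⊆ {(false, false), (false, true), (true, false)} := by
    intro p hp
    unfold allowed at hp
    rw [mem_filter] at hp
    obtain ⟨_, _, _, h⟩ := hp
    rcases p with ⟨_ | _, _ | _⟩ <;> simp_all
  exact (card_le_card this).trans (by decide)

lemma card_allowed_le2 (v : V → Z → Bool) (u r : V) (h : v r ≠ v u) :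
    (allowed v u r).card ≤ 2 := by
  classical
  by_cases h1 : Vle v r u
  · have h2 : ¬ Vle v u r := fun h2 => h (eq_of_vle h1 h2)
    have : allowed v u r ⊆ {(false, false), (true, false)} := by
      intro p hp
      unfold allowed at hp
      rw [mem_filter] at hp
      obtain ⟨_, _, h3, h4⟩ := hp
      rcases p with ⟨_ | _, _ | _⟩ <;> simp_all
    exact (card_le_card this).trans (by decide)
  · have : allowed v u r ⊆ {(false, false), (false, true)} := by
      intro p hp
      unfold allowed at hp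
      rw [mem_filter] at hp
      obtain ⟨_, h3, _, h4⟩ := hp
      rcases p with ⟨_ | _, _ | _⟩ <;> simp_all
    exact (card_le_card this).trans (by decide)

lemma card_allowed_le1 (v : V → Z → Bool) (u r : V) (h : ¬ Vcmp v u r) :
    (allowed v u r).card ≤ 1 := by
  classical
  unfold Vcmp at h
  push Not at h
  have : allowed v u r ⊆ {(false, false)} := by
    intro p hp
    unfold allowed at hp
    rw [mem_filter] at hp
    obtain ⟨_, h3, h4, h5⟩ := hp
    rcases p with ⟨_ | _, _ | _⟩ <;> simp_all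
  exact (card_le_card this).trans (by decide)

/-- The number of relation choices between `u` and the outside of the packing. -/
noncomputable def gU (v : V → Z → Bool) (u : V) : ℝ :=
  ∏ r ∈ (VT (maxPack v))ᶜ, ((allowed v u r).card : ℝ)

lemma gU_nonneg (v : V → Z → Bool) (u : V) : 0 ≤ gU v u := by
  unfold gU; positivity

lemma gU_low (v : V → Z → Bool) (u : V) (h : ¬ 4 ≤ (nbL v u).card) : gU v u ≤ 27 := by
  classical
  unfold gU
  calc ∏ r ∈ (VT (maxPack v))ᶜ, ((allowed v u r).card : ℝ)
      ≤ ∏ r ∈ (VT (maxPack v))ᶜ, (if Vcmp v u r then (3 : ℝ) else 1) := by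
        apply Finset.prod_le_prod
        · intros; positivity
        · intro r _
          split_ifs with hc
          · exact_mod_cast card_allowed_le3 v u r
          · exact_mod_cast card_allowed_le1 v u r hc
    _ = 3 ^ (nbL v u).card := by
        rw [Finset.prod_ite, Finset.prod_const, Finset.prod_const_one, mul_one]
        rfl
    _ ≤ 3 ^ 3 := pow_le_pow_right₀ (by norm_num) (by omega)
    _ = 27 := by norm_num

lemma gU_high (v : V → Z → Bool) (u : V) :
    gU v u ≤ 9 / 4 * 2 ^ ((VT (maxPack v))ᶜ).card := by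
  classical
  unfold gU
  calc ∏ r ∈ (VT (maxPack v))ᶜ, ((allowed v u r).card : ℝ)
      ≤ ∏ r ∈ (VT (maxPack v))ᶜ, (2 * (if v r = v u then (3 / 2 : ℝ) else 1)) := by
        apply Finset.prod_le_prod
        · intros; positivity
        · intro r _
          split_ifs with hc
          · have := card_allowed_le3 v u r
            have h3 : ((allowed v u r).card : ℝ) ≤ 3 := by exact_mod_cast this
            linarith
          · have := card_allowed_le2 v u r hc
            have h3 : ((allowed v u r).card : ℝ) ≤ 2 := by exact_mod_cast this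
            linarith
    _ = 2 ^ ((VT (maxPack v))ᶜ).card *
        (3 / 2) ^ ((VT (maxPack v))ᶜ.filter fun r => v r = v u).card := by
        rw [Finset.prod_mul_distrib, Finset.prod_const, Finset.prod_ite, Finset.prod_const,
          Finset.prod_const_one, mul_one]
    _ ≤ 2 ^ ((VT (maxPack v))ᶜ).card * (3 / 2) ^ 2 := by
        apply mul_le_mul_of_nonneg_left _ (by positivity)
        exact pow_le_pow_right₀ (by norm_num) (card_eq_le v u)
    _ = _ := by ring

lemma gU_block (v : V → Z → Bool) {t : T3 V} (ht : t ∈ maxPack v) :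
    ∏ u ∈ supp3 t, gU v u ≤ 2 ^ 11 * 2 ^ ((VT (maxPack v))ᶜ).card := by
  classical
  obtain ⟨n1, n2, n3⟩ := (maxPack_isPack v).ne t ht
  have hprod : ∏ u ∈ supp3 t, gU v u = gU v t.1 * (gU v t.2.1 * gU v t.2.2.1) := by
    unfold supp3
    rw [prod_insert, prod_insert, prod_singleton]
    · simpa using n2
    · simp only [mem_insert, mem_singleton, not_or]
      exact ⟨n1, n3⟩
  rw [hprod]
  set N : ℝ := 2 ^ ((VT (maxPack v))ᶜ).card with hN
  have hNpos : 0 < N := by positivity
  have key : ∀ a b c : ℝ, 0 ≤ a → 0 ≤ b → 0 ≤ c → a ≤ 9 / 4 * N → b ≤ 27 → c ≤ 27 →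
      a * (b * c) ≤ 2 ^ 11 * N := by
    intro a b c ha hb hc h1 h2 h3
    have h4 : b * c ≤ 27 * 27 := mul_le_mul h2 h3 hc (by norm_num)
    calc a * (b * c) ≤ (9 / 4 * N) * (27 * 27) :=
          mul_le_mul h1 h4 (by positivity) (by positivity)
      _ ≤ 2 ^ 11 * N := by nlinarith
  have g1 := gU_nonneg v t.1
  have g2 := gU_nonneg v t.2.1
  have g3 := gU_nonneg v t.2.2.1
  have H1 := gU_high v t.1
  have H2 := gU_high v t.2.1
  have H3 := gU_high v t.2.2.1
  rw [← hN] at H1 H2 H3
  by_cases c1 : 4 ≤ (nbL v t.1).card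
  · have l2 : ¬ 4 ≤ (nbL v t.2.1).card := fun h =>
      one_high ht (mem_supp3_1 t) (mem_supp3_2 t) n1 c1 h
    have l3 : ¬ 4 ≤ (nbL v t.2.2.1).card := fun h =>
      one_high ht (mem_supp3_1 t) (mem_supp3_3 t) n3 c1 h
    exact key _ _ _ g1 g2 g3 H1 (gU_low v _ l2) (gU_low v _ l3)
  · have L1 := gU_low v _ c1
    by_cases c2 : 4 ≤ (nbL v t.2.1).card
    · have l3 : ¬ 4 ≤ (nbL v t.2.2.1).card := fun h =>
        one_high ht (mem_supp3_2 t) (mem_supp3_3 t) n2 c2 h
      have := key _ _ _ g2 g1 g3 H2 L1 (gU_low v _ l3)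
      calc _ = gU v t.2.1 * (gU v t.1 * gU v t.2.2.1) := by ring
        _ ≤ _ := this
    · have L2 := gU_low v _ c2
      have := key _ _ _ g3 g1 g2 H3 L1 L2
      calc _ = gU v t.2.2.1 * (gU v t.1 * gU v t.2.1) := by ring
        _ ≤ _ := this

lemma prod_gU (v : V → Z → Bool) :
    ∏ u ∈ VT (maxPack v), gU v u ≤
      (2 ^ 11 * 2 ^ ((VT (maxPack v))ᶜ).card) ^ (maxPack v).card := by
  classical
  have hp := maxPack_isPack v
  unfold VT
  rw [Finset.prod_biUnion hp.disj]
  calc _ ≤ ∏ _t ∈ maxPack v, (2 ^ 11 * 2 ^ ((VT (maxPack v))ᶜ).card : ℝ) := by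
        apply Finset.prod_le_prod
        · intro t _
          exact Finset.prod_nonneg fun u _ => gU_nonneg v u
        · intro t ht
          exact gU_block v ht
    _ = _ := by rw [Finset.prod_const]; rfl

open Classical in
/-- Relations outside of the packing. -/
noncomputable def relM (R : V → V → Prop) (T : Finset (T3 V)) : Finset (V × V) :=
  univ.filter fun q => q.1 ∉ VT T ∧ q.2 ∉ VT T ∧ q.1 ≠ q.2 ∧ R q.1 q.2

lemma card_PO_bound' (k : ℕ) (X : Type) [Fintype X] (hX : Fintype.card X ≤ k) :
    ((PO X).card : ℝ) ≤ (k * bigW k) ^ Fintype.card X *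
      (11 : ℝ) ^ ((Fintype.card X : ℝ) ^ 2 / 10) := by
  rcases Nat.eq_zero_or_pos k with h | h
  · have h0 : Fintype.card X = 0 := by omega
    have h1 := card_PO_bound 1 le_rfl X (by omega)
    rw [h0] at h1 ⊢
    simpa using h1
  · exact card_PO_bound k h X hX

open Classical in
/-- For a fixed `v`, the number of compatible partial orders with given `relM`. -/
lemma card_rel_le (v : V → Z → Bool) (M : Finset (V × V)) :
    ((univ.filter fun R : V → V → Prop => IsCfg (R, v) ∧ relM R (maxPack v) = M).card : ℝ) ≤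
      (Fintype.card V * bigW (Fintype.card V)) ^ (3 * (maxPack v).card) *
        (11 : ℝ) ^ (((3 * (maxPack v).card : ℕ) : ℝ) ^ 2 / 10) *
      (2 ^ 11 * 2 ^ (Fintype.card V - 3 * (maxPack v).card)) ^ (maxPack v).card := by
  have hp := maxPack_isPack v
  have hcV : (VT (maxPack v)).card = 3 * (maxPack v).card := card_VT hp.ne hp.disj
  have hcL : ((VT (maxPack v))ᶜ).card = Fintype.card V - 3 * (maxPack v).card := by
    rw [card_compl, hcV]
  set S := VT (maxPack v) with hS
  have hinj : (univ.filter fun R : V → V → Prop => IsCfg (R, v) ∧ relM R (maxPack v) = M).card ≤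
      ((PO S) ×ˢ (Fintype.piFinset fun q : S × (Sᶜ : Finset V) => allowed v q.1 q.2)).card := by
    apply Finset.card_le_card_of_injOn
      (fun R => ((fun x y : S => R x y), fun q : S × (Sᶜ : Finset V) =>
        (decide (R q.1 q.2), decide (R q.2 q.1))))
    · intro R hR
      simp only [coe_filter, mem_univ, true_and, Set.mem_setOf_eq] at hR
      obtain ⟨⟨hPO, hdown⟩, _⟩ := hR
      simp only [coe_product, Set.mem_prod, mem_coe]
      constructor
      · rw [mem_PO]
        exact ⟨fun x => hPO.1 _, fun x y h1 h2 => Subtype.ext (hPO.2.1 _ _ h1 h2),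
          fun x y z h1 h2 => hPO.2.2 _ _ _ h1 h2⟩
      · rw [Fintype.mem_piFinset]
        intro q
        unfold allowed
        rw [mem_filter]
        refine ⟨mem_univ _, ?_, ?_, ?_⟩
        · intro h
          simp only [decide_eq_true_eq] at h
          exact fun z hz => hdown _ _ h z hz
        · intro h
          simp only [decide_eq_true_eq] at h
          exact fun z hz => hdown _ _ h z hz
        · rintro ⟨h1, h2⟩
          simp only [decide_eq_true_eq] at h1 h2
          have heq : (q.1 : V) = q.2 := hPO.2.1 _ _ h1 h2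
          have h3 := q.2.2
          rw [mem_compl, ← heq] at h3
          exact h3 q.1.2
    · intro R hR R' hR' h
      simp only [coe_filter, mem_univ, true_and, Set.mem_setOf_eq] at hR hR'
      simp only [Prod.mk.injEq] at h
      obtain ⟨ha, hb⟩ := h
      have hmid : ∀ x ∈ S, ∀ y ∉ S, (R x y ↔ R' x y) ∧ (R y x ↔ R' y x) := by
        intro x hx y hy
        have := congrFun hb (⟨x, hx⟩, ⟨y, by rw [mem_compl]; exact hy⟩)
        simpa using this
      funext x y
      apply propext
      by_cases hx : x ∈ S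
      · by_cases hy : y ∈ S
        · have := congrFun (congrFun ha ⟨x, hx⟩) ⟨y, hy⟩
          simpa using this
        · exact (hmid x hx y hy).1
      · by_cases hy : y ∈ S
        · exact (hmid y hy x hx).2
        · by_cases hxy : x = y
          · rw [hxy]
            exact ⟨fun _ => hR'.1.1.1 y, fun _ => hR.1.1.1 y⟩
          · have e : relM R (maxPack v) = relM R' (maxPack v) := hR.2.trans hR'.2.symm
            have e1 : (x, y) ∈ relM R (maxPack v) ↔ R x y := by
              unfold relM
              rw [mem_filter]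
              simp [hx, hy, hxy, ← hS]
            have e2 : (x, y) ∈ relM R' (maxPack v) ↔ R' x y := by
              unfold relM
              rw [mem_filter]
              simp [hx, hy, hxy, ← hS]
            rw [← e1, ← e2, e]
  have h1 : ((PO S).card : ℝ) ≤ (Fintype.card V * bigW (Fintype.card V)) ^ (3 * (maxPack v).card) *
        (11 : ℝ) ^ (((3 * (maxPack v).card : ℕ) : ℝ) ^ 2 / 10) := by
    have hb := card_PO_bound' (Fintype.card V) S (by rw [Fintype.card_coe]; exact card_le_univ _)
    rw [Fintype.card_coe, hcV] at hb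
    exact hb
  have h2 : (((Fintype.piFinset fun q : S × (Sᶜ : Finset V) => allowed v q.1 q.2).card : ℕ) : ℝ) ≤
      (2 ^ 11 * 2 ^ (Fintype.card V - 3 * (maxPack v).card)) ^ (maxPack v).card := by
    rw [Fintype.card_piFinset]
    push_cast
    rw [Fintype.prod_prod_type]
    have e1 : ∀ x : S, ∏ y : (Sᶜ : Finset V), ((allowed v x y).card : ℝ) = gU v x := by
      intro x
      unfold gU
      exact Finset.prod_coe_sort (Sᶜ) (fun y => ((allowed v x y).card : ℝ))
    rw [Finset.prod_congr rfl fun x _ => e1 x]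
    rw [Finset.prod_coe_sort S (fun x => gU v x)]
    have := prod_gU v
    rw [← hS, hcL] at this
    exact this
  calc ((univ.filter fun R : V → V → Prop => IsCfg (R, v) ∧ relM R (maxPack v) = M).card : ℝ)
      ≤ (((PO S) ×ˢ (Fintype.piFinset fun q : S × (Sᶜ : Finset V) =>
        allowed v q.1 q.2)).card : ℝ) := by exact_mod_cast hinj
    _ = ((PO S).card : ℝ) * ((Fintype.piFinset fun q : S × (Sᶜ : Finset V) =>
        allowed v q.1 q.2).card : ℝ) := by rw [card_product]; push_cast; rfl
    _ ≤ _ := mul_le_mul h1 h2 (by positivity) (by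
        have : 0 ≤ bigW (Fintype.card V) := by unfold bigW; positivity
        positivity)

end Pool.Agent.MP72200a
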