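import Pool.Agent.MP72200a.Main

/-!
# The quantity `C(n,k)² k! (2/n)^k` near its maximum
-/

namespace Pool.Agent.MP72200a

open Finset Real Filter Topology

/-- The quantity `C(n,k)² k! (2/n)^k`. -/
noncomputable def Vk (n k : ℕ) : ℝ := (n.choose k : ℝ) ^ 2 * k.factorial * (2 / (n : ℝ)) ^ k

lemma Vk_nonneg (n k : ℕ) : 0 ≤ Vk n k := by unfold Vk; positivity

lemma Vk_succ {n k : ℕ} (hn : 1 ≤ n) (hk : k ≤ n) :
    Vk n (k + 1) * ((n : ℝ) * (k + 1)) = Vk n k * (2 * ((n : ℝ) - k) ^ 2) := by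
  have hn0 : (n : ℝ) ≠ 0 := by positivity
  have h1 : (n.choose (k + 1) : ℝ) * (k + 1) = n.choose k * ((n : ℝ) - k) := by
    have := Nat.choose_succ_right_eq n k
    rw [← Nat.cast_sub hk]
    exact_mod_cast this
  unfold Vk
  rw [Nat.factorial_succ, pow_succ (2 / (n : ℝ)) k]
  push_cast
  have h2 : (n.choose (k + 1) : ℝ) ^ 2 * ((k + 1) * k.factorial) * ((2 / (n : ℝ)) ^ k * (2 / n)) *
      ((n : ℝ) * (k + 1)) = ((n.choose (k + 1) : ℝ) * (k + 1)) ^ 2 * k.factorial *
        (2 / (n : ℝ)) ^ k * (2 / n * n) := by ring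
  rw [h2, h1, div_mul_cancel₀ _ hn0]
  ring

/-- going down from the centre -/
lemma Vk_le_of_lt {n k : ℕ} (hn : 1 ≤ n) (hk : k < n / 2) : Vk n k ≤ Vk n (k + 1) := by
  have h := Vk_succ hn (show k ≤ n by omega)
  have hV := Vk_nonneg n k
  have hV1 := Vk_nonneg n (k + 1)
  have a1 : 2 * (k + 1) ≤ n := by omega
  have a2 : (2 : ℝ) * (k + 1) ≤ n := by exact_mod_cast a1
  have hk0 : (0 : ℝ) ≤ k := by positivity
  have hn0 : (1 : ℝ) ≤ n := by exact_mod_cast hn
  have h2 : (n : ℝ) * (k + 1) ≤ 2 * ((n : ℝ) - k) ^ 2 := by nlinarith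
  have h3 : 0 < (n : ℝ) * (k + 1) := by positivity
  by_contra hc
  push Not at hc
  have : Vk n (k + 1) * ((n : ℝ) * (k + 1)) < Vk n k * ((n : ℝ) * (k + 1)) :=
    mul_lt_mul_of_pos_right hc h3
  have h4 : Vk n k * ((n : ℝ) * (k + 1)) ≤ Vk n k * (2 * ((n : ℝ) - k) ^ 2) :=
    mul_le_mul_of_nonneg_left h2 hV
  linarith

lemma Vk_le_of_gt {n k : ℕ} (hn : 1 ≤ n) (hk : n / 2 < k) (hkn : k ≤ n) :
    Vk n (k + 1) ≤ Vk n k := by
  have h := Vk_succ hn hkn
  have hV := Vk_nonneg n k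
  have a1 : n + 1 ≤ 2 * k := by omega
  have a2 : (n : ℝ) + 1 ≤ 2 * k := by exact_mod_cast a1
  have a3 : (k : ℝ) ≤ n := by exact_mod_cast hkn
  have hn0 : (1 : ℝ) ≤ n := by exact_mod_cast hn
  have h2 : 2 * ((n : ℝ) - k) ^ 2 ≤ (n : ℝ) * (k + 1) := by nlinarith
  have h3 : 0 < (n : ℝ) * (k + 1) := by positivity
  by_contra hc
  push Not at hc
  have : Vk n k * ((n : ℝ) * (k + 1)) < Vk n (k + 1) * ((n : ℝ) * (k + 1)) :=
    mul_lt_mul_of_pos_right hc h3
  have h4 : Vk n k * (2 * ((n : ℝ) - k) ^ 2) ≤ Vk n k * ((n : ℝ) * (k + 1)) :=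
    mul_le_mul_of_nonneg_left h2 hV
  linarith

lemma Vk_mid {n : ℕ} (hn : 1 ≤ n) : Vk n (n / 2 + 1) ≤ (1 + 1 / (n : ℝ)) * Vk n (n / 2) := by
  have h := Vk_succ hn (show n / 2 ≤ n by omega)
  have hV := Vk_nonneg n (n / 2)
  have hn0 : (1 : ℝ) ≤ n := by exact_mod_cast hn
  have h2 : 2 * ((n : ℝ) - (n / 2 : ℕ)) ^ 2 ≤ ((n : ℝ) + 1) * ((n / 2 : ℕ) + 1) := by
    rcases Nat.even_or_odd' n with ⟨m, hm | hm⟩
    · have e : n / 2 = m := by omega
      rw [e, hm]
      push_cast
      have : (0 : ℝ) ≤ m := by positivity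
      nlinarith
    · have e : n / 2 = m := by omega
      rw [e, hm]
      push_cast
      have : (0 : ℝ) ≤ m := by positivity
      nlinarith
  have h3 : 0 < (n : ℝ) * ((n / 2 : ℕ) + 1) := by positivity
  by_contra hc
  push Not at hc
  have h5 : (1 + 1 / (n : ℝ)) * Vk n (n / 2) * ((n : ℝ) * ((n / 2 : ℕ) + 1)) <
      Vk n (n / 2 + 1) * ((n : ℝ) * ((n / 2 : ℕ) + 1)) :=
    mul_lt_mul_of_pos_right hc h3
  have h6 : (1 + 1 / (n : ℝ)) * Vk n (n / 2) * ((n : ℝ) * ((n / 2 : ℕ) + 1)) =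
      Vk n (n / 2) * (((n : ℝ) + 1) * ((n / 2 : ℕ) + 1)) := by
    field_simp
  have h4 : Vk n (n / 2) * (2 * ((n : ℝ) - (n / 2 : ℕ)) ^ 2) ≤
      Vk n (n / 2) * (((n : ℝ) + 1) * ((n / 2 : ℕ) + 1)) :=
    mul_le_mul_of_nonneg_left h2 hV
  linarith

/-- The maximum is attained near the centre, up to a factor `1 + 1/n`. -/
lemma Vk_le_center {n k : ℕ} (hn : 1 ≤ n) (hkn : k ≤ n) :
    Vk n k ≤ (1 + 1 / (n : ℝ)) * Vk n (n / 2) := by
  have hV := Vk_nonneg n (n / 2)
  have hn0 : (1 : ℝ) ≤ n := by exact_mod_cast hn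
  have h1n : 0 < 1 / (n : ℝ) := by positivity
  rcases le_or_gt k (n / 2) with h | h
  · have key : ∀ d, ∀ k, k + d = n / 2 → Vk n k ≤ Vk n (n / 2) := by
      intro d
      induction d with
      | zero => intro k hk; rw [show k = n / 2 by omega]
      | succ d ih =>
        intro k hk
        exact (Vk_le_of_lt hn (by omega)).trans (ih (k + 1) (by omega))
    have := key (n / 2 - k) k (by omega)
    nlinarith
  · have key : ∀ d, n / 2 + 1 + d ≤ n → Vk n (n / 2 + 1 + d) ≤ Vk n (n / 2 + 1) := by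
      intro d
      induction d with
      | zero => intro _; exact le_refl _
      | succ d ih =>
        intro hd
        exact (Vk_le_of_gt (k := n / 2 + 1 + d) hn (by omega) (by omega)).trans (ih (by omega))
    have h2 := key (k - (n / 2 + 1)) (by omega)
    rw [show n / 2 + 1 + (k - (n / 2 + 1)) = k by omega] at h2
    exact h2.trans (Vk_mid hn)

/-- Combining the steps. -/
lemma step_combine {V V0 a b c x : ℝ} (hV0 : 0 ≤ V0) (hx : 0 ≤ x) (ha : 0 ≤ a) (hb : 0 ≤ b)
    (h1 : (1 - a) * V0 ≤ V) (h2 : (1 - b) * V ≤ x) (hc : a + b ≤ c) (hbc : 1 < b → 1 ≤ c) :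
    (1 - c) * V0 ≤ x := by
  rcases le_or_gt b 1 with h | h
  · have h3 : (1 - b) * ((1 - a) * V0) ≤ (1 - b) * V :=
      mul_le_mul_of_nonneg_left h1 (by linarith)
    have h4 : (1 - c) * V0 ≤ (1 - b) * (1 - a) * V0 := by
      apply mul_le_mul_of_nonneg_right _ hV0
      nlinarith
    nlinarith
  · have := hbc h
    nlinarith

lemma Vk_up {n : ℕ} (hn : 1 ≤ n) (i : ℕ) :
    (1 - 9 * (i : ℝ) ^ 2 / n) * Vk n (n / 2) ≤ Vk n (n / 2 + i) := by
  have hn0 : (1 : ℝ) ≤ n := by exact_mod_cast hn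
  have hnpos : (0 : ℝ) < n := by linarith
  have hV0 := Vk_nonneg n (n / 2)
  induction i with
  | zero => simp
  | succ i ih =>
    apply step_combine (b := 9 * ((i : ℝ) + 1) / n) hV0 (Vk_nonneg _ _) _ _ ih _ _ _
    · positivity
    · positivity
    · -- step ratio
      rcases le_or_gt (n / 2 + i) n with hin | hin
      · have h := Vk_succ hn hin
        have hV := Vk_nonneg n (n / 2 + i)
        rw [← add_assoc]
        set V := Vk n (n / 2 + i) with hVdef
        set W := Vk n (n / 2 + i + 1) with hWdef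
        have hm1 : (n : ℝ) ≤ 2 * ((n / 2 : ℕ) : ℝ) + 1 := by
          have : n ≤ 2 * (n / 2) + 1 := by omega
          exact_mod_cast this
        have hm2 : 2 * ((n / 2 : ℕ) : ℝ) ≤ n := by
          have : 2 * (n / 2) ≤ n := by omega
          exact_mod_cast this
        have hin' : ((n / 2 : ℕ) : ℝ) + i ≤ n := by exact_mod_cast hin
        push_cast at h
        set m : ℝ := ((n / 2 : ℕ) : ℝ) with hm
        have hi0 : (0 : ℝ) ≤ i := by positivity
        have hm0 : 0 ≤ m := by rw [hm]; positivity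
        have h3 : 0 < (n : ℝ) * (m + i + 1) := by positivity
        have h2 : (1 - 9 * ((i : ℝ) + 1) / n) * ((n : ℝ) * (m + i + 1)) ≤
            2 * ((n : ℝ) - (m + i)) ^ 2 := by
          have e : (1 - 9 * ((i : ℝ) + 1) / n) * ((n : ℝ) * (m + i + 1)) =
            (n - 9 * (i + 1)) * (m + i + 1) := by field_simp
          rw [e]
          nlinarith [sq_nonneg ((n : ℝ) - m - i), mul_nonneg hi0 hi0, mul_nonneg hi0 hm0]
        by_contra hc
        push Not at hc
        have h5 := mul_lt_mul_of_pos_right hc h3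
        have h6 := mul_le_mul_of_nonneg_right h2 hV
        nlinarith
      · have hz : Vk n (n / 2 + i) = 0 := by
          unfold Vk
          rw [Nat.choose_eq_zero_of_lt hin]
          simp
        rw [hz, mul_zero]
        exact Vk_nonneg _ _
    · rw [← add_div]
      apply div_le_div_of_nonneg_right _ hnpos.le
      push_cast
      have hi0 : (0 : ℝ) ≤ i := by positivity
      nlinarith
    · intro h
      rw [one_lt_div hnpos] at h
      rw [le_div_iff₀ hnpos]
      push_cast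
      have hi0 : (0 : ℝ) ≤ i := by positivity
      nlinarith

lemma Vk_down {n : ℕ} (hn : 1 ≤ n) (i : ℕ) (hi : i ≤ n / 2) :
    (1 - 9 * (i : ℝ) ^ 2 / n) * Vk n (n / 2) ≤ Vk n (n / 2 - i) := by
  have hn0 : (1 : ℝ) ≤ n := by exact_mod_cast hn
  have hnpos : (0 : ℝ) < n := by linarith
  have hV0 := Vk_nonneg n (n / 2)
  induction i with
  | zero => simp
  | succ i ih =>
    have ih' := ih (by omega)
    apply step_combine (b := 9 * ((i : ℝ) + 1) / n) hV0 (Vk_nonneg _ _) _ _ ih' _ _ _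
    · positivity
    · positivity
    · -- step ratio
      have h := Vk_succ hn (show n / 2 - (i + 1) ≤ n by omega)
      have hV := Vk_nonneg n (n / 2 - (i + 1))
      have hW := Vk_nonneg n (n / 2 - i)
      rw [show n / 2 - (i + 1) + 1 = n / 2 - i by omega] at h
      set V := Vk n (n / 2 - i) with hVdef
      set W := Vk n (n / 2 - (i + 1)) with hWdef
      have hm1 : (n : ℝ) ≤ 2 * ((n / 2 : ℕ) : ℝ) + 1 := by
        have : n ≤ 2 * (n / 2) + 1 := by omega
        exact_mod_cast this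
      have hm2 : 2 * ((n / 2 : ℕ) : ℝ) ≤ n := by
        have : 2 * (n / 2) ≤ n := by omega
        exact_mod_cast this
      have hin' : (i : ℝ) + 1 ≤ ((n / 2 : ℕ) : ℝ) := by exact_mod_cast hi
      rw [Nat.cast_sub hi] at h
      push_cast at h
      set m : ℝ := ((n / 2 : ℕ) : ℝ) with hm
      have hi0 : (0 : ℝ) ≤ i := by positivity
      have hm0 : 0 ≤ m := by rw [hm]; positivity
      have h3 : 0 < 2 * ((n : ℝ) - (m - (i + 1))) ^ 2 := by
        have : 0 < (n : ℝ) - (m - (i + 1)) := by linarith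
        positivity
      have h2 : (1 - 9 * ((i : ℝ) + 1) / n) * (2 * ((n : ℝ) - (m - (i + 1))) ^ 2) ≤
          (n : ℝ) * (m - (i + 1) + 1) := by
        rcases le_or_gt (n : ℝ) (9 * (i + 1)) with h9 | h9
        · have : (1 - 9 * ((i : ℝ) + 1) / n) ≤ 0 := by
            rw [sub_nonpos, le_div_iff₀ hnpos]; linarith
          have h10 : (1 - 9 * ((i : ℝ) + 1) / n) * (2 * ((n : ℝ) - (m - (i + 1))) ^ 2) ≤ 0 :=
            mul_nonpos_of_nonpos_of_nonneg this h3.le
          have h11 : 0 ≤ (n : ℝ) * (m - (i + 1) + 1) := by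
            apply mul_nonneg hnpos.le
            linarith
          linarith
        · have h12 : (1 - 9 * ((i : ℝ) + 1) / n) * (2 * ((n : ℝ) - (m - (i + 1))) ^ 2) =
            (n - 9 * (i + 1)) * (2 * ((n : ℝ) - (m - (i + 1))) ^ 2) / n := by field_simp
          rw [h12, div_le_iff₀ hnpos]
          have h13 : (n : ℝ) - (m - (i + 1)) ≤ (n + 2 * i + 3) / 2 := by linarith
          have h14 : 0 ≤ (n : ℝ) - (m - (i + 1)) := by linarith
          have h15 : ((n : ℝ) - (m - (i + 1))) ^ 2 ≤ ((n + 2 * i + 3) / 2) ^ 2 :=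
            pow_le_pow_left₀ h14 h13 2
          have h16 : (n - 9 * ((i : ℝ) + 1)) * (2 * ((n : ℝ) - (m - (i + 1))) ^ 2) ≤
              (n - 9 * ((i : ℝ) + 1)) * (2 * ((n + 2 * i + 3) / 2) ^ 2) := by
            apply mul_le_mul_of_nonneg_left _ (by linarith)
            linarith
          have h17 : (n - 9 * ((i : ℝ) + 1)) * (2 * ((n + 2 * i + 3) / 2) ^ 2) ≤
              (n : ℝ) * ((n - 1 - 2 * i) / 2) * n := by
            nlinarith [mul_nonneg hi0 hi0, mul_nonneg hi0 hnpos.le,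
              mul_nonneg (mul_nonneg hi0 hi0) hi0, mul_nonneg (mul_nonneg hi0 hi0) hnpos.le,
              mul_nonneg (mul_nonneg hi0 hnpos.le) hnpos.le, sub_pos.mpr h9]
          have h18 : (n : ℝ) * ((n - 1 - 2 * i) / 2) * n ≤ (n : ℝ) * (m - (i + 1) + 1) * n := by
            apply mul_le_mul_of_nonneg_right _ hnpos.le
            apply mul_le_mul_of_nonneg_left _ hnpos.le
            linarith
          linarith
      by_contra hc
      push Not at hc
      have h5 := mul_lt_mul_of_pos_right hc h3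
      have h6 := mul_le_mul_of_nonneg_right h2 hW
      nlinarith
    · rw [← add_div]
      apply div_le_div_of_nonneg_right _ hnpos.le
      push_cast
      have hi0 : (0 : ℝ) ≤ i := by positivity
      nlinarith
    · intro h
      rw [one_lt_div hnpos] at h
      rw [le_div_iff₀ hnpos]
      push_cast
      have hi0 : (0 : ℝ) ≤ i := by positivity
      nlinarith

end Pool.Agent.MP72200a
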