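import Pool.Agent.MP72200a.Defs

/-!
# Structure of regular Boolean matrices

`Prime A q p` says that row `q` is the least row containing column `p`.  A matrix is regular iff
each of its entries equal to `1` is covered by such a pair.
-/

namespace Pool.Agent.MP72200a

open Finset

variable {n : ℕ}

lemma bmul_apply (A B : BMat n) (i j : Fin n) :
    bmul A B i j = true ↔ ∃ k, A i k = true ∧ B k j = true := by
  unfold bmul
  have : (Finset.univ.sup fun k => min (A i k) (B k j)) = true ↔
      false < (Finset.univ.sup fun k => min (A i k) (B k j)) := by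
    cases (Finset.univ.sup fun k => min (A i k) (B k j)) <;> simp
  rw [this, show (false : Bool) = ⊥ from rfl, Finset.lt_sup_iff]
  constructor
  · rintro ⟨k, _, hk⟩
    refine ⟨k, ?_⟩
    revert hk
    cases A i k <;> cases B k j <;> simp
  · rintro ⟨k, h1, h2⟩
    refine ⟨k, mem_univ _, ?_⟩
    rw [h1, h2]
    decide

/-- Row `q` contains column `p`, and every row containing `p` contains the whole row `q`. -/
def Prm (A : BMat n) (q p : Fin n) : Prop :=
  A q p = true ∧ ∀ i, A i p = true → ∀ j, A q j = true → A i j = true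

lemma isRegular_of_cover {A : BMat n}
    (h : ∀ i j, A i j = true → ∃ q p, Prm A q p ∧ A i p = true ∧ A q j = true) :
    IsRegular A := by
  classical
  refine ⟨fun p q => decide (Prm A q p), ?_⟩
  funext i j
  rw [Bool.eq_iff_iff]
  rw [bmul_apply]
  constructor
  · rintro ⟨q, h1, h2⟩
    rw [bmul_apply] at h1
    obtain ⟨p, h3, h4⟩ := h1
    rw [decide_eq_true_iff] at h4
    exact h4.2 i h3 j h2
  · intro hij
    obtain ⟨q, p, hqp, hip, hqj⟩ := h i j hij
    refine ⟨q, ?_, hqj⟩
    rw [bmul_apply]
    exact ⟨p, hip, by rw [decide_eq_true_iff]; exact hqp⟩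

lemma cover_of_isRegular {A : BMat n} (hA : IsRegular A) :
    ∀ i j, A i j = true → ∃ q p, Prm A q p ∧ A i p = true ∧ A q j = true := by
  classical
  obtain ⟨X, hX⟩ := hA
  have key : ∀ i j, A i j = true ↔ ∃ p q, A i p = true ∧ X p q = true ∧ A q j = true := by
    intro i j
    conv_lhs => rw [← hX]
    rw [bmul_apply]
    constructor
    · rintro ⟨q, h1, h2⟩
      rw [bmul_apply] at h1
      obtain ⟨p, h3, h4⟩ := h1
      exact ⟨p, q, h3, h4, h2⟩
    · rintro ⟨p, q, h1, h2, h3⟩
      exact ⟨q, (bmul_apply _ _ _ _).mpr ⟨p, h1, h2⟩, h3⟩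
  suffices H : ∀ m : ℕ, ∀ i, (univ.filter fun j => A i j = true).card = m →
      ∀ j, A i j = true → ∃ q p, Prm A q p ∧ A i p = true ∧ A q j = true from
    fun i j hij => H _ i rfl j hij
  intro m
  induction m using Nat.strong_induction_on with
  | _ m ih =>
    intro i hi j hij
    obtain ⟨p, q, h1, h2, h3⟩ := (key i j).mp hij
    have hall : ∀ i', A i' p = true → ∀ j', A q j' = true → A i' j' = true :=
      fun i' h j' h' => (key i' j').mpr ⟨p, q, h, h2, h'⟩
    by_cases hqp : A q p = true
    · exact ⟨q, p, ⟨hqp, hall⟩, h1, h3⟩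
    · have hlt : (univ.filter fun j => A q j = true).card < m := by
        rw [← hi]
        apply Finset.card_lt_card
        rw [Finset.ssubset_iff_of_subset]
        · exact ⟨p, by simp [h1], by simp [hqp]⟩
        · intro j' hj'
          rw [mem_filter] at hj' ⊢
          exact ⟨mem_univ _, hall i h1 j' hj'.2⟩
      obtain ⟨q', p', hq', h4, h5⟩ := ih _ hlt q rfl j h3
      exact ⟨q', p', hq', hall i h1 p' h4, h5⟩

end Pool.Agent.MP72200a
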