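import Pool.Agent.MP72200a.Central

/-!
# The closed form
-/

namespace Pool.Agent.MP72200a

open Finset Real Filter Topology

/-- A term of the theta sum. -/
noncomputable def sk (n : ℕ) (k : ℤ) : ℝ :=
  ((n : ℝ) / 2) ^ ((k : ℝ) - n / 2) * (4 : ℝ) ^ (-((k : ℝ) - n / 2) ^ 2)

/-- The prefactor of the closed form. -/
noncomputable def Pn (n : ℕ) : ℝ :=
  (2 : ℝ) ^ ((n : ℝ) ^ 2 / 2 + 2 * n + 1) / √(π * n) * ((n : ℝ) / (2 * Real.exp 1)) ^ ((n : ℝ) / 2)

lemma sk_nonneg (n : ℕ) (k : ℤ) : 0 ≤ sk n k := by unfold sk; positivity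

lemma sk_pos {n : ℕ} (hn : 1 ≤ n) (k : ℤ) : 0 < sk n k := by
  have : (0 : ℝ) < n := by exact_mod_cast hn
  unfold sk; positivity

lemma Tk_eq {n k : ℕ} (hn : 1 ≤ n) (hk : k ≤ n) :
    Tk n k = Pn n * (cn n * (Vk n k * sk n k)) := by
  have hn0 : (0 : ℝ) < n := by exact_mod_cast hn
  have hn2 : (0 : ℝ) < (n : ℝ) / 2 := by positivity
  have hE : (0 : ℝ) < Real.exp 1 := Real.exp_pos _
  have h1 : ((n : ℝ) / (2 * Real.exp 1)) ^ ((n : ℝ) / 2) =
      ((n : ℝ) / 2) ^ ((n : ℝ) / 2) / Real.exp ((n : ℝ) / 2) := by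
    rw [← div_div, Real.div_rpow hn2.le hE.le, Real.exp_one_rpow]
  have h2 : ((n : ℝ) / 2) ^ (((k : ℤ) : ℝ) - n / 2) =
      ((n : ℝ) / 2) ^ k / ((n : ℝ) / 2) ^ ((n : ℝ) / 2) := by
    rw [Real.rpow_sub hn2, Int.cast_natCast, Real.rpow_natCast]
  have h3 : (2 / (n : ℝ)) ^ k * ((n : ℝ) / 2) ^ k = 1 := by
    rw [← mul_pow]
    have : 2 / (n : ℝ) * ((n : ℝ) / 2) = 1 := by field_simp
    rw [this, one_pow]
  have h4 : (2 : ℝ) ^ ((n : ℝ) ^ 2 / 2 + 2 * n + 1) * (4 : ℝ) ^ (-(((k : ℤ) : ℝ) - n / 2) ^ 2) =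
      4 ^ (k * (n - k)) * 2 ^ (2 * n + 1) := by
    have e4 : ∀ y : ℝ, (4 : ℝ) ^ y = (2 : ℝ) ^ (2 * y) := by
      intro y
      rw [show (4 : ℝ) = (2 : ℝ) ^ (2 : ℝ) by norm_num, ← Real.rpow_mul (by norm_num)]
    rw [e4, ← Real.rpow_natCast (4 : ℝ), e4, ← Real.rpow_natCast (2 : ℝ) (2 * n + 1),
      ← Real.rpow_add (by norm_num), ← Real.rpow_add (by norm_num)]
    congr 1
    rw [Nat.cast_mul, Nat.cast_sub hk]
    push_cast
    ring
  unfold Tk Pn cn Vk sk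
  rw [h1, h2]
  have hs : (0 : ℝ) < √(π * n) := by positivity
  have hX : (0 : ℝ) < ((n : ℝ) / 2) ^ ((n : ℝ) / 2) := by positivity
  have hY : (0 : ℝ) < Real.exp ((n : ℝ) / 2) := Real.exp_pos _
  have hZ : (0 : ℝ) < 2 ^ (2 * n + 1) := by positivity
  set s := √(π * n)
  set X := ((n : ℝ) / 2) ^ ((n : ℝ) / 2)
  set Y := Real.exp ((n : ℝ) / 2)
  set Z : ℝ := 2 ^ (2 * n + 1)
  set A := (2 : ℝ) ^ ((n : ℝ) ^ 2 / 2 + 2 * n + 1)
  set B := (4 : ℝ) ^ (-(((k : ℤ) : ℝ) - n / 2) ^ 2)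
  set D : ℝ := 4 ^ (k * (n - k))
  set u := (2 / (n : ℝ)) ^ k
  set v := ((n : ℝ) / 2) ^ k
  have e : A / s * (X / Y) * (s * Y / Z * ((n.choose k : ℝ) ^ 2 * k.factorial * u * (v / X * B))) =
      (n.choose k : ℝ) ^ 2 * k.factorial * (u * v) * (A * B) / Z := by
    field_simp
  rw [e, h3, h4]
  field_simp

lemma sk_shift {n : ℕ} (hn : 2 ≤ n) (i : ℤ) :
    sk n ((n / 2 : ℕ) + i) ≤ sk n (n / 2 : ℕ) * (2 * (n : ℝ) / 4 ^ i.natAbs) ^ i.natAbs := by
  have hn0 : (2 : ℝ) ≤ n := by exact_mod_cast hn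
  have hn2 : (1 : ℝ) ≤ (n : ℝ) / 2 := by linarith
  have hn2' : (0 : ℝ) < (n : ℝ) / 2 := by linarith
  have hm1 : (n : ℝ) ≤ 2 * ((n / 2 : ℕ) : ℝ) + 1 := by
    have : n ≤ 2 * (n / 2) + 1 := by omega
    exact_mod_cast this
  have hm2 : 2 * ((n / 2 : ℕ) : ℝ) ≤ n := by
    have : 2 * (n / 2) ≤ n := by omega
    exact_mod_cast this
  unfold sk
  push_cast
  set m : ℝ := ((n / 2 : ℕ) : ℝ) with hm
  set a := i.natAbs with ha
  have haabs : (a : ℝ) = |(i : ℝ)| := by rw [ha, Nat.cast_natAbs, Int.cast_abs]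
  have hia : (i : ℝ) ≤ a := by rw [haabs]; exact le_abs_self _
  have hia2 : -(i : ℝ) ≤ a := by rw [haabs]; exact neg_le_abs _
  have hia3 : (i : ℝ) ^ 2 = (a : ℝ) ^ 2 := by rw [haabs, sq_abs]
  have ha0 : (0 : ℝ) ≤ a := by positivity
  have e1 : ((n : ℝ) / 2) ^ (m + i - n / 2) ≤
      ((n : ℝ) / 2) ^ (m - n / 2) * ((n : ℝ) / 2) ^ a := by
    rw [← Real.rpow_natCast ((n : ℝ) / 2) a, ← Real.rpow_add hn2']
    apply Real.rpow_le_rpow_of_exponent_le hn2
    linarith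
  have e2 : (4 : ℝ) ^ (-(m + i - n / 2) ^ 2) ≤
      (4 : ℝ) ^ (-(m - n / 2) ^ 2) * ((4 : ℝ) ^ a / (4 ^ a) ^ a) := by
    have e3 : ((4 : ℝ) ^ a / (4 ^ a) ^ a) = (4 : ℝ) ^ ((a : ℝ) - (a : ℝ) ^ 2) := by
      rw [← pow_mul, Real.rpow_sub (by norm_num), Real.rpow_natCast]
      congr 1
      rw [← Real.rpow_natCast]
      congr 1
      push_cast
      ring
    rw [e3, ← Real.rpow_add (by norm_num)]
    apply Real.rpow_le_rpow_of_exponent_le (by norm_num)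
    rw [← hia3]
    rcases le_total 0 (i : ℝ) with h | h
    · nlinarith
    · nlinarith
  calc ((n : ℝ) / 2) ^ (m + i - n / 2) * (4 : ℝ) ^ (-(m + i - n / 2) ^ 2)
      ≤ (((n : ℝ) / 2) ^ (m - n / 2) * ((n : ℝ) / 2) ^ a) *
        ((4 : ℝ) ^ (-(m - n / 2) ^ 2) * ((4 : ℝ) ^ a / (4 ^ a) ^ a)) :=
        mul_le_mul e1 e2 (by positivity) (by positivity)
    _ = ((n : ℝ) / 2) ^ (m - n / 2) * (4 : ℝ) ^ (-(m - n / 2) ^ 2) *
        (2 * (n : ℝ) / 4 ^ a) ^ a := by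
        rw [div_pow (2 * (n : ℝ)), show 2 * (n : ℝ) = (n : ℝ) / 2 * 4 by ring, mul_pow]
        ring

lemma summable_half : Summable (fun i : ℤ => (1 / 2 : ℝ) ^ i.natAbs) := by
  apply Summable.of_nat_of_neg
  · simpa using summable_geometric_two
  · simpa using summable_geometric_two

lemma sk_tail {n J : ℕ} (hn : 2 ≤ n) (hr : 2 * (n : ℝ) / 4 ^ J ≤ 1 / 2) (i : ℤ)
    (hi : J < i.natAbs) :
    sk n ((n / 2 : ℕ) + i) ≤ sk n (n / 2 : ℕ) *
      (2 * (2 * (n : ℝ) / 4 ^ J) * (1 / 2) ^ i.natAbs) := by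
  refine (sk_shift hn i).trans ?_
  apply mul_le_mul_of_nonneg_left _ (sk_nonneg _ _)
  set a := i.natAbs with ha
  set r := 2 * (n : ℝ) / 4 ^ J with hrr
  have hr0 : 0 ≤ r := by rw [hrr]; positivity
  have h1 : 2 * (n : ℝ) / 4 ^ a ≤ r := by
    rw [hrr]
    apply div_le_div_of_nonneg_left (by positivity) (by positivity)
    exact pow_le_pow_right₀ (by norm_num) (by omega)
  obtain ⟨b, hb⟩ : ∃ b, a = b + 1 := ⟨a - 1, by omega⟩
  calc (2 * (n : ℝ) / 4 ^ a) ^ a ≤ r ^ a := pow_le_pow_left₀ (by positivity) h1 a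
    _ = r * r ^ b := by rw [hb, pow_succ]; ring
    _ ≤ r * (1 / 2) ^ b := by
        apply mul_le_mul_of_nonneg_left _ hr0
        exact pow_le_pow_left₀ hr0 hr b
    _ = 2 * r * (1 / 2) ^ a := by rw [hb, pow_succ]; ring

lemma summable_sk {n : ℕ} (hn : 2 ≤ n) : Summable (sk n) := by
  rw [← (Equiv.addLeft ((n / 2 : ℕ) : ℤ)).summable_iff]
  have hn0 : (2 : ℝ) ≤ n := by exact_mod_cast hn
  refine Summable.of_nonneg_of_le (fun i => sk_nonneg _ _)
    (fun i => ?_) (summable_half.mul_left (sk n (n / 2 : ℕ) * (4 * (n : ℝ)) ^ n))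
  simp only [Function.comp_apply, Equiv.coe_addLeft]
  refine (sk_shift hn i).trans ?_
  rw [mul_assoc]
  apply mul_le_mul_of_nonneg_left _ (sk_nonneg _ _)
  set a := i.natAbs with ha
  have h1 : (2 * (n : ℝ) / 4 ^ a) ^ a = (4 * (n : ℝ) / 4 ^ a) ^ a * (1 / 2) ^ a := by
    rw [← mul_pow]
    congr 1
    ring
  rw [h1]
  apply mul_le_mul_of_nonneg_right _ (by positivity)
  rcases le_or_gt n a with h | h
  · have h2 : 4 * (n : ℝ) / 4 ^ a ≤ 1 := by
      rw [div_le_one (by positivity)]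
      have h3 : n + 1 ≤ 4 ^ n / 3 ∨ True := Or.inr trivial
      have h4 : 4 * n ≤ 4 ^ a := by
        have h5 : n ≤ 4 ^ (n - 1) := by
          have : n - 1 < 4 ^ (n - 1) := Nat.lt_pow_self (by norm_num)
          omega
        calc 4 * n ≤ 4 * 4 ^ (n - 1) := by omega
          _ = 4 ^ n := by
              rw [← pow_succ']
              congr 1
              omega
          _ ≤ 4 ^ a := Nat.pow_le_pow_right (by norm_num) h
      exact_mod_cast h4
    calc (4 * (n : ℝ) / 4 ^ a) ^ a ≤ 1 := pow_le_one₀ (by positivity) h2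
      _ ≤ (4 * (n : ℝ)) ^ n := one_le_pow₀ (by linarith)
  · calc (4 * (n : ℝ) / 4 ^ a) ^ a ≤ (4 * (n : ℝ)) ^ a := by
          apply pow_le_pow_left₀ (by positivity)
          apply div_le_self (by positivity)
          exact one_le_pow₀ (by norm_num)
      _ ≤ (4 * (n : ℝ)) ^ n := pow_le_pow_right₀ (by linarith) h.le

/-- `Vk` extended to the integers by zero. -/
noncomputable def Vz (n : ℕ) (k : ℤ) : ℝ := if 0 ≤ k then Vk n k.toNat else 0

lemma Vz_nonneg (n : ℕ) (k : ℤ) : 0 ≤ Vz n k := by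
  unfold Vz
  split_ifs
  · exact Vk_nonneg _ _
  · exact le_refl _

lemma Vk_eq_zero {n k : ℕ} (h : n < k) : Vk n k = 0 := by
  unfold Vk
  rw [Nat.choose_eq_zero_of_lt h]
  simp

lemma Vz_le {n : ℕ} (hn : 1 ≤ n) (k : ℤ) : Vz n k ≤ (1 + 1 / (n : ℝ)) * Vk n (n / 2) := by
  have hV := Vk_nonneg n (n / 2)
  unfold Vz
  split_ifs with h
  · rcases le_or_gt k.toNat n with h1 | h1
    · exact Vk_le_center hn h1
    · rw [Vk_eq_zero h1]
      positivity
  · positivity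

lemma Vz_ge {n : ℕ} (hn : 1 ≤ n) (i : ℤ) (hi : i.natAbs ≤ n / 2) :
    (1 - 9 * (i.natAbs : ℝ) ^ 2 / n) * Vk n (n / 2) ≤ Vz n ((n / 2 : ℕ) + i) := by
  unfold Vz
  rw [if_pos (by omega)]
  rcases le_total 0 i with h | h
  · have e : (((n / 2 : ℕ) : ℤ) + i).toNat = n / 2 + i.natAbs := by omega
    rw [e]
    exact Vk_up hn _
  · have e : (((n / 2 : ℕ) : ℤ) + i).toNat = n / 2 - i.natAbs := by omega
    rw [e]
    exact Vk_down hn _ hi

lemma hasSum_Vz (n : ℕ) :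
    HasSum (fun k : ℤ => Vz n k * sk n k) (∑ k ∈ range (n + 1), Vk n k * sk n k) := by
  have h : ∑ k ∈ range (n + 1), Vk n k * sk n k =
      ∑ k ∈ (range (n + 1)).map Nat.castEmbedding, Vz n (k : ℤ) * sk n (k : ℤ) := by
    rw [Finset.sum_map]
    refine Finset.sum_congr rfl fun k _ => ?_
    simp [Vz]
  rw [h]
  apply hasSum_sum_of_ne_finset_zero
  intro k hk
  have : Vz n k = 0 := by
    unfold Vz
    split_ifs with h0
    · apply Vk_eq_zero
      by_contra hc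
      push Not at hc
      apply hk
      rw [Finset.mem_map]
      refine ⟨k.toNat, by rw [mem_range]; omega, ?_⟩
      simp [h0]
    · rfl
  rw [this, zero_mul]

lemma upper_theta {n : ℕ} (hn : 2 ≤ n) :
    ∑ k ∈ range (n + 1), Vk n k * sk n k ≤
      (1 + 1 / (n : ℝ)) * Vk n (n / 2) * ∑' k : ℤ, sk n k := by
  rw [← (hasSum_Vz n).tsum_eq, ← tsum_mul_left]
  apply Summable.tsum_le_tsum _ (hasSum_Vz n).summable ((summable_sk hn).mul_left _)
  intro k
  exact mul_le_mul_of_nonneg_right (Vz_le (by omega) k) (sk_nonneg _ _)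

/-- The constant `∑ 2^{-|i|}`. -/
noncomputable def hC : ℝ := ∑' i : ℤ, (1 / 2 : ℝ) ^ i.natAbs

lemma lower_theta {n J : ℕ} (hn : 2 ≤ n) (hJ : J ≤ n / 2) (hr : 2 * (n : ℝ) / 4 ^ J ≤ 1 / 2) :
    Vk n (n / 2) * (1 - 9 * (J : ℝ) ^ 2 / n - 2 * (2 * (n : ℝ) / 4 ^ J) * hC) *
      ∑' k : ℤ, sk n k ≤ ∑ k ∈ range (n + 1), Vk n k * sk n k := by
  have hn0 : (2 : ℝ) ≤ n := by exact_mod_cast hn
  have hS := summable_sk hn
  set V := Vk n (n / 2) with hV
  have hV0 : 0 ≤ V := Vk_nonneg _ _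
  set r := 2 * (n : ℝ) / 4 ^ J with hrr
  have hr0 : 0 ≤ r := by rw [hrr]; positivity
  set δ := 9 * (J : ℝ) ^ 2 / n with hδ
  have hδ0 : 0 ≤ δ := by rw [hδ]; positivity
  set s0 := sk n (n / 2 : ℕ) with hs0
  have hs0n : 0 ≤ s0 := sk_nonneg _ _
  have hs0le : s0 ≤ ∑' k : ℤ, sk n k := hS.le_tsum _ (fun j _ => sk_nonneg _ _)
  have hC0 : 0 ≤ hC := tsum_nonneg fun i => by positivity
  let e := Equiv.addLeft ((n / 2 : ℕ) : ℤ)
  have hshift : ∀ f : ℤ → ℝ, ∑' i : ℤ, f (((n / 2 : ℕ) : ℤ) + i) = ∑' k : ℤ, f k := fun f =>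
    e.tsum_eq f
  have hsumA : Summable (fun i : ℤ => Vz n ((n / 2 : ℕ) + i) * sk n ((n / 2 : ℕ) + i)) :=
    (e.summable_iff (f := fun k : ℤ => Vz n k * sk n k)).mpr (hasSum_Vz n).summable
  have hsumS : Summable (fun i : ℤ => sk n ((n / 2 : ℕ) + i)) :=
    (e.summable_iff (f := sk n)).mpr hS
  have key : ∀ i : ℤ, V * (1 - δ) * sk n ((n / 2 : ℕ) + i) - V * s0 * (2 * r) * (1 / 2) ^ i.natAbs ≤
      Vz n ((n / 2 : ℕ) + i) * sk n ((n / 2 : ℕ) + i) := by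
    intro i
    have hsi := sk_nonneg n ((n / 2 : ℕ) + i)
    have hpos : 0 ≤ V * s0 * (2 * r) * (1 / 2) ^ i.natAbs := by positivity
    rcases le_or_gt i.natAbs J with h | h
    · have h1 := Vz_ge (show 1 ≤ n by omega) i (h.trans hJ)
      have h2 : V * (1 - δ) ≤ (1 - 9 * (i.natAbs : ℝ) ^ 2 / n) * Vk n (n / 2) := by
        rw [mul_comm]
        apply mul_le_mul_of_nonneg_right _ hV0
        have : 9 * (i.natAbs : ℝ) ^ 2 / n ≤ δ := by
          rw [hδ]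
          apply div_le_div_of_nonneg_right _ (by linarith)
          have : (i.natAbs : ℝ) ≤ J := by exact_mod_cast h
          have := pow_le_pow_left₀ (by positivity) this 2
          linarith
        linarith
      have h3 := mul_le_mul_of_nonneg_right (h2.trans h1) hsi
      linarith
    · have h1 := sk_tail hn hr i h
      have h2 := Vz_nonneg n ((n / 2 : ℕ) + i)
      have h3 : V * (1 - δ) * sk n ((n / 2 : ℕ) + i) ≤ V * sk n ((n / 2 : ℕ) + i) := by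
        apply mul_le_mul_of_nonneg_right _ hsi
        nlinarith
      have h4 : V * sk n ((n / 2 : ℕ) + i) ≤ V * (s0 * (2 * r * (1 / 2) ^ i.natAbs)) :=
        mul_le_mul_of_nonneg_left h1 hV0
      have h5 := mul_nonneg h2 hsi
      nlinarith
  have hsumL : Summable (fun i : ℤ => V * (1 - δ) * sk n ((n / 2 : ℕ) + i) -
      V * s0 * (2 * r) * (1 / 2) ^ i.natAbs) :=
    (hsumS.mul_left _).sub (summable_half.mul_left _)
  have h1 := Summable.tsum_le_tsum key hsumL hsumA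
  rw [Summable.tsum_sub (hsumS.mul_left _) (summable_half.mul_left _), tsum_mul_left, tsum_mul_left,
    hshift (sk n), hshift (fun k => Vz n k * sk n k), (hasSum_Vz n).tsum_eq] at h1
  refine le_trans ?_ h1
  set Θ := ∑' k : ℤ, sk n k
  have h2 : V * s0 * (2 * r) * hC ≤ V * Θ * (2 * r) * hC := by
    apply mul_le_mul_of_nonneg_right _ hC0
    apply mul_le_mul_of_nonneg_right _ (by positivity)
    exact mul_le_mul_of_nonneg_left hs0le hV0
  change _ ≤ V * (1 - δ) * Θ - V * s0 * (2 * r) * hC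
  nlinarith

/-- The closed form. -/
noncomputable def closedForm (n : ℕ) : ℝ := Pn n * ∑' k : ℤ, sk n k

lemma theta_pos {n : ℕ} (hn : 2 ≤ n) : 0 < ∑' k : ℤ, sk n k :=
  (summable_sk hn).tsum_pos (fun k => sk_nonneg _ _) 0 (sk_pos (by omega) 0)

lemma Pn_pos {n : ℕ} (hn : 1 ≤ n) : 0 < Pn n := by
  have : (0 : ℝ) < n := by exact_mod_cast hn
  unfold Pn; positivity

lemma ratio_eq {n : ℕ} (hn : 2 ≤ n) : (asymp n : ℝ) / closedForm n =
    cn n * (∑ k ∈ range (n + 1), Vk n k * sk n k) / ∑' k : ℤ, sk n k := by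
  have h1 : (asymp n : ℝ) = Pn n * (cn n * ∑ k ∈ range (n + 1), Vk n k * sk n k) := by
    rw [asymp_eq, Finset.mul_sum, Finset.mul_sum]
    refine Finset.sum_congr rfl fun k hk => ?_
    rw [mem_range] at hk
    exact Tk_eq (by omega) (by omega)
  unfold closedForm
  rw [h1, mul_div_mul_left _ _ (Pn_pos (by omega)).ne']

lemma tendsto_tail : Tendsto (fun J : ℕ => 2 * ((J : ℝ) + 1) ^ 4 / 4 ^ J) atTop (𝓝 0) := by
  have h := tendsto_pow_const_div_const_pow_of_one_lt 4 (show (1 : ℝ) < 4 by norm_num)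
  have h2 := (h.comp (tendsto_add_atTop_nat 1)).const_mul 8
  rw [mul_zero] at h2
  refine h2.congr fun J => ?_
  simp only [Function.comp_apply]
  push_cast
  rw [pow_succ (4 : ℝ) J]
  field_simp
  norm_num

theorem tendsto_asymp_closedForm :
    Tendsto (fun n : ℕ => (asymp n : ℝ) / closedForm n) atTop (𝓝 1) := by
  -- the cut-off
  let J : ℕ → ℕ := fun n => Nat.sqrt (Nat.sqrt n)
  have hJt : Tendsto J atTop atTop := by
    have h1 : Tendsto Nat.sqrt atTop atTop := by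
      rw [tendsto_atTop]
      intro b
      filter_upwards [eventually_ge_atTop (b ^ 2)] with n hn
      rw [Nat.le_sqrt']
      exact hn
    exact h1.comp h1
  have hr : Tendsto (fun n : ℕ => 2 * (n : ℝ) / 4 ^ (J n)) atTop (𝓝 0) := by
    have h1 := tendsto_tail.comp hJt
    refine squeeze_zero (fun n => by positivity) (fun n => ?_) h1
    simp only [Function.comp_apply]
    apply div_le_div_of_nonneg_right _ (by positivity)
    have h2 : n ≤ (J n + 1) ^ 4 := by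
      have a1 : n < (Nat.sqrt n + 1) ^ 2 := Nat.lt_succ_sqrt' n
      have a2 : Nat.sqrt n < (J n + 1) ^ 2 := Nat.lt_succ_sqrt' _
      calc n ≤ (Nat.sqrt n + 1) ^ 2 := a1.le
        _ ≤ ((J n + 1) ^ 2) ^ 2 := Nat.pow_le_pow_left a2 2
        _ = _ := by ring
    have h3 : (n : ℝ) ≤ ((J n : ℝ) + 1) ^ 4 := by exact_mod_cast h2
    linarith
  have hδ : Tendsto (fun n : ℕ => 9 * (J n : ℝ) ^ 2 / n) atTop (𝓝 0) := by
    have h1 : Tendsto (fun n : ℕ => 9 * ((n : ℝ) ^ (1 / 2 : ℝ))⁻¹) atTop (𝓝 0) := by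
      have h2 : Tendsto (fun n : ℕ => (n : ℝ) ^ (1 / 2 : ℝ)) atTop atTop :=
        (tendsto_rpow_atTop (by norm_num)).comp tendsto_natCast_atTop_atTop
      have := (tendsto_inv_atTop_zero.comp h2).const_mul 9
      rw [mul_zero] at this
      exact this
    refine squeeze_zero' (Eventually.of_forall fun n => by positivity) ?_ h1
    filter_upwards [eventually_ge_atTop 1] with n hn
    have hn0 : (0 : ℝ) < n := by exact_mod_cast hn
    have h2 : ((J n : ℕ) : ℝ) ^ 2 ≤ (n : ℝ) ^ (1 / 2 : ℝ) := by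
      rw [← Real.sqrt_eq_rpow]
      apply Real.le_sqrt_of_sq_le
      have a1 : (J n) ^ 2 ≤ Nat.sqrt n := Nat.sqrt_le' _
      have a2 : Nat.sqrt n ^ 2 ≤ n := Nat.sqrt_le' _
      have : ((J n) ^ 2) ^ 2 ≤ n := (Nat.pow_le_pow_left a1 2).trans a2
      exact_mod_cast this
    have h3 : (n : ℝ) = (n : ℝ) ^ (1 / 2 : ℝ) * (n : ℝ) ^ (1 / 2 : ℝ) := by
      rw [← Real.rpow_add hn0]; norm_num
    have h4 : 0 < (n : ℝ) ^ (1 / 2 : ℝ) := by positivity
    rw [div_le_iff₀ hn0]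
    obtain ⟨x, hx⟩ : ∃ x : ℝ, x = (n : ℝ) ^ (1 / 2 : ℝ) := ⟨_, rfl⟩
    rw [← hx] at h2 h3 h4 ⊢
    rw [h3, mul_assoc, ← mul_assoc _ x, inv_mul_cancel₀ h4.ne', one_mul]
    linarith
  have hinv : Tendsto (fun n : ℕ => 1 / (n : ℝ)) atTop (𝓝 0) := tendsto_one_div_atTop_nhds_zero_nat
  have hU : Tendsto (fun n : ℕ => un n * (1 + 1 / (n : ℝ))) atTop (𝓝 1) := by
    have := tendsto_un.mul (hinv.const_add 1)
    simpa using this
  have hL : Tendsto (fun n : ℕ => un n * (1 - 9 * (J n : ℝ) ^ 2 / n -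
      2 * (2 * (n : ℝ) / 4 ^ (J n)) * hC)) atTop (𝓝 1) := by
    have := tendsto_un.mul ((hδ.const_sub 1).sub ((hr.const_mul 2).mul_const hC))
    simpa using this
  have hrev : ∀ᶠ n : ℕ in atTop, 2 * (n : ℝ) / 4 ^ (J n) ≤ 1 / 2 :=
    hr.eventually (eventually_le_nhds (by norm_num))
  refine tendsto_of_tendsto_of_tendsto_of_le_of_le' hL hU ?_ ?_
  · filter_upwards [eventually_ge_atTop 4, hrev] with n hn hrn
    have hcn : 0 ≤ cn n := by unfold cn; positivity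
    have hθ := theta_pos (show 2 ≤ n by omega)
    rw [ratio_eq (by omega), le_div_iff₀ hθ]
    have hJn : J n ≤ n / 2 := by
      have a1 : J n ≤ Nat.sqrt n := Nat.sqrt_le_self _
      have a2 : Nat.sqrt n * Nat.sqrt n ≤ n := Nat.sqrt_le n
      have a3 : 2 ≤ Nat.sqrt n := by rw [Nat.le_sqrt]; omega
      have : 2 * Nat.sqrt n ≤ n := by nlinarith
      omega
    have h1 := mul_le_mul_of_nonneg_left (lower_theta (show 2 ≤ n by omega) hJn hrn) hcn
    unfold un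
    nlinarith
  · filter_upwards [eventually_ge_atTop 4] with n hn
    have hcn : 0 ≤ cn n := by unfold cn; positivity
    have hθ := theta_pos (show 2 ≤ n by omega)
    rw [ratio_eq (by omega), div_le_iff₀ hθ]
    have h1 := mul_le_mul_of_nonneg_left (upper_theta (show 2 ≤ n by omega)) hcn
    unfold un
    nlinarith

theorem tendsto_closedForm :
    Tendsto (fun n : ℕ => (regCount n : ℝ) / closedForm n) atTop (𝓝 1) := by
  have h := tendsto_ratio.mul tendsto_asymp_closedForm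
  rw [mul_one] at h
  refine h.congr fun n => ?_
  rw [div_mul_div_cancel₀ (asymp_pos n).ne']

end Pool.Agent.MP72200a
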