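import Mathlib

/-!
# Counting triangle-free graphs

The number of triangle-free graphs on `j ≤ k` vertices is at most `W^j * 11^(j^2/10)`, where
`W = 404 k^5 (k^2+1)^(2(√k+1))`.
-/

namespace Pool.Agent.MP72200a

open Finset

/-- `A` is the adjacency relation of a triangle-free graph. -/
def IsTF {V : Type} (A : V → V → Prop) : Prop :=
  (∀ x y, A x y → A y x) ∧ (∀ x, ¬ A x x) ∧ ∀ x y z, A x y → A y z → A x z → False

open Classical in
/-- The triangle-free graphs on `V`. -/
noncomputable def TF (V : Type) [Fintype V] : Finset (V → V → Prop) := univ.filter IsTF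

lemma mem_TF {V : Type} [Fintype V] {A : V → V → Prop} : A ∈ TF V ↔ IsTF A := by
  classical
  unfold TF
  simp

/-- `A` contains a `K_{2,3}` at `(a₁, a₂, b₁, b₂, b₃)`. -/
def KAt {V : Type} (A : V → V → Prop) (t : V × V × V × V × V) : Prop :=
  t.1 ≠ t.2.1 ∧ t.2.2.1 ≠ t.2.2.2.1 ∧ t.2.2.1 ≠ t.2.2.2.2 ∧ t.2.2.2.1 ≠ t.2.2.2.2 ∧
  A t.1 t.2.2.1 ∧ A t.1 t.2.2.2.1 ∧ A t.1 t.2.2.2.2 ∧
  A t.2.1 t.2.2.1 ∧ A t.2.1 t.2.2.2.1 ∧ A t.2.1 t.2.2.2.2

section Subsets

/-- The number of subsets with at most `M` elements of an `N`-element set is at most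
`(N+1)^M`. -/
lemma card_small_subsets (X : Type) [Fintype X] [DecidableEq X] (M : ℕ) :
    (univ.filter fun s : Finset X => s.card ≤ M).card ≤ (Fintype.card X + 1) ^ M := by
  have h1 : (univ.filter fun s : Finset X => s.card ≤ M) =
      (range (M + 1)).biUnion fun m => powersetCard m univ := by
    ext s
    simp only [mem_filter, mem_univ, true_and, mem_biUnion, mem_range, mem_powersetCard,
      subset_univ]
    constructor
    · intro h; exact ⟨s.card, by omega, rfl⟩
    · rintro ⟨m, hm, rfl⟩; omega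
  rw [h1]
  refine card_biUnion_le.trans ?_
  rw [add_pow]
  apply Finset.sum_le_sum
  intro m hm
  rw [mem_range] at hm
  rw [card_powersetCard, card_univ, one_pow, mul_one]
  calc (Fintype.card X).choose m ≤ Fintype.card X ^ m := Nat.choose_le_pow _ _
    _ = Fintype.card X ^ m * 1 := (mul_one _).symm
    _ ≤ Fintype.card X ^ m * M.choose m := by
        apply Nat.mul_le_mul_left
        exact Nat.choose_pos (by omega)

end Subsets

variable {V : Type} [Fintype V]

open Classical in
/-- Number of neighbours. -/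
noncomputable def dg (A : V → V → Prop) (v : V) : ℕ := ∑ a, if A v a then 1 else 0

lemma codeg_le {A : V → V → Prop} (hA : IsTF A) (hK : ∀ t, ¬ KAt A t) {a b : V}
    (hab : a ≠ b) [DecidablePred fun v => A v a ∧ A v b] :
    (univ.filter fun v => A v a ∧ A v b).card ≤ 2 := by
  classical
  by_contra hcon
  push Not at hcon
  obtain ⟨x, y, z, hx, hy, hz, hxy, hxz, hyz⟩ := Finset.two_lt_card_iff.mp hcon
  simp only [mem_filter, mem_univ, true_and] at hx hy hz
  exact hK (a, b, x, y, z) ⟨hab, hxy, hxz, hyz, hA.1 _ _ hx.1, hA.1 _ _ hy.1, hA.1 _ _ hz.1,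
    hA.1 _ _ hx.2, hA.1 _ _ hy.2, hA.1 _ _ hz.2⟩

lemma sum_dg_sq {A : V → V → Prop} (hA : IsTF A) (hK : ∀ t, ¬ KAt A t) :
    ∑ v, dg A v ^ 2 ≤ ∑ v, dg A v + 2 * Fintype.card V ^ 2 := by
  classical
  have h1 : ∑ v, dg A v ^ 2 =
      ∑ a, ∑ b, ∑ v, (if A v a then 1 else 0) * (if A v b then 1 else 0) := by
    have : ∀ v, dg A v ^ 2 = ∑ a, ∑ b, (if A v a then 1 else 0) * (if A v b then 1 else 0) := by
      intro v
      unfold dg
      rw [pow_two, Finset.sum_mul_sum]
    rw [Finset.sum_congr rfl fun v _ => this v, Finset.sum_comm]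
    refine Finset.sum_congr rfl fun a _ => ?_
    rw [Finset.sum_comm]
  have h2 : ∀ a b : V, ∑ v, (if A v a then 1 else 0) * (if A v b then 1 else 0) ≤
      (if a = b then dg A a else 0) + 2 := by
    intro a b
    by_cases hab : a = b
    · subst hab
      rw [if_pos rfl]
      refine le_trans (Finset.sum_le_sum (g := fun v => if A a v then 1 else 0) ?_) ?_
      · intro v _
        by_cases h : A v a
        · simp [h, hA.1 _ _ h]
        · have : ¬ A a v := fun h' => h (hA.1 _ _ h')
          simp [h, this]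
      · unfold dg
        omega
    · rw [if_neg hab, zero_add]
      refine le_trans (le_of_eq ?_) (codeg_le hA hK hab)
      rw [Finset.card_filter]
      refine Finset.sum_congr rfl fun v _ => ?_
      by_cases h1 : A v a <;> by_cases h2 : A v b <;> simp [h1, h2]
  rw [h1]
  calc _ ≤ ∑ a : V, ∑ b : V, ((if a = b then dg A a else 0) + 2) :=
        Finset.sum_le_sum fun a _ => Finset.sum_le_sum fun b _ => h2 a b
    _ = _ := by
        simp only [Finset.sum_add_distrib, Finset.sum_ite_eq, Finset.mem_univ, if_true,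
          Finset.sum_const, Finset.card_univ, smul_eq_mul]
        ring

lemma sum_dg_le {A : V → V → Prop} (hA : IsTF A) (hK : ∀ t, ¬ KAt A t) :
    ∑ v, dg A v ≤ Nat.sqrt (4 * Fintype.card V ^ 3) := by
  rw [Nat.le_sqrt, ← pow_two]
  have h1 : (∑ v, dg A v) ^ 2 ≤ Fintype.card V * ∑ v, dg A v ^ 2 := by
    have := sq_sum_le_card_mul_sum_sq (s := (univ : Finset V)) (f := fun v => (dg A v : ℤ))
    rw [Finset.card_univ] at this
    exact_mod_cast this
  have h2 := sum_dg_sq hA hK
  set D := ∑ v, dg A v with hD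
  set j := Fintype.card V with hj
  have h3 : D ^ 2 ≤ j * (D + 2 * j ^ 2) := h1.trans (Nat.mul_le_mul_left _ h2)
  rcases Nat.eq_zero_or_pos j with h0 | h0
  · rw [h0] at h3 ⊢
    simpa using h3
  by_cases hle : D ≤ 2 * j
  · have : j * D ≤ 2 * j ^ 3 := by
      calc j * D ≤ j * (2 * j) := Nat.mul_le_mul_left _ hle
        _ = 2 * j ^ 2 := by ring
        _ ≤ 2 * j ^ 3 := Nat.mul_le_mul_left _ (Nat.pow_le_pow_right h0 (by norm_num))
    nlinarith
  · push Not at hle
    have : 2 * (j * D) ≤ D ^ 2 := by nlinarith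
    nlinarith

open Classical in
lemma card_kfree_le : ((TF V).filter fun A => ∀ t, ¬ KAt A t).card ≤
    (Fintype.card V ^ 2 + 1) ^ Nat.sqrt (4 * Fintype.card V ^ 3) := by
  have h := card_small_subsets (V × V) (Nat.sqrt (4 * Fintype.card V ^ 3))
  rw [Fintype.card_prod, ← pow_two] at h
  refine le_trans ?_ h
  apply Finset.card_le_card_of_injOn (fun A => univ.filter fun q : V × V => A q.1 q.2)
  · intro A hA
    simp only [coe_filter, Set.mem_setOf_eq, mem_univ, true_and] at hA ⊢
    have hA1 : IsTF A := mem_TF.mp hA.1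
    refine le_trans (le_of_eq ?_) (sum_dg_le hA1 hA.2)
    rw [Finset.card_filter, Fintype.sum_prod_type]
    rfl
  · intro A _ A' _ h
    funext x y
    have := congrArg (fun s => (x, y) ∈ s) h
    simpa using this

/-- Allowed adjacency patterns to a `K_{2,3}`. -/
def pats : Finset (Bool × Bool × Bool × Bool × Bool) :=
  univ.filter fun p => ¬ ((p.1 = true ∨ p.2.1 = true) ∧
    (p.2.2.1 = true ∨ p.2.2.2.1 = true ∨ p.2.2.2.2 = true))

lemma card_pats : pats.card = 11 := by decide

/-- The five vertices. -/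
abbrev five [DecidableEq V] (t : V × V × V × V × V) : Finset V :=
  {t.1, t.2.1, t.2.2.1, t.2.2.2.1, t.2.2.2.2}

omit [Fintype V] in
lemma card_five [DecidableEq V] {A : V → V → Prop} (hA : IsTF A) {t : V × V × V × V × V}
    (ht : KAt A t) : (five t).card = 5 := by
  obtain ⟨a, b, c, d, e⟩ := t
  obtain ⟨h1, h2, h3, h4, h5, h6, h7, h8, h9, h10⟩ := ht
  simp only at h1 h2 h3 h4 h5 h6 h7 h8 h9 h10
  have n1 : a ≠ c := by rintro rfl; exact hA.2.1 _ h5
  have n2 : a ≠ d := by rintro rfl; exact hA.2.1 _ h6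
  have n3 : a ≠ e := by rintro rfl; exact hA.2.1 _ h7
  have n4 : b ≠ c := by rintro rfl; exact hA.2.1 _ h8
  have n5 : b ≠ d := by rintro rfl; exact hA.2.1 _ h9
  have n6 : b ≠ e := by rintro rfl; exact hA.2.1 _ h10
  unfold five
  simp only
  rw [card_insert_of_notMem, card_insert_of_notMem, card_insert_of_notMem,
    card_insert_of_notMem, card_singleton] <;>
  simp only [mem_insert, mem_singleton, not_or] <;> tauto

open Classical in
lemma card_kat_le (t : V × V × V × V × V) :
    ((TF V).filter fun A => KAt A t).card ≤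
      11 ^ Fintype.card V * (TF {x // x ∉ five t}).card := by
  have h1 : (Fintype.piFinset fun _ : V => pats).card = 11 ^ Fintype.card V := by
    rw [Fintype.card_piFinset, Finset.prod_const, Finset.card_univ, card_pats]
  rw [← h1, ← card_product]
  apply Finset.card_le_card_of_injOn (fun A => ((fun z => (decide (A t.1 z), decide (A t.2.1 z),
    decide (A t.2.2.1 z), decide (A t.2.2.2.1 z), decide (A t.2.2.2.2 z))),
    fun x y : {x // x ∉ five t} => A x.1 y.1))
  · intro A hA
    simp only [coe_filter, Set.mem_setOf_eq] at hA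
    have hA1 : IsTF A := mem_TF.mp hA.1
    obtain ⟨g1, g2, g3, g4, g5, g6, g7, g8, g9, g10⟩ := hA.2
    simp only [coe_product, Set.mem_prod, mem_coe]
    refine ⟨?_, ?_⟩
    · rw [Fintype.mem_piFinset]
      intro z
      unfold pats
      rw [mem_filter]
      refine ⟨mem_univ _, ?_⟩
      simp only [decide_eq_true_eq]
      rintro ⟨ha | ha, hb | hb | hb⟩
      · exact hA1.2.2 _ _ _ g5 hb ha
      · exact hA1.2.2 _ _ _ g6 hb ha
      · exact hA1.2.2 _ _ _ g7 hb ha
      · exact hA1.2.2 _ _ _ g8 hb ha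
      · exact hA1.2.2 _ _ _ g9 hb ha
      · exact hA1.2.2 _ _ _ g10 hb ha
    · exact mem_TF.mpr ⟨fun x y h => hA1.1 _ _ h, fun x => hA1.2.1 _,
        fun x y z h1 h2 h3 => hA1.2.2 _ _ _ h1 h2 h3⟩
  · intro A hA A' hA' h
    simp only [coe_filter, Set.mem_setOf_eq] at hA hA'
    have hA1 : IsTF A := mem_TF.mp hA.1
    have hA1' : IsTF A' := mem_TF.mp hA'.1
    simp only [Prod.mk.injEq] at h
    obtain ⟨hp, hr⟩ := h
    have hrow : ∀ x ∈ five t, ∀ z, A x z ↔ A' x z := by
      intro x hx z
      have h0 := congrFun hp z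
      simp only [Prod.mk.injEq, decide_eq_decide] at h0
      simp only [five, mem_insert, mem_singleton] at hx
      rcases hx with rfl | rfl | rfl | rfl | rfl
      · exact h0.1
      · exact h0.2.1
      · exact h0.2.2.1
      · exact h0.2.2.2.1
      · exact h0.2.2.2.2
    funext x y
    apply propext
    by_cases hx : x ∈ five t
    · exact hrow x hx y
    by_cases hy : y ∈ five t
    · rw [show A x y ↔ A y x from ⟨hA1.1 _ _, hA1.1 _ _⟩,
        show A' x y ↔ A' y x from ⟨hA1'.1 _ _, hA1'.1 _ _⟩]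
      exact hrow y hy x
    have := congrFun (congrFun hr ⟨x, hx⟩) ⟨y, hy⟩
    simp only [eq_iff_iff] at this
    exact this

/-- The base in the bound for the number of triangle-free graphs. -/
noncomputable def bigW (k : ℕ) : ℝ :=
  404 * (k : ℝ) ^ 5 * ((k : ℝ) ^ 2 + 1) ^ (2 * (Nat.sqrt k + 1))

lemma sqrt_bound {j k : ℕ} (hjk : j ≤ k) : Nat.sqrt (4 * j ^ 3) ≤ 2 * (Nat.sqrt k + 1) * j := by
  rw [← Nat.lt_succ_iff, Nat.sqrt_lt']
  have h1 : k < (Nat.sqrt k + 1) ^ 2 := Nat.lt_succ_sqrt' k
  have h2 : j ≤ (Nat.sqrt k + 1) ^ 2 := by omega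
  calc 4 * j ^ 3 = 4 * j ^ 2 * j := by ring
    _ ≤ 4 * j ^ 2 * (Nat.sqrt k + 1) ^ 2 := Nat.mul_le_mul_left _ h2
    _ = (2 * (Nat.sqrt k + 1) * j) ^ 2 := by ring
    _ < (2 * (Nat.sqrt k + 1) * j + 1) ^ 2 := by
        apply Nat.pow_lt_pow_left (Nat.lt_succ_self _) (by norm_num)

theorem card_TF_le (k : ℕ) (hk : 1 ≤ k) : ∀ (j : ℕ), j ≤ k → ∀ (V : Type) [Fintype V],
    Fintype.card V = j → ((TF V).card : ℝ) ≤ bigW k ^ j * (11 : ℝ) ^ ((j : ℝ) ^ 2 / 10) := by
  classical
  intro j
  induction j using Nat.strong_induction_on with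
  | _ j ih =>
    intro hjk V _ hV
    set E : ℝ := ((k : ℝ) ^ 2 + 1) ^ (2 * (Nat.sqrt k + 1)) with hE
    have hk1 : (1 : ℝ) ≤ k := by exact_mod_cast hk
    have hE1 : 1 ≤ E := by
      rw [hE]; apply one_le_pow₀; nlinarith
    have hW : bigW k = 404 * (k : ℝ) ^ 5 * E := rfl
    have hk5 : (1 : ℝ) ≤ (k : ℝ) ^ 5 := one_le_pow₀ hk1
    have hW1 : 404 * E ≤ bigW k := by
      rw [hW]
      nlinarith
    have hWpos : 0 < bigW k := by linarith
    have h11 : (1 : ℝ) ≤ (11 : ℝ) ^ ((j : ℝ) ^ 2 / 10) :=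
      Real.one_le_rpow (by norm_num) (by positivity)
    -- K-free part
    have hfree : (((TF V).filter fun A => ∀ t, ¬ KAt A t).card : ℝ) ≤ E ^ j := by
      have h1 := card_kfree_le (V := V)
      rw [hV] at h1
      have h2 : (((TF V).filter fun A => ∀ t, ¬ KAt A t).card : ℝ) ≤
          ((j : ℝ) ^ 2 + 1) ^ Nat.sqrt (4 * j ^ 3) := by exact_mod_cast h1
      refine h2.trans ?_
      have hjk' : (j : ℝ) ≤ k := by exact_mod_cast hjk
      calc ((j : ℝ) ^ 2 + 1) ^ Nat.sqrt (4 * j ^ 3)
          ≤ ((k : ℝ) ^ 2 + 1) ^ Nat.sqrt (4 * j ^ 3) := by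
            apply pow_le_pow_left₀ (by positivity)
            have : (j : ℝ) ^ 2 ≤ (k : ℝ) ^ 2 := pow_le_pow_left₀ (by positivity) hjk' 2
            linarith
        _ ≤ ((k : ℝ) ^ 2 + 1) ^ (2 * (Nat.sqrt k + 1) * j) := by
            apply pow_le_pow_right₀ _ (sqrt_bound hjk)
            nlinarith [sq_nonneg (k : ℝ)]
        _ = E ^ j := by rw [hE, ← pow_mul]
    have hsplit : (TF V).card ≤ ((TF V).filter fun A => ∀ t, ¬ KAt A t).card +
        ∑ t : V × V × V × V × V, ((TF V).filter fun A => KAt A t).card := by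
      have hsub : TF V ⊆ ((TF V).filter fun A => ∀ t, ¬ KAt A t) ∪
          (univ : Finset (V × V × V × V × V)).biUnion fun t => (TF V).filter fun A => KAt A t := by
        intro A hA
        rw [mem_union, mem_filter, mem_biUnion]
        by_cases h : ∀ t, ¬ KAt A t
        · exact Or.inl ⟨hA, h⟩
        · push Not at h
          obtain ⟨t, ht⟩ := h
          exact Or.inr ⟨t, mem_univ _, mem_filter.mpr ⟨hA, ht⟩⟩
      refine (card_le_card hsub).trans ((card_union_le _ _).trans ?_)
      gcongr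
      exact card_biUnion_le
    by_cases hj5 : j < 5
    · -- no K
      have hzero : ∀ t : V × V × V × V × V, ((TF V).filter fun A => KAt A t).card = 0 := by
        intro t
        rw [card_eq_zero, filter_eq_empty_iff]
        intro A hA ht
        have hA1 : IsTF A := mem_TF.mp hA
        have h5 := card_five hA1 ht
        have := card_le_univ (five t)
        omega
      rw [Finset.sum_eq_zero fun t _ => hzero t, add_zero] at hsplit
      have h1 : ((TF V).card : ℝ) ≤ E ^ j := le_trans (by exact_mod_cast hsplit) hfree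
      calc ((TF V).card : ℝ) ≤ E ^ j * 1 := by rw [mul_one]; exact h1
        _ ≤ bigW k ^ j * (11 : ℝ) ^ ((j : ℝ) ^ 2 / 10) := by
            apply mul_le_mul _ h11 (by norm_num) (by positivity)
            apply pow_le_pow_left₀ (by linarith)
            linarith
    · push Not at hj5
      obtain ⟨i, rfl⟩ := Nat.exists_eq_add_of_le hj5
      have hkat : ∀ t : V × V × V × V × V, (((TF V).filter fun A => KAt A t).card : ℝ) ≤
          11 ^ (5 + i) * (bigW k ^ i * (11 : ℝ) ^ ((i : ℝ) ^ 2 / 10)) := by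
        intro t
        by_cases hne : ((TF V).filter fun A => KAt A t).Nonempty
        · obtain ⟨A, hA⟩ := hne
          rw [mem_filter] at hA
          have hA1 : IsTF A := mem_TF.mp hA.1
          have h5 := card_five hA1 hA.2
          have hc : Fintype.card {x // x ∉ five t} = i := by
            rw [Fintype.card_subtype_compl, Fintype.card_coe, h5, hV]
            omega
          have h1 := card_kat_le (V := V) t
          rw [hV] at h1
          have h2 : (((TF V).filter fun A => KAt A t).card : ℝ) ≤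
              11 ^ (5 + i) * ((TF {x // x ∉ five t}).card : ℝ) := by exact_mod_cast h1
          refine h2.trans ?_
          apply mul_le_mul_of_nonneg_left _ (by positivity)
          exact ih i (by omega) (by omega) _ hc
        · rw [not_nonempty_iff_eq_empty] at hne
          rw [hne, card_empty]
          push_cast
          positivity
      have hsum : (∑ t : V × V × V × V × V, (((TF V).filter fun A => KAt A t).card : ℝ)) ≤
          (k : ℝ) ^ 5 * (11 ^ (5 + i) * (bigW k ^ i * (11 : ℝ) ^ ((i : ℝ) ^ 2 / 10))) := by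
        calc _ ≤ ∑ t : V × V × V × V × V,
              (11 ^ (5 + i) * (bigW k ^ i * (11 : ℝ) ^ ((i : ℝ) ^ 2 / 10)) : ℝ) :=
              Finset.sum_le_sum fun t _ => hkat t
          _ = (Fintype.card V : ℝ) ^ 5 *
              (11 ^ (5 + i) * (bigW k ^ i * (11 : ℝ) ^ ((i : ℝ) ^ 2 / 10))) := by
              rw [Finset.sum_const, Finset.card_univ]
              simp only [Fintype.card_prod, nsmul_eq_mul]
              push_cast
              ring
          _ ≤ _ := by
              apply mul_le_mul_of_nonneg_right _ (by positivity)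
              rw [hV]
              apply pow_le_pow_left₀ (by positivity)
              exact_mod_cast hjk
      have hrp : (11 : ℝ) ^ (5 + i) * (11 : ℝ) ^ ((i : ℝ) ^ 2 / 10) ≤
          402 * (11 : ℝ) ^ (((5 + i : ℕ) : ℝ) ^ 2 / 10) := by
        rw [← Real.rpow_natCast, ← Real.rpow_add (by norm_num)]
        have e1 : (((5 + i : ℕ) : ℝ)) + (i : ℝ) ^ 2 / 10 =
            5 / 2 + ((5 + i : ℕ) : ℝ) ^ 2 / 10 := by
          push_cast; ring
        rw [e1, Real.rpow_add (by norm_num)]
        apply mul_le_mul_of_nonneg_right _ (by positivity)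
        have : (11 : ℝ) ^ (5 / 2 : ℝ) = Real.sqrt (11 ^ 5) := by
          rw [Real.sqrt_eq_rpow, ← Real.rpow_natCast, ← Real.rpow_mul (by norm_num)]
          norm_num
        rw [this, Real.sqrt_le_left (by norm_num)]
        norm_num
      set G : ℝ := (11 : ℝ) ^ (((5 + i : ℕ) : ℝ) ^ 2 / 10) with hG
      have hmain : ((TF V).card : ℝ) ≤ E ^ (5 + i) + (k : ℝ) ^ 5 * (402 * G) * bigW k ^ i := by
        have h1 : ((TF V).card : ℝ) ≤ (((TF V).filter fun A => ∀ t, ¬ KAt A t).card : ℝ) +
            ∑ t : V × V × V × V × V, (((TF V).filter fun A => KAt A t).card : ℝ) := by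
          exact_mod_cast hsplit
        refine h1.trans (add_le_add hfree (hsum.trans ?_))
        calc (k : ℝ) ^ 5 * (11 ^ (5 + i) * (bigW k ^ i * (11 : ℝ) ^ ((i : ℝ) ^ 2 / 10)))
            = (k : ℝ) ^ 5 * (11 ^ (5 + i) * (11 : ℝ) ^ ((i : ℝ) ^ 2 / 10)) * bigW k ^ i := by ring
          _ ≤ _ := by
              apply mul_le_mul_of_nonneg_right _ (by positivity)
              apply mul_le_mul_of_nonneg_left hrp (by positivity)
      refine hmain.trans ?_
      have hG1 : 1 ≤ G := h11
      have hWi : E ^ i ≤ bigW k ^ i := by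
        apply pow_le_pow_left₀ (by linarith)
        linarith
      have e1 : E ^ (5 + i) ≤ E ^ 5 * bigW k ^ i * G := by
        calc E ^ (5 + i) = E ^ 5 * E ^ i * 1 := by rw [pow_add, mul_one]
          _ ≤ _ := by
            apply mul_le_mul _ hG1 (by norm_num) (by positivity)
            apply mul_le_mul_of_nonneg_left hWi (by positivity)
      have e2 : E ^ 5 + (k : ℝ) ^ 5 * 402 ≤ bigW k ^ 5 := by
        have a1 : E ^ 5 ≤ (k : ℝ) ^ 5 * E ^ 5 := by
          nlinarith [pow_pos (by linarith : 0 < E) 5]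
        have a2 : (k : ℝ) ^ 5 * 402 ≤ (k : ℝ) ^ 5 * 402 * E ^ 5 := by
          have : (1 : ℝ) ≤ E ^ 5 := one_le_pow₀ hE1
          nlinarith
        have a3 : (404 * (k : ℝ) ^ 5) ≤ (404 * (k : ℝ) ^ 5) ^ 5 := by
          have : (1 : ℝ) ≤ 404 * (k : ℝ) ^ 5 := by linarith
          calc (404 * (k : ℝ) ^ 5) = (404 * (k : ℝ) ^ 5) ^ 1 := (pow_one _).symm
            _ ≤ _ := pow_le_pow_right₀ this (by norm_num)
        calc E ^ 5 + (k : ℝ) ^ 5 * 402 ≤ (404 * (k : ℝ) ^ 5) * E ^ 5 := by nlinarith
          _ ≤ (404 * (k : ℝ) ^ 5) ^ 5 * E ^ 5 := by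
              apply mul_le_mul_of_nonneg_right a3 (by positivity)
          _ = bigW k ^ 5 := by rw [hW]; ring
      calc E ^ (5 + i) + (k : ℝ) ^ 5 * (402 * G) * bigW k ^ i
          ≤ E ^ 5 * bigW k ^ i * G + (k : ℝ) ^ 5 * (402 * G) * bigW k ^ i := by linarith
        _ = (E ^ 5 + (k : ℝ) ^ 5 * 402) * (bigW k ^ i * G) := by ring
        _ ≤ bigW k ^ 5 * (bigW k ^ i * G) := by
            apply mul_le_mul_of_nonneg_right e2 (by positivity)
        _ = bigW k ^ (5 + i) * G := by
            have : bigW k ^ (5 + i) = bigW k ^ 5 * bigW k ^ i := pow_add _ _ _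
            rw [this, mul_assoc]

end Pool.Agent.MP72200a
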